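import Pool.Agent.D0H44.MW.Ga

/-! Orthogonality of the Dirichlet characters. -/

set_option autoImplicit false
open Complex Filter Topology Set

namespace Pool.Agent.D0H44.MW

theorem conj_char {q : ℕ} (χ : DirichletCharacter ℂ q) (d : (ZMod q)ˣ) :
    (starRingEnd ℂ) (χ (d : ZMod q)) = χ ((d⁻¹ : (ZMod q)ˣ) : ZMod q) := by
  have h1 : ‖χ (d : ZMod q)‖ = 1 := χ.unit_norm_eq_one d
  have h2 : χ (d : ZMod q) * χ ((d⁻¹ : (ZMod q)ˣ) : ZMod q) = 1 := by
    rw [← map_mul, Units.mul_inv, map_one]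
  rw [← Complex.inv_eq_conj h1]
  exact inv_eq_of_mul_eq_one_right h2

theorem orth {ι : Type*} [DecidableEq ι] (q : ℕ) [NeZero q] (S : Finset ι) (r : ι → ZMod q) (A : ι → ℂ) :
    ∑ χ : DirichletCharacter ℂ q, ‖∑ i ∈ S, χ (r i) * A i‖ ^ 2 =
      Nat.totient q * ∑ c : (ZMod q)ˣ, ‖∑ i ∈ S.filter (fun i => r i = c), A i‖ ^ 2 := by
  obtain ⟨B, hB⟩ : ∃ B : (ZMod q)ˣ → ℂ, B = fun c : (ZMod q)ˣ => ∑ i ∈ S.filter (fun i => r i = (c : ZMod q)), A i := ⟨_, rfl⟩
  have h1 : ∀ χ : DirichletCharacter ℂ q, ∑ i ∈ S, χ (r i) * A i = ∑ c : (ZMod q)ˣ, χ (c : ZMod q) * B c := by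
    intro χ
    have e1 : ∀ c : (ZMod q)ˣ, χ (c : ZMod q) * B c =
        ∑ i ∈ S, if r i = c then χ (r i) * A i else 0 := by
      intro c
      rw [hB, Finset.mul_sum, Finset.sum_filter]
      refine Finset.sum_congr rfl fun i _ => ?_
      split_ifs with h
      · rw [h]
      · rfl
    simp_rw [e1]
    rw [Finset.sum_comm]
    refine Finset.sum_congr rfl fun i _ => ?_
    by_cases hu : IsUnit (r i)
    · obtain ⟨u, hu⟩ := hu
      rw [Finset.sum_eq_single u]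
      · rw [if_pos hu.symm]
      · intro c _ hc
        rw [if_neg]
        intro h
        apply hc
        apply Units.ext
        rw [← h, hu]
      · intro h; exact absurd (Finset.mem_univ _) h
    · rw [χ.map_nonunit hu, zero_mul, Finset.sum_eq_zero]
      intro c _
      split_ifs <;> rfl
  simp_rw [h1]
  have h2 : ∀ χ : DirichletCharacter ℂ q, ((‖∑ c : (ZMod q)ˣ, χ (c : ZMod q) * B c‖ ^ 2 : ℝ) : ℂ) =
      ∑ c : (ZMod q)ˣ, ∑ d : (ZMod q)ˣ, (B c * (starRingEnd ℂ) (B d)) *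
        (χ ((d : ZMod q)⁻¹) * χ (c : ZMod q)) := by
    intro χ
    rw [← Complex.normSq_eq_norm_sq, ← Complex.mul_conj, map_sum, Finset.sum_mul_sum]
    refine Finset.sum_congr rfl fun c _ => Finset.sum_congr rfl fun d _ => ?_
    rw [map_mul, conj_char]
    rw [ZMod.inv_coe_unit]
    ring
  have h3 : ((∑ χ : DirichletCharacter ℂ q, ‖∑ c : (ZMod q)ˣ, χ (c : ZMod q) * B c‖ ^ 2 : ℝ) : ℂ) =
      ((Nat.totient q * ∑ c : (ZMod q)ˣ, ‖B c‖ ^ 2 : ℝ) : ℂ) := by
    rw [Complex.ofReal_sum]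
    simp_rw [h2]
    rw [Finset.sum_comm]
    rw [Complex.ofReal_mul, Complex.ofReal_sum, Finset.mul_sum]
    refine Finset.sum_congr rfl fun c _ => ?_
    rw [Finset.sum_comm]
    simp_rw [← Finset.mul_sum]
    rw [Finset.sum_eq_single c]
    · rw [DirichletCharacter.sum_char_inv_mul_char_eq ℂ (Units.isUnit c), if_pos rfl, Complex.mul_conj,
        Complex.normSq_eq_norm_sq]
      push_cast
      ring
    · intro d _ hd
      rw [DirichletCharacter.sum_char_inv_mul_char_eq ℂ (Units.isUnit d), if_neg, mul_zero]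
      intro h
      exact hd (Units.ext h)
    · intro h; exact absurd (Finset.mem_univ _) h
  have h4 : (∑ χ : DirichletCharacter ℂ q, ‖∑ c : (ZMod q)ˣ, χ (c : ZMod q) * B c‖ ^ 2 : ℝ) =
      (Nat.totient q * ∑ c : (ZMod q)ˣ, ‖B c‖ ^ 2 : ℝ) := by exact_mod_cast h3
  rw [h4, hB]

theorem class_term (q n : ℕ) (hq : 1 ≤ q) (x : ℝ) (hqx : 1 ≤ (q : ℝ) * x ^ 2) :
    ga n x ≤ (1 / 2) ^ (n / q) := by
  obtain ⟨j, hj⟩ : ∃ j, j = n / q := ⟨_, rfl⟩
  rw [← hj]
  have h1 : q * j ≤ n := by rw [hj]; exact Nat.mul_div_le n q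
  have h1' : (q : ℝ) * j ≤ n := by exact_mod_cast h1
  have hq1 : (1 : ℝ) ≤ q := by exact_mod_cast hq
  have hj0 : (0 : ℝ) ≤ j := Nat.cast_nonneg _
  have h2 : (j : ℝ) ≤ (n : ℝ) ^ 2 * x ^ 2 := by
    have e1 : (j : ℝ) ≤ (j : ℝ) ^ 2 := by
      have : j ≤ j ^ 2 := Nat.le_self_pow (by norm_num) j
      exact_mod_cast this
    calc (j : ℝ) ≤ (j : ℝ) ^ 2 * 1 := by linarith
      _ ≤ (j : ℝ) ^ 2 * (q * (q * x ^ 2)) := by
          apply mul_le_mul_of_nonneg_left _ (by positivity)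
          nlinarith
      _ = (q * j) ^ 2 * x ^ 2 := by ring
      _ ≤ (n : ℝ) ^ 2 * x ^ 2 := by gcongr
  have h3 : Real.exp (-1) ≤ 1 / 2 := by
    rw [Real.exp_neg, inv_eq_one_div]
    apply one_div_le_one_div_of_le (by norm_num)
    have := Real.add_one_le_exp (1 : ℝ)
    linarith
  calc ga n x ≤ Real.exp (-(j : ℝ)) := by
        unfold ga
        apply Real.exp_le_exp.mpr
        have := Real.pi_gt_three
        nlinarith
    _ = Real.exp (-1) ^ j := by rw [← Real.exp_nat_mul]; congr 1; ring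
    _ ≤ _ := pow_le_pow_left₀ (Real.exp_pos _).le h3 j

theorem class_sum (q N : ℕ) [NeZero q] (c : ZMod q) (x : ℝ) (hqx : 1 ≤ (q : ℝ) * x ^ 2) :
    ∑ n ∈ (Finset.range N).filter (fun n : ℕ => (n : ZMod q) = c), ga n x ≤ 2 := by
  have hq : 1 ≤ q := NeZero.one_le
  calc ∑ n ∈ (Finset.range N).filter (fun n : ℕ => (n : ZMod q) = c), ga n x ≤
        ∑ n ∈ (Finset.range N).filter (fun n : ℕ => (n : ZMod q) = c), (1 / 2 : ℝ) ^ (n / q) :=
        Finset.sum_le_sum fun n _ => class_term q n hq x hqx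
    _ = ∑ j ∈ ((Finset.range N).filter (fun n : ℕ => (n : ZMod q) = c)).image (fun n => n / q),
          (1 / 2 : ℝ) ^ j := by
        rw [Finset.sum_image]
        intro n hn m hm hnm
        simp only [Finset.coe_filter, Finset.mem_range, Set.mem_ofPred_eq] at hn hm
        simp only at hnm
        have h1 : n ≡ m [MOD q] := (ZMod.natCast_eq_natCast_iff n m q).1 (hn.2.trans hm.2.symm)
        rw [← Nat.div_add_mod n q, ← Nat.div_add_mod m q, hnm, h1]
    _ ≤ ∑' j : ℕ, (1 / 2 : ℝ) ^ j :=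
        summable_geometric_two.sum_le_tsum _ (fun j _ => by positivity)
    _ = 2 := tsum_geometric_two

theorem cs_class (S : Finset ℕ) (a : ℕ → ℂ) (x : ℝ) :
    ‖∑ n ∈ S, a n * (ga n x : ℂ)‖ ^ 2 ≤ (∑ n ∈ S, ga n x) * ∑ n ∈ S, ‖a n‖ ^ 2 * ga n x := by
  have h1 : ‖∑ n ∈ S, a n * (ga n x : ℂ)‖ ≤ ∑ n ∈ S, Real.sqrt (ga n x) * (‖a n‖ * Real.sqrt (ga n x)) := by
    refine (norm_sum_le _ _).trans (le_of_eq (Finset.sum_congr rfl fun n _ => ?_))
    rw [norm_mul, Complex.norm_real, Real.norm_of_nonneg (ga_pos n x).le]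
    have := Real.mul_self_sqrt (ga_pos n x).le
    calc ‖a n‖ * ga n x = ‖a n‖ * (Real.sqrt (ga n x) * Real.sqrt (ga n x)) := by rw [this]
      _ = _ := by ring
  have h2 := Finset.sum_mul_sq_le_sq_mul_sq S (fun n => Real.sqrt (ga n x)) (fun n => ‖a n‖ * Real.sqrt (ga n x))
  refine (pow_le_pow_left₀ (norm_nonneg _) h1 2).trans (h2.trans (le_of_eq ?_))
  congr 1
  · refine Finset.sum_congr rfl fun n _ => ?_
    rw [Real.sq_sqrt (ga_pos n x).le]
  · refine Finset.sum_congr rfl fun n _ => ?_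
    rw [mul_pow, Real.sq_sqrt (ga_pos n x).le]

theorem sum_units_le (q : ℕ) [NeZero q] (S : Finset ℕ) (f : ℕ → ℝ) (hf : ∀ n, 0 ≤ f n) :
    ∑ c : (ZMod q)ˣ, ∑ n ∈ S.filter (fun n : ℕ => (n : ZMod q) = (c : ZMod q)), f n ≤ ∑ n ∈ S, f n := by
  simp_rw [Finset.sum_filter]
  rw [Finset.sum_comm]
  refine Finset.sum_le_sum fun n _ => ?_
  by_cases hu : IsUnit (n : ZMod q)
  · obtain ⟨u, hu⟩ := hu
    rw [Finset.sum_eq_single u]
    · split_ifs
      · exact le_rfl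
      · exact hf n
    · intro c _ hc
      rw [if_neg]
      intro h
      exact hc (Units.ext (by rw [← h, hu]))
    · intro h; exact absurd (Finset.mem_univ _) h
  · rw [Finset.sum_eq_zero]
    · exact hf n
    · intro c _
      rw [if_neg]
      intro h
      exact hu (h ▸ Units.isUnit c)

theorem PG_char {q : ℕ} (χ : DirichletCharacter ℂ q) {a : ℕ → ℂ} {C : ℝ} {j : ℕ} (h : PG a C j) :
    PG (fun n => χ (n : ZMod q) * a n) C j := by
  refine ⟨by rw [h.zero, mul_zero], fun n => ?_⟩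
  rw [norm_mul]
  refine le_trans ?_ (h.bd n)
  exact mul_le_of_le_one_left (norm_nonneg _) (χ.norm_le_one _)

theorem PG_sq {a : ℕ → ℂ} {C : ℝ} {j : ℕ} (h : PG a C j) :
    PG (fun n => ((‖a n‖ ^ 2 : ℝ) : ℂ)) (C ^ 2) (2 * j) := by
  refine ⟨by rw [h.zero]; simp, fun n => ?_⟩
  rw [Complex.norm_real, Real.norm_of_nonneg (by positivity)]
  calc ‖a n‖ ^ 2 ≤ (C * (n : ℝ) ^ j) ^ 2 := pow_le_pow_left₀ (norm_nonneg _) (h.bd n) 2
    _ = C ^ 2 * (n : ℝ) ^ (2 * j) := by rw [mul_pow, ← pow_mul, mul_comm j 2]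

theorem sq_summable {a : ℕ → ℂ} {C : ℝ} {j : ℕ} (h : PG a C j) (x : ℝ) (hx : 0 < x) :
    Summable (fun n => ‖a n‖ ^ 2 * ga n x) := by
  have h1 := TS_summable (PG_sq h) x hx
  have h2 := h1.norm
  refine h2.congr fun n => ?_
  rw [norm_mul, Complex.norm_real, Complex.norm_real, Real.norm_of_nonneg (by positivity),
    Real.norm_of_nonneg (ga_pos n x).le]

theorem PA (q : ℕ) [NeZero q] {a : ℕ → ℂ} {C : ℝ} {j : ℕ} (h : PG a C j) (x : ℝ) (hx : 0 < x)
    (hqx : 1 ≤ (q : ℝ) * x ^ 2) :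
    ∑ χ : DirichletCharacter ℂ q, ‖TS (fun n => χ (n : ZMod q) * a n) x‖ ^ 2 ≤
      2 * Nat.totient q * ∑' n, ‖a n‖ ^ 2 * ga n x := by
  have hsq := sq_summable h x hx
  have hfin : ∀ N : ℕ, ∑ χ : DirichletCharacter ℂ q,
      ‖∑ n ∈ Finset.range N, (χ (n : ZMod q) * a n) * (ga n x : ℂ)‖ ^ 2 ≤
      2 * Nat.totient q * ∑' n, ‖a n‖ ^ 2 * ga n x := by
    intro N
    have h1 := orth q (Finset.range N) (fun n : ℕ => (n : ZMod q)) (fun n => a n * (ga n x : ℂ))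
    have h2 : ∀ χ : DirichletCharacter ℂ q, ∑ n ∈ Finset.range N, (χ (n : ZMod q) * a n) * (ga n x : ℂ) =
        ∑ n ∈ Finset.range N, χ (n : ZMod q) * (a n * (ga n x : ℂ)) := by
      intro χ
      refine Finset.sum_congr rfl fun n _ => ?_
      ring
    simp_rw [h2]
    rw [h1]
    have h3 : ∀ c : (ZMod q)ˣ, ‖∑ n ∈ (Finset.range N).filter (fun n : ℕ => (n : ZMod q) = (c : ZMod q)),
        a n * (ga n x : ℂ)‖ ^ 2 ≤
        2 * ∑ n ∈ (Finset.range N).filter (fun n : ℕ => (n : ZMod q) = (c : ZMod q)), ‖a n‖ ^ 2 * ga n x := by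
      intro c
      refine (cs_class _ a x).trans ?_
      apply mul_le_mul_of_nonneg_right (class_sum q N c x hqx)
      exact Finset.sum_nonneg fun n _ => mul_nonneg (by positivity) (ga_pos n x).le
    calc (Nat.totient q : ℝ) * ∑ c : (ZMod q)ˣ, ‖∑ n ∈ (Finset.range N).filter
          (fun n : ℕ => (n : ZMod q) = (c : ZMod q)), a n * (ga n x : ℂ)‖ ^ 2 ≤
          Nat.totient q * ∑ c : (ZMod q)ˣ, 2 * ∑ n ∈ (Finset.range N).filter
            (fun n : ℕ => (n : ZMod q) = (c : ZMod q)), ‖a n‖ ^ 2 * ga n x := by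
          gcongr with c _
          exact h3 c
      _ = 2 * Nat.totient q * ∑ c : (ZMod q)ˣ, ∑ n ∈ (Finset.range N).filter
            (fun n : ℕ => (n : ZMod q) = (c : ZMod q)), ‖a n‖ ^ 2 * ga n x := by
          rw [← Finset.mul_sum]; ring
      _ ≤ 2 * Nat.totient q * ∑ n ∈ Finset.range N, ‖a n‖ ^ 2 * ga n x := by
          apply mul_le_mul_of_nonneg_left _ (by positivity)
          exact sum_units_le q _ _ fun n => mul_nonneg (by positivity) (ga_pos n x).le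
      _ ≤ _ := by
          apply mul_le_mul_of_nonneg_left _ (by positivity)
          exact hsq.sum_le_tsum _ (fun n _ => mul_nonneg (by positivity) (ga_pos n x).le)
  have hlim : Tendsto (fun N : ℕ => ∑ χ : DirichletCharacter ℂ q,
      ‖∑ n ∈ Finset.range N, (χ (n : ZMod q) * a n) * (ga n x : ℂ)‖ ^ 2) atTop
      (𝓝 (∑ χ : DirichletCharacter ℂ q, ‖TS (fun n => χ (n : ZMod q) * a n) x‖ ^ 2)) := by
    apply tendsto_finsetSum
    intro χ _
    exact ((TS_summable (PG_char χ h) x hx).hasSum.tendsto_sum_nat.norm).pow 2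
  exact le_of_tendsto' hlim hfin

end Pool.Agent.D0H44.MW
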