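import Pool.Agent.D0H44.MW.Ml
import Pool.Agent.D0H44.MW.Or
import Pool.Agent.H24R2.DZ.Spec

/-! Statements of the modules of the project MW (windows of primes modulo a prime `q`). -/

set_option autoImplicit false
open Complex Filter Topology MeasureTheory Set
open Pool.Agent.H24R2.DZ (cc rr bb MM)

namespace Pool.Agent.D0H44.MW

/-- `θ(x, χ) = ∑ χ(n) e^{-π n² x²}` -/
noncomputable def th {q : ℕ} (χ : DirichletCharacter ℂ q) (x : ℝ) : ℂ :=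
  TS (fun n => χ (n : ZMod q)) x

/-- `∑ χ(n) log n e^{-π n² x²}` -/
noncomputable def tl {q : ℕ} (χ : DirichletCharacter ℂ q) (x : ℝ) : ℂ :=
  TS (fun n => χ (n : ZMod q) * (Real.log n : ℂ)) x

/-- the mollified theta series `∑_{h ≤ y} b_h χ(h) θ(h x, χ)` -/
noncomputable def FF {q : ℕ} (χ : DirichletCharacter ℂ q) (y : ℕ) (b : ℕ → ℂ) (x : ℝ) : ℂ :=
  ∑ h ∈ Finset.Icc 1 y, b h * χ (h : ZMod q) * th χ (h * x)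

open Classical in
/-- the even non-principal characters modulo `q` -/
noncomputable def ev (q : ℕ) [NeZero q] : Finset (DirichletCharacter ℂ q) :=
  Finset.univ.filter (fun χ => χ ≠ 1 ∧ χ.Even)

/-- P1a: functional equation of the theta series, its Mellin transform, functional equation of `Λ`. -/
def S_FE : Prop := ∀ (q : ℕ) [NeZero q], q.Prime → ∀ χ : DirichletCharacter ℂ q, χ ≠ 1 → χ.Even →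
  (∃ ε : ℂ, ‖ε‖ = 1 ∧ (∀ x : ℝ, 0 < x →
      th χ (1 / (q * x)) = ε * (Real.sqrt q : ℂ) * (x : ℂ) * (starRingEnd ℂ) (th χ x)) ∧
    ∀ s : ℂ, DirichletCharacter.completedLFunction χ s =
      ε * (q : ℂ) ^ (1 / 2 - s) *
        (starRingEnd ℂ) (DirichletCharacter.completedLFunction χ (1 - (starRingEnd ℂ) s))) ∧
  (∀ σ : ℝ, MC (th χ) σ) ∧
  ∀ s : ℂ, mellin (th χ) s = DirichletCharacter.completedLFunction χ s / 2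

/-- P1b: the series with `log n`. -/
def S_TL : Prop := ∃ C : ℝ, 0 < C ∧ ∀ (q : ℕ) [NeZero q], q.Prime → ∀ χ : DirichletCharacter ℂ q, χ ≠ 1 → χ.Even →
  (∀ x : ℝ, 0 < x → x ≤ 1 → ‖tl χ x‖ ≤ C * q * x ^ (-(1 / 16) : ℝ)) ∧
  (∀ σ : ℝ, 1 / 16 < σ → MC (tl χ) σ) ∧
  ∀ s : ℂ, 1 / 16 < s.re →
    mellin (tl χ) s = -(Gammaℝ s * deriv (DirichletCharacter.LFunction χ) s / 2)

/-- P2: the dual range of the mollified mean square. -/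
def S_PB : Prop := ∃ C : ℝ, 0 < C ∧ ∀ (q : ℕ) [NeZero q], q.Prime → ∀ (y : ℕ) (β : ℕ → ℂ), 1 ≤ y → y ^ 100 ≤ q →
  (∀ h, ‖β h‖ ≤ h) → ∀ x : ℝ, 0 < x → (q : ℝ) * x ^ 2 ≤ 1 →
  ∑ χ ∈ ev q, ‖FF χ y β x‖ ^ 2 ≤
    C * Nat.totient q * (1 / (q * x ^ 2) * (∑ k ∈ Finset.Icc 1 y,
      ‖rr y β k‖ ^ 2 * min (q * k * x) ((q * k * x) ^ 3)) + 1 / q)

/-- P3: the logarithmic derivative of the Gamma factor. -/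
def S_DG : Prop := ∃ C : ℝ, 0 < C ∧ ∀ s : ℂ, 1 / 4 ≤ s.re → s.re ≤ 1 →
  ‖deriv Gammaℝ s‖ ≤ C * (1 + |s.im|) * ‖Gammaℝ s‖

/-- P4: a smooth cut-off on the multiplicative group and its effect on the Mellin transform. -/
def S_CUT : Prop := ∃ C : ℝ, 0 < C ∧ ∀ κ c D : ℝ, 0 < κ → κ ≤ 1 / 8 → 1 ≤ c → 0 ≤ D → ∃ ρ : ℝ → ℝ,
  ContinuousOn ρ (Ioi 0) ∧ (∀ x, 0 ≤ ρ x ∧ ρ x ≤ 1) ∧
  (∀ x : ℝ, 0 < x → x ≤ Real.exp (-(D + c)) → ρ x = 0) ∧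
  (∀ x : ℝ, Real.exp (-D) ≤ x → ρ x = 1) ∧
  ∀ H : ℝ → ℂ, MC H (1 / 2) → MC (fun x => (ρ x : ℂ) * H x) (1 / 2 - κ) ∧
    ∫ t : ℝ, ‖mellin (fun x => (ρ x : ℂ) * H x) (((1 / 2 - κ : ℝ) : ℂ) + (t : ℂ) * I)‖ / (1 + t ^ 2) ≤
      C * (Real.exp (κ * (D + c)) / (c * κ)) *
        ∫ u : ℝ, ‖mellin H (((1 / 2 : ℝ) : ℂ) + (u : ℂ) * I)‖ / (1 + u ^ 2)

/-- P5: Dirichlet polynomials over a window against the summatory function. -/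
def S_WIN : Prop := ∃ C : ℝ, 0 < C ∧ ∀ (f : ℕ → ℂ) (Y Y' : ℝ), 1 ≤ Y → Y ≤ Y' →
  ∫ u : ℝ, ‖∑ n ∈ Finset.Ioc ⌊Y⌋₊ ⌊Y'⌋₊, f n * (n : ℂ) ^ (-(((1 / 2 : ℝ) : ℂ) + (u : ℂ) * I))‖ ^ 2 /
      (1 + u ^ 2) ≤
    C * ((∫ v in Y..Y', ‖∑ n ∈ Finset.Icc 1 ⌊v⌋₊, f n‖ ^ 2 / v ^ 2) +
      ‖∑ n ∈ Finset.Icc 1 ⌊Y⌋₊, f n‖ ^ 2 / Y + ‖∑ n ∈ Finset.Icc 1 ⌊Y'⌋₊, f n‖ ^ 2 / Y')

/-- P6: the lower bound. -/
def S_LB : Prop := ∃ c : ℝ, 0 < c ∧ ∀ (κ : ℝ) (a : ℕ → ℂ), 0 ≤ κ → κ ≤ 1 / 4 → a 0 = 0 → a 1 = 1 →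
  (∀ n : ℕ, ‖a n‖ ≤ 2 * (n : ℝ) ^ 2) → MC (TS a) (1 / 2 + κ) →
  c ≤ ∫ t : ℝ, ‖mellin (TS a) (((1 / 2 + κ : ℝ) : ℂ) + (t : ℂ) * I)‖ / (1 + t ^ 2)

/-- P7 -/
def S_PHI : Prop := ∃ C : ℝ, 0 < C ∧ ∀ y : ℕ, 1 ≤ y →
  ∑ k ∈ Finset.Icc 1 y, (k : ℝ) / (Nat.totient k : ℝ) ^ 2 ≤ C * (1 + Real.log y)

end Pool.Agent.D0H44.MW
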