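import Pool.Agent.D0H44.MW.Stm

/-! Second block of statements of the project MW. -/

set_option autoImplicit false
open Complex Filter Topology MeasureTheory Set
open Pool.Agent.H24R2.DZ (cc rr bb MM)

namespace Pool.Agent.D0H44.MW

/-- `ψ(v, χ) = ∑_{n ≤ v} Λ(n) χ(n)` -/
noncomputable def ps {q : ℕ} (χ : DirichletCharacter ℂ q) (v : ℝ) : ℂ :=
  ∑ n ∈ Finset.Icc 1 ⌊v⌋₊, (ArithmeticFunction.vonMangoldt n : ℂ) * χ (n : ZMod q)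

/-- `J(x) = ∑_h b_h χ(h) θ^{log}(h x) - ∑_{d ≤ Y} Λ(d) χ(d) F(d x)`, `F = FF χ y b`. -/
noncomputable def JJ {q : ℕ} (χ : DirichletCharacter ℂ q) (y : ℕ) (b : ℕ → ℂ) (Y x : ℝ) : ℂ :=
  ∑ h ∈ Finset.Icc 1 y, b h * χ (h : ZMod q) * tl χ (h * x) -
    ∑ d ∈ Finset.Icc 1 ⌊Y⌋₊, (ArithmeticFunction.vonMangoldt d : ℂ) * χ (d : ZMod q) * FF χ y b (d * x)

/-- `H(x) = ∑_{Y < d ≤ Y'} Λ(d) χ(d) F(d x)` -/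
noncomputable def HH {q : ℕ} (χ : DirichletCharacter ℂ q) (y : ℕ) (b : ℕ → ℂ) (Y Y' x : ℝ) : ℂ :=
  ∑ d ∈ Finset.Ioc ⌊Y⌋₊ ⌊Y'⌋₊,
    (ArithmeticFunction.vonMangoldt d : ℂ) * χ (d : ZMod q) * FF χ y b (d * x)

/-- P9: the remainder after the cut-off is negligible. -/
def S_R : Prop := ∀ B ε : ℝ, 2 ≤ B → 0 < ε → ε ≤ 1 → ∃ K : ℝ, 0 < K ∧ ∃ q₀ : ℕ, ∀ (q : ℕ) [NeZero q],
  q.Prime → q₀ ≤ q → ∀ χ ∈ ev q, ∀ (y : ℕ) (b : ℕ → ℂ) (Y Y' κ : ℝ) (ρ : ℝ → ℝ),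
  1 ≤ y → (y : ℝ) ≤ (q : ℝ) ^ (ε / 8) → y ^ 100 ≤ q → (∀ h, ‖b h‖ ≤ 1) → (∀ h, y < h → b h = 0) →
  (q : ℝ) ^ 2 ≤ Y → Y * (q : ℝ) ^ (1 + ε) ≤ Y' → Y' ≤ (q : ℝ) ^ B → 0 < κ → κ ≤ 1 / 32 →
  ContinuousOn ρ (Ioi 0) → (∀ x, 0 ≤ ρ x ∧ ρ x ≤ 1) →
  (∀ x : ℝ, 0 < x → x ≤ Real.exp (-(Real.log Y + (1 + 3 * ε / 8) * Real.log q)) → ρ x = 0) →
  (∀ x : ℝ, Real.exp (-(Real.log Y + (1 + ε / 4) * Real.log q)) ≤ x → ρ x = 1) →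
  ∫ x in Ioi (0 : ℝ), ‖JJ χ y b Y x - (ρ x : ℂ) * HH χ y b Y Y' x‖ ^ 2 * x ^ (2 * (1 / 2 - κ) - 1) ≤ K

/-- the base theorem -/
def S_BASE : Prop := ∀ B ε δ : ℝ, 2 ≤ B → 0 < ε → ε ≤ 1 → 0 < δ → ∃ c : ℝ, 0 < c ∧ ∃ q₀ : ℕ,
  ∀ (q : ℕ) [NeZero q], q.Prime → q₀ ≤ q → ∀ Y Y' : ℝ, (q : ℝ) ^ 2 ≤ Y → Y * (q : ℝ) ^ (1 + ε) ≤ Y' →
  Y' ≤ (q : ℝ) ^ B → ∀ S : Finset (DirichletCharacter ℂ q), S ⊆ ev q →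
  δ * Nat.totient q ≤ S.card →
  c * Nat.totient q * Real.log q ^ 2 ≤
    ∑ χ ∈ S, ((∫ v in Y..Y', ‖ps χ v‖ ^ 2 / v ^ 2) + ‖ps χ Y‖ ^ 2 / Y + ‖ps χ Y'‖ ^ 2 / Y')

/-- P8: from the base theorem: full windows, `x ∈ [q², q^B]` (pigeonhole for the end points). -/
def S_V : Prop := ∀ B ε δ : ℝ, 2 ≤ B → 0 < ε → 0 < δ → ∃ c : ℝ, 0 < c ∧ ∃ q₀ : ℕ,
  ∀ (q : ℕ) [NeZero q], q.Prime → q₀ ≤ q → ∀ x : ℝ, (q : ℝ) ^ 2 ≤ x → x ≤ (q : ℝ) ^ B →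
  ∀ S : Finset (DirichletCharacter ℂ q), S ⊆ ev q → δ * Nat.totient q ≤ S.card →
  c * Nat.totient q * Real.log q ^ 2 ≤
    ∑ χ ∈ S, ∫ v in x..(x * (q : ℝ) ^ (1 + ε)), ‖ps χ v‖ ^ 2 / v ^ 2

/-- `ψ(x; q, a)` -/
noncomputable def psa (x : ℝ) (q a : ℕ) : ℝ :=
  ∑ n ∈ (Finset.Icc 1 ⌊x⌋₊).filter (fun n => n ≡ a [MOD q]), ArithmeticFunction.vonMangoldt n

/-- the final theorem 1: mean square over the reduced residue classes -/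
def T_ONE : Prop := ∀ B ε : ℝ, 2 ≤ B → 0 < ε → ∃ c : ℝ, 0 < c ∧ ∃ q₀ : ℕ, ∀ q : ℕ, q.Prime → q₀ ≤ q →
  ∀ x : ℝ, (q : ℝ) ^ 2 ≤ x → x ≤ (q : ℝ) ^ B →
    c * Real.log q ^ 2 ≤ ∫ u in x..(x * (q : ℝ) ^ (1 + ε)),
      (∑ a ∈ (Finset.range q).filter (fun a => a.Coprime q), (psa u q a - u / Nat.totient q) ^ 2) / u ^ 2

/-- the final theorem 2: individual characters -/
def T_TWO : Prop := ∀ B ε δ : ℝ, 2 ≤ B → 0 < ε → 0 < δ → ∃ c : ℝ, 0 < c ∧ ∃ q₀ : ℕ,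
  ∀ (q : ℕ) [NeZero q], q.Prime → q₀ ≤ q → ∀ x : ℝ, (q : ℝ) ^ 2 ≤ x → x ≤ (q : ℝ) ^ B →
  ∃ S : Finset (DirichletCharacter ℂ q), (S.card : ℝ) ≤ δ * Nat.totient q ∧
    ∀ χ : DirichletCharacter ℂ q, χ.Even → χ ∉ S →
      c * Real.log q ^ 2 ≤ ∫ v in x..(x * (q : ℝ) ^ (1 + ε)), ‖ps χ v‖ ^ 2 / v ^ 2

end Pool.Agent.D0H44.MW
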