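import Pool.Agent.D0H44.MW.Ms
import Pool.Agent.D0H44.MW.Stm2

/-! Identities for the base theorem. -/

set_option autoImplicit false
open Complex Filter Topology MeasureTheory Set Asymptotics
open Pool.Agent.H24R2.DZ (cc rr bb MM mo ph)

namespace Pool.Agent.D0H44.MW

/-- `P(s) = ∑_{d ∈ D} Λ(d) χ(d) d^{-s}` -/
noncomputable def PP {q : ℕ} (χ : DirichletCharacter ℂ q) (D : Finset ℕ) (s : ℂ) : ℂ :=
  ∑ d ∈ D, (ArithmeticFunction.vonMangoldt d : ℂ) * χ (d : ZMod q) * (d : ℂ) ^ (-s)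

/-- Lemma A -/
theorem fe_norm (q : ℕ) [NeZero q] (hq : q.Prime) (χ : DirichletCharacter ℂ q) (hχ : χ ∈ ev q) (κ t : ℝ) :
    ‖DirichletCharacter.completedLFunction χ (((1 / 2 - κ : ℝ) : ℂ) + (t : ℂ) * I)‖ =
      (q : ℝ) ^ κ * ‖DirichletCharacter.completedLFunction χ (((1 / 2 + κ : ℝ) : ℂ) + (t : ℂ) * I)‖ ∧
    ‖DirichletCharacter.completedLFunction χ (((1 / 2 - κ : ℝ) : ℂ) + (t : ℂ) * I) +
      deriv (DirichletCharacter.completedLFunction χ) (((1 / 2 - κ : ℝ) : ℂ) + (t : ℂ) * I) / (Real.log q : ℂ)‖ =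
      (q : ℝ) ^ κ *
        ‖deriv (DirichletCharacter.completedLFunction χ) (((1 / 2 + κ : ℝ) : ℂ) + (t : ℂ) * I)‖ / Real.log q := by
  have hq0 : (0 : ℝ) < q := by exact_mod_cast NeZero.pos q
  have hqc : (q : ℂ) ≠ 0 := by exact_mod_cast hq0.ne'
  have hL : 0 < Real.log q := Real.log_pos (by exact_mod_cast hq.one_lt)
  have hLc : (Real.log q : ℂ) ≠ 0 := by exact_mod_cast hL.ne'
  obtain ⟨⟨ε, he, _, hfe⟩, _, _⟩ := fe q hq χ (ev_mem hχ).1 (ev_mem hχ).2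
  obtain ⟨Λ, hΛ⟩ : ∃ Λ : ℂ → ℂ, Λ = DirichletCharacter.completedLFunction χ := ⟨_, rfl⟩
  rw [← hΛ] at hfe ⊢
  have hd : Differentiable ℂ Λ := hΛ ▸ DirichletCharacter.differentiable_completedLFunction (ev_mem hχ).1
  obtain ⟨s, hs⟩ : ∃ s : ℂ, s = ((1 / 2 - κ : ℝ) : ℂ) + (t : ℂ) * I := ⟨_, rfl⟩
  have hs' : 1 - (starRingEnd ℂ) s = ((1 / 2 + κ : ℝ) : ℂ) + (t : ℂ) * I := by
    rw [hs, map_add, map_mul, Complex.conj_ofReal, Complex.conj_ofReal, Complex.conj_I]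
    push_cast; ring
  rw [← hs, ← hs']
  have hre : (1 / 2 - s).re = κ := by
    rw [hs]; simp
  have hqn : ‖(q : ℂ) ^ (1 / 2 - s)‖ = (q : ℝ) ^ κ := by
    rw [Complex.norm_natCast_cpow_of_pos (NeZero.pos q), hre]
  have hval := hfe s
  refine ⟨?_, ?_⟩
  · rw [hval, norm_mul, norm_mul, he, one_mul, hqn, RCLike.norm_conj]
  · -- derivative of the functional equation
    have h1 : HasDerivAt (fun z : ℂ => Λ (1 - z)) (-(deriv Λ (1 - (starRingEnd ℂ) s))) ((starRingEnd ℂ) s) := by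
      have h2 : HasDerivAt (fun z : ℂ => 1 - z) (-1) ((starRingEnd ℂ) s) := by
        simpa using (hasDerivAt_id ((starRingEnd ℂ) s)).const_sub 1
      have h3 := (hd (1 - (starRingEnd ℂ) s)).hasDerivAt.comp ((starRingEnd ℂ) s) h2
      refine h3.congr_deriv (by ring)
    have h2 := h1.conj_conj
    rw [Complex.conj_conj] at h2
    have h3 : HasDerivAt (fun z : ℂ => (q : ℂ) ^ (1 / 2 - z)) ((q : ℂ) ^ (1 / 2 - s) * Complex.log q * (-1)) s := by
      have h4 : HasDerivAt (fun z : ℂ => 1 / 2 - z) (-1) s := by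
        simpa using (hasDerivAt_id s).const_sub (1 / 2 : ℂ)
      exact h4.const_cpow (Or.inl hqc)
    have h4 : HasDerivAt Λ (ε * ((q : ℂ) ^ (1 / 2 - s) * Complex.log q * (-1)) *
        (starRingEnd ℂ) (Λ (1 - (starRingEnd ℂ) s)) + ε * (q : ℂ) ^ (1 / 2 - s) *
        (starRingEnd ℂ) (-(deriv Λ (1 - (starRingEnd ℂ) s)))) s := by
      have h5 := (h3.const_mul ε).mul h2
      refine (h5.congr_of_eventuallyEq (Eventually.of_forall fun z => ?_)).congr_deriv ?_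
      · rw [hfe z]; rfl
      · simp only [Function.comp]
    rw [h4.deriv]
    have h5 : Complex.log (q : ℂ) = (Real.log q : ℂ) := (Complex.natCast_log).symm
    rw [h5]
    have h6 : Λ s + (ε * ((q : ℂ) ^ (1 / 2 - s) * (Real.log q : ℂ) * (-1)) *
        (starRingEnd ℂ) (Λ (1 - (starRingEnd ℂ) s)) + ε * (q : ℂ) ^ (1 / 2 - s) *
        (starRingEnd ℂ) (-(deriv Λ (1 - (starRingEnd ℂ) s)))) / (Real.log q : ℂ) =
        -(ε * (q : ℂ) ^ (1 / 2 - s) * (starRingEnd ℂ) (deriv Λ (1 - (starRingEnd ℂ) s)) / (Real.log q : ℂ)) := by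
      rw [hval, map_neg]
      field_simp
      ring
    rw [h6, norm_neg, norm_div, norm_mul, norm_mul, he, one_mul, hqn, RCLike.norm_conj, Complex.norm_real,
      Real.norm_eq_abs, abs_of_pos hL]

/-- Lemma C -/
theorem gamma_split (q : ℕ) [NeZero q] (hq : q.Prime) (χ : DirichletCharacter ℂ q) (hχ : χ ∈ ev q) (s : ℂ)
    (hs : 0 < s.re) :
    Gammaℝ s * deriv (DirichletCharacter.LFunction χ) s =
      deriv (DirichletCharacter.completedLFunction χ) s -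
        deriv Gammaℝ s / Gammaℝ s * DirichletCharacter.completedLFunction χ s := by
  have hG : Gammaℝ s ≠ 0 := Gammaℝ_ne_zero_of_re_pos hs
  have hGd : DifferentiableAt ℂ Gammaℝ s := by
    have h1 : Gammaℝ = fun z : ℂ => (Real.pi : ℂ) ^ (-z / 2) * Complex.Gamma (z / 2) := by
      funext z; rw [Gammaℝ_def]
    rw [h1]
    refine DifferentiableAt.mul ?_ ?_
    · exact DifferentiableAt.const_cpow (by fun_prop) (Or.inl (by exact_mod_cast Real.pi_ne_zero))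
    · refine (Complex.differentiableAt_Gamma (s / 2) ?_).comp s (by fun_prop)
      intro m hm
      have : (s / 2).re = -(m : ℝ) := by rw [hm]; simp
      rw [show (s / 2).re = s.re / 2 by simp] at this
      have h2 : (0 : ℝ) ≤ m := Nat.cast_nonneg m
      linarith
  have hd := (DirichletCharacter.differentiable_completedLFunction (ev_mem hχ).1) s
  have h1 : DirichletCharacter.LFunction χ = fun z => DirichletCharacter.completedLFunction χ z / Gammaℝ z := by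
    funext z
    rw [DirichletCharacter.LFunction_eq_completed_div_gammaFactor χ z (Or.inr hq.one_lt.ne'),
      (ev_mem hχ).2.gammaFactor_def]
  have h2 := (hd.hasDerivAt.div hGd.hasDerivAt hG)
  have h3 : deriv (DirichletCharacter.LFunction χ) s =
      (deriv (DirichletCharacter.completedLFunction χ) s * Gammaℝ s -
        DirichletCharacter.completedLFunction χ s * deriv Gammaℝ s) / Gammaℝ s ^ 2 := by
    rw [h1]
    exact h2.deriv
  rw [h3]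
  field_simp

/-- sums of scaled copies -/
theorem comb_MC {F : ℝ → ℂ} {σ : ℝ} (hF : MC F σ) (D : Finset ℕ) (hD : ∀ d ∈ D, 1 ≤ d) (w : ℕ → ℂ) :
    MC (fun x => ∑ d ∈ D, w d * F (d * x)) σ := by
  refine MC.sum _ (fun d (x : ℝ) => w d * F (d * x)) fun d hd => ?_
  have hd0 : (0 : ℝ) < d := by exact_mod_cast hD d hd
  exact (hF.scale d hd0).smul _

theorem comb_mellin {F : ℝ → ℂ} {s : ℂ} (hF : MC F s.re) (D : Finset ℕ) (hD : ∀ d ∈ D, 1 ≤ d) (w : ℕ → ℂ) :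
    mellin (fun x => ∑ d ∈ D, w d * F (d * x)) s = (∑ d ∈ D, w d * (d : ℂ) ^ (-s)) * mellin F s := by
  rw [mellin_sum' D (fun d (x : ℝ) => w d * F (d * x)) (fun d hd => ?_), Finset.sum_mul]
  · refine Finset.sum_congr rfl fun d hd => ?_
    have hd0 : (0 : ℝ) < d := by exact_mod_cast hD d hd
    rw [mellin_smul', mellin_scale' F s d hd0]
    push_cast
    ring
  · have hd0 : (0 : ℝ) < d := by exact_mod_cast hD d hd
    exact (hF.scale d hd0).smul _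

theorem one_le_of_Icc {a b d : ℕ} (ha : 1 ≤ a) (h : d ∈ Finset.Icc a b) : 1 ≤ d :=
  ha.trans (Finset.mem_Icc.1 h).1

theorem one_le_of_Ioc {a b d : ℕ} (h : d ∈ Finset.Ioc a b) : 1 ≤ d := by
  have := (Finset.mem_Ioc.1 h).1
  omega

theorem HH_MC {q : ℕ} [NeZero q] (hq : q.Prime) (χ : DirichletCharacter ℂ q) (hχ : χ ∈ ev q)
    (y : ℕ) (b : ℕ → ℂ) (Y Y' σ : ℝ) : MC (HH χ y b Y Y') σ :=
  comb_MC (FF_MC hq χ (ev_mem hχ).1 (ev_mem hχ).2 y b σ) _ (fun _ h => one_le_of_Ioc h)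
    (fun d => (ArithmeticFunction.vonMangoldt d : ℂ) * χ (d : ZMod q))

theorem HH_mellin {q : ℕ} [NeZero q] (hq : q.Prime) (χ : DirichletCharacter ℂ q) (hχ : χ ∈ ev q)
    (y : ℕ) (b : ℕ → ℂ) (Y Y' : ℝ) (s : ℂ) : mellin (HH χ y b Y Y') s =
      PP χ (Finset.Ioc ⌊Y⌋₊ ⌊Y'⌋₊) s * mellin (FF χ y b) s :=
  comb_mellin (FF_MC hq χ (ev_mem hχ).1 (ev_mem hχ).2 y b s.re) _ (fun _ h => one_le_of_Ioc h)
    (fun d => (ArithmeticFunction.vonMangoldt d : ℂ) * χ (d : ZMod q))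

/-- the first part of `JJ` -/
theorem tl_comb_MC {q : ℕ} [NeZero q] (hTL : S_TL) (hq : q.Prime) (χ : DirichletCharacter ℂ q) (hχ : χ ∈ ev q)
    (y : ℕ) (b : ℕ → ℂ) (σ : ℝ) (hσ : 1 / 16 < σ) :
    MC (fun x => ∑ h ∈ Finset.Icc 1 y, b h * χ (h : ZMod q) * tl χ (h * x)) σ := by
  obtain ⟨C, hC, h⟩ := hTL
  exact comb_MC ((h q hq χ (ev_mem hχ).1 (ev_mem hχ).2).2.1 σ hσ) _ (fun _ h => one_le_of_Icc le_rfl h)
    (fun h => b h * χ (h : ZMod q))

theorem JJ_MC {q : ℕ} [NeZero q] (hTL : S_TL) (hq : q.Prime) (χ : DirichletCharacter ℂ q) (hχ : χ ∈ ev q)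
    (y : ℕ) (b : ℕ → ℂ) (Y σ : ℝ) (hσ : 1 / 16 < σ) : MC (JJ χ y b Y) σ :=
  (tl_comb_MC hTL hq χ hχ y b σ hσ).sub
    (comb_MC (FF_MC hq χ (ev_mem hχ).1 (ev_mem hχ).2 y b σ) _ (fun _ h => one_le_of_Icc le_rfl h)
    (fun d => (ArithmeticFunction.vonMangoldt d : ℂ) * χ (d : ZMod q)))

theorem JJ_mellin {q : ℕ} [NeZero q] (hTL : S_TL) (hq : q.Prime) (χ : DirichletCharacter ℂ q) (hχ : χ ∈ ev q)
    (y : ℕ) (b : ℕ → ℂ) (Y : ℝ) (s : ℂ) (hs : 1 / 16 < s.re) : mellin (JJ χ y b Y) s =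
      -((Gammaℝ s * deriv (DirichletCharacter.LFunction χ) s +
        DirichletCharacter.completedLFunction χ s * PP χ (Finset.Icc 1 ⌊Y⌋₊) s) / 2) *
        MM y (fun h => b h * χ (h : ZMod q)) s := by
  have h1 := tl_comb_MC hTL hq χ hχ y b s.re hs
  have h2 := comb_MC (FF_MC hq χ (ev_mem hχ).1 (ev_mem hχ).2 y b s.re) (Finset.Icc 1 ⌊Y⌋₊)
    (fun _ h => one_le_of_Icc le_rfl h) (fun d => (ArithmeticFunction.vonMangoldt d : ℂ) * χ (d : ZMod q))
  have h3 := mellin_sub' h1 h2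
  have e0 : mellin (JJ χ y b Y) s = mellin (fun x => (∑ h ∈ Finset.Icc 1 y, b h * χ (h : ZMod q) * tl χ (h * x)) -
    ∑ d ∈ Finset.Icc 1 ⌊Y⌋₊, (ArithmeticFunction.vonMangoldt d : ℂ) * χ (d : ZMod q) * FF χ y b (d * x)) s := rfl
  obtain ⟨C, hC, h⟩ := hTL
  obtain ⟨_, h5, h6⟩ := h q hq χ (ev_mem hχ).1 (ev_mem hχ).2
  rw [e0, h3, comb_mellin (h5 s.re hs) _ (fun _ h => one_le_of_Icc le_rfl h) (fun h => b h * χ (h : ZMod q)),
    comb_mellin (FF_MC hq χ (ev_mem hχ).1 (ev_mem hχ).2 y b s.re) _ (fun _ h => one_le_of_Icc le_rfl h)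
      (fun d => (ArithmeticFunction.vonMangoldt d : ℂ) * χ (d : ZMod q)), h6 s hs,
    FF_mellin hq χ (ev_mem hχ).1 (ev_mem hχ).2]
  unfold PP MM
  ring

/-- shift of the mollifier -/
theorem MM_shift {q : ℕ} (χ : DirichletCharacter ℂ q) (y : ℕ) (θ ℓ : ℝ) (β s : ℂ) :
    MM y (fun h => bb θ ℓ β h * χ (h : ZMod q)) s = MM y (fun h => bb θ ℓ 0 h * χ (h : ZMod q)) (s + β) := by
  unfold MM
  refine Finset.sum_congr rfl fun h hh => ?_
  have hh0 : (h : ℂ) ≠ 0 := by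
    have := (Finset.mem_Icc.1 hh).1
    exact_mod_cast (by omega : h ≠ 0)
  unfold bb
  have e1 : (h : ℂ) ^ (-(s + β)) = (h : ℂ) ^ (-β) * (h : ℂ) ^ (-s) := by
    rw [← Complex.cpow_add _ _ hh0]; congr 1; ring
  rw [e1]
  simp only [neg_zero, Complex.cpow_zero]
  ring

end Pool.Agent.D0H44.MW
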