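import Pool.Agent.D0H44.MW.Ba

/-! Lower bound and the pointwise inequality. -/

set_option autoImplicit false
open Complex Filter Topology MeasureTheory Set Asymptotics
open Pool.Agent.H24R2.DZ (cc rr bb MM mo ph)

namespace Pool.Agent.D0H44.MW

theorem MC.congr {F G : ℝ → ℂ} {σ : ℝ} (hF : MC F σ) (h : ∀ x, 0 < x → G x = F x) : MC G σ := by
  obtain ⟨C, m, hm, h1, h2⟩ := hF.bd
  refine ⟨hF.cont.congr fun x hx => h x hx, C, m, hm, fun x hx => ?_, fun x hx => ?_⟩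
  · rw [h x hx]; exact h1 x hx
  · rw [h x hx]; exact h2 x hx

theorem mellin_congr {F G : ℝ → ℂ} (h : ∀ x, 0 < x → G x = F x) (s : ℂ) : mellin G s = mellin F s := by
  unfold mellin
  refine setIntegral_congr_fun measurableSet_Ioi fun x hx => ?_
  rw [h x hx]

theorem mo_one (θ ℓ : ℝ) : mo θ ℓ 1 = 1 := by
  unfold mo ph
  simp only [Nat.cast_one, Real.log_one, zero_div, mul_zero, sub_zero]
  rw [Real.smoothTransition.one_of_one_le (by norm_num)]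
  simp

theorem cc_le {b : ℕ → ℂ} (hb : ∀ h, ‖b h‖ ≤ 1) (n : ℕ) : ‖cc b n‖ ≤ n := by
  unfold cc
  refine (norm_sum_le _ _).trans ?_
  refine (Finset.sum_le_card_nsmul _ _ 1 (fun d _ => hb d)).trans ?_
  rw [nsmul_eq_mul, mul_one]
  exact_mod_cast Nat.card_divisors_le_self n

theorem bb_one (θ ℓ : ℝ) (β : ℂ) (hβ : 0 ≤ β.re) (h : ℕ) : ‖bb θ ℓ β h‖ ≤ 1 := by
  unfold bb
  rcases Nat.eq_zero_or_pos h with rfl | hh
  · have : mo θ ℓ 0 = 0 := by unfold mo; simp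
    rw [this]; simp
  · have hh1 : (1 : ℝ) ≤ h := by exact_mod_cast hh
    rw [norm_mul, Complex.norm_real, Complex.norm_natCast_cpow_of_pos hh, Real.norm_eq_abs]
    have h1 := mo_abs θ ℓ h
    have h2 : (h : ℝ) ^ (-β).re ≤ 1 := by
      apply Real.rpow_le_one_of_one_le_of_nonpos hh1
      rw [Complex.neg_re]; linarith
    have h3 : 0 ≤ (h : ℝ) ^ (-β).re := by positivity
    nlinarith [abs_nonneg (mo θ ℓ h)]

/-- the lower bound for one character -/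
theorem lbq (hLB : S_LB) : ∃ c : ℝ, 0 < c ∧ ∀ (q : ℕ) [NeZero q], q.Prime → ∀ χ ∈ ev q, ∀ ℓ Y : ℝ,
    4 ≤ ℓ → 1 ≤ Y → 1 ≤ Real.log q →
    c ≤ ∫ t : ℝ, ‖mellin (FF χ (ym ℓ) (bb (1 / 200) ℓ 0)) (((1 / 2 + 1 / ℓ : ℝ) : ℂ) + (t : ℂ) * I) *
      (1 - PP χ (Finset.Icc 1 ⌊Y⌋₊) (((1 / 2 - 1 / ℓ : ℝ) : ℂ) + (t : ℂ) * I) / (Real.log q : ℂ))‖ / (1 + t ^ 2) := by
  obtain ⟨c, hc, h⟩ := hLB
  refine ⟨c, hc, ?_⟩
  intro q _ hq χ hχ ℓ Y hℓ hY hL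
  have hℓ0 : 0 < ℓ := by linarith
  obtain ⟨L, hLdef⟩ : ∃ L : ℝ, L = Real.log q := ⟨_, rfl⟩
  rw [← hLdef] at hL ⊢
  have hL0 : 0 < L := by linarith
  have hLc : (L : ℂ) ≠ 0 := by exact_mod_cast hL0.ne'
  obtain ⟨b, hb⟩ : ∃ b : ℕ → ℂ, b = bb (1 / 200) ℓ 0 := ⟨_, rfl⟩
  have hb1 : ∀ h, ‖b h‖ ≤ 1 := by rw [hb]; exact fun h => bb_one _ _ _ (by simp) h
  have hbs : ∀ h, ym ℓ < h → b h = 0 := by
    intro h hh
    rw [hb]; unfold bb
    rw [mo_zero_of (1 / 200) ℓ (by positivity) (ym ℓ) h (ym_ge ℓ) hh]; simp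
  rw [← hb]
  obtain ⟨D, hD⟩ : ∃ D : Finset ℕ, D = Finset.Icc 1 ⌊Y⌋₊ := ⟨_, rfl⟩
  have hD1 : ∀ d ∈ D, 1 ≤ d := fun d hd => by rw [hD] at hd; exact (Finset.mem_Icc.1 hd).1
  have h1D : 1 ∈ D := by
    rw [hD, Finset.mem_Icc]
    exact ⟨le_rfl, Nat.one_le_floor_iff _ |>.2 hY⟩
  rw [← hD]
  -- the weights
  obtain ⟨w, hw⟩ : ∃ w : ℕ → ℂ, w = fun d : ℕ => (if d = 1 then (1 : ℂ) else 0) -
    (ArithmeticFunction.vonMangoldt d : ℂ) * χ (d : ZMod q) * (d : ℂ) ^ ((2 / ℓ : ℝ) : ℂ) / (L : ℂ) := ⟨_, rfl⟩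
  have hccPG : PG (fun n : ℕ => χ (n : ZMod q) * cc b n) 1 1 := by
    refine ⟨by simp [cc], fun n => ?_⟩
    rw [norm_mul, one_mul, pow_one]
    have h1 := χ.norm_le_one (n : ZMod q)
    have h2 := cc_le hb1 n
    calc ‖χ (n : ZMod q)‖ * ‖cc b n‖ ≤ 1 * n := by gcongr
      _ = n := one_mul _
  obtain ⟨a, ha⟩ : ∃ a : ℕ → ℂ, a = fun n => ∑ d ∈ D.filter (fun d => d ∣ n),
    w d * (χ ((n / d : ℕ) : ZMod q) * cc b (n / d)) := ⟨_, rfl⟩
  have hTS : ∀ x, 0 < x → TS a x = ∑ d ∈ D, w d * FF χ (ym ℓ) b (d * x) := by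
    intro x hx
    have h2 := TS_comb hccPG zero_le_one D hD1 w x hx
    rw [ha, ← h2]
    refine Finset.sum_congr rfl fun d hd => ?_
    have hd0 : (0 : ℝ) < d := by exact_mod_cast hD1 d hd
    rw [FF_TS hq.one_lt χ (ym ℓ) b hbs (d * x) (by positivity)]
  have hFM : ∀ σ, MC (FF χ (ym ℓ) b) σ := fun σ => FF_MC hq χ (ev_mem hχ).1 (ev_mem hχ).2 _ _ σ
  have hMC : MC (TS a) (1 / 2 + 1 / ℓ) := (comb_MC (hFM _) D hD1 w).congr hTS
  have hmel : ∀ t : ℝ, mellin (TS a) (((1 / 2 + 1 / ℓ : ℝ) : ℂ) + (t : ℂ) * I) =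
      mellin (FF χ (ym ℓ) b) (((1 / 2 + 1 / ℓ : ℝ) : ℂ) + (t : ℂ) * I) *
      (1 - PP χ D (((1 / 2 - 1 / ℓ : ℝ) : ℂ) + (t : ℂ) * I) / (L : ℂ)) := by
    intro t
    rw [mellin_congr hTS, comb_mellin (hFM _) D hD1 w]
    rw [mul_comm]
    congr 1
    unfold PP
    rw [hw, Finset.sum_div]
    simp only [sub_mul]
    rw [Finset.sum_sub_distrib]
    congr 1
    · rw [Finset.sum_eq_single 1]
      · simp
      · intro d _ hd; rw [if_neg hd, zero_mul]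
      · intro h; exact absurd h1D h
    · refine Finset.sum_congr rfl fun d hd => ?_
      have hd0 : (d : ℂ) ≠ 0 := by
        have := hD1 d hd
        exact_mod_cast (by omega : d ≠ 0)
      have e1 : (d : ℂ) ^ (-(((1 / 2 - 1 / ℓ : ℝ) : ℂ) + (t : ℂ) * I)) =
          (d : ℂ) ^ ((2 / ℓ : ℝ) : ℂ) * (d : ℂ) ^ (-(((1 / 2 + 1 / ℓ : ℝ) : ℂ) + (t : ℂ) * I)) := by
        rw [← Complex.cpow_add _ _ hd0]
        congr 1
        push_cast; ring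
      rw [e1]
      ring
  have ha0 : a 0 = 0 := by
    rw [ha]
    simp only [Nat.zero_div]
    refine Finset.sum_eq_zero fun d _ => ?_
    simp [cc]
  have ha1 : a 1 = 1 := by
    rw [ha]
    have e1 : D.filter (fun d => d ∣ 1) = {1} := by
      ext d
      simp only [Finset.mem_filter, Nat.dvd_one, Finset.mem_singleton]
      constructor
      · exact fun h => h.2
      · rintro rfl; exact ⟨h1D, rfl⟩
    simp only
    rw [e1, Finset.sum_singleton, hw]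
    have e2 : cc b 1 = 1 := by
      unfold cc
      rw [Nat.divisors_one, Finset.sum_singleton, hb]
      unfold bb
      rw [mo_one]; simp
    simp [e2]
  have hna : ∀ n : ℕ, ‖a n‖ ≤ 2 * (n : ℝ) ^ 2 := by
    intro n
    rcases Nat.eq_zero_or_pos n with rfl | hn
    · rw [ha0]; simp
    · have hn1 : (1 : ℝ) ≤ n := by exact_mod_cast hn
      rw [ha]
      simp only
      have hterm : ∀ d ∈ D.filter (fun d => d ∣ n), ‖w d * (χ ((n / d : ℕ) : ZMod q) * cc b (n / d))‖ ≤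
          (if d = 1 then (n : ℝ) else 0) + ArithmeticFunction.vonMangoldt d * n := by
        intro d hd
        obtain ⟨hdD, hdn⟩ := Finset.mem_filter.1 hd
        have hd1 : (1 : ℝ) ≤ d := by exact_mod_cast hD1 d hdD
        have hd0 : (0 : ℝ) < d := by linarith
        have hΛ : 0 ≤ ArithmeticFunction.vonMangoldt d := ArithmeticFunction.vonMangoldt_nonneg
        have e1 : ‖χ ((n / d : ℕ) : ZMod q) * cc b (n / d)‖ ≤ (n : ℝ) / d := by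
          rw [norm_mul]
          have h1 := χ.norm_le_one ((n / d : ℕ) : ZMod q)
          have h2 := cc_le hb1 (n / d)
          have h3 : (((n / d : ℕ)) : ℝ) = (n : ℝ) / d := Nat.cast_div hdn hd0.ne'
          rw [h3] at h2
          calc ‖χ ((n / d : ℕ) : ZMod q)‖ * ‖cc b (n / d)‖ ≤ 1 * ((n : ℝ) / d) := by gcongr
            _ = _ := one_mul _
        have e2 : ‖w d‖ ≤ (if d = 1 then (1 : ℝ) else 0) + ArithmeticFunction.vonMangoldt d * d := by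
          rw [hw]
          simp only
          refine (norm_sub_le _ _).trans ?_
          refine add_le_add ?_ ?_
          · split_ifs <;> simp
          · rw [norm_div, norm_mul, norm_mul, Complex.norm_real, Complex.norm_real,
              Complex.norm_natCast_cpow_of_pos (hD1 d hdD), Complex.ofReal_re, Real.norm_eq_abs, Real.norm_eq_abs,
              abs_of_nonneg hΛ, abs_of_pos hL0]
            have h1 := χ.norm_le_one (d : ZMod q)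
            have h2 : (d : ℝ) ^ (2 / ℓ) ≤ d := by
              conv_rhs => rw [← Real.rpow_one (d : ℝ)]
              apply Real.rpow_le_rpow_of_exponent_le hd1
              rw [div_le_one hℓ0]; linarith
            have h3 : ArithmeticFunction.vonMangoldt d * ‖χ (d : ZMod q)‖ * (d : ℝ) ^ (2 / ℓ) ≤
                ArithmeticFunction.vonMangoldt d * 1 * d := by gcongr
            rw [mul_one] at h3
            rw [div_le_iff₀ hL0]
            have h4 : 0 ≤ ArithmeticFunction.vonMangoldt d * d := by positivity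
            nlinarith
        rw [norm_mul]
        calc ‖w d‖ * ‖χ ((n / d : ℕ) : ZMod q) * cc b (n / d)‖ ≤
            ((if d = 1 then (1 : ℝ) else 0) + ArithmeticFunction.vonMangoldt d * d) * ((n : ℝ) / d) := by
              gcongr
          _ = (if d = 1 then (n : ℝ) else 0) + ArithmeticFunction.vonMangoldt d * n := by
              split_ifs with hd'
              · subst hd'; simp
              · field_simp; ring
      refine (norm_sum_le _ _).trans ((Finset.sum_le_sum hterm).trans ?_)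
      rw [Finset.sum_add_distrib]
      have e3 : (∑ d ∈ D.filter (fun d => d ∣ n), if d = 1 then (n : ℝ) else 0) ≤ n := by
        rw [Finset.sum_ite_eq']
        split_ifs <;> simp
      have e4 : ∑ d ∈ D.filter (fun d => d ∣ n), ArithmeticFunction.vonMangoldt d * (n : ℝ) ≤ n * n := by
        rw [← Finset.sum_mul]
        refine mul_le_mul_of_nonneg_right ?_ (by positivity)
        have e5 : ∑ d ∈ D.filter (fun d => d ∣ n), ArithmeticFunction.vonMangoldt d ≤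
            ∑ d ∈ n.divisors, ArithmeticFunction.vonMangoldt d := by
          refine Finset.sum_le_sum_of_subset_of_nonneg ?_ (fun _ _ _ => ArithmeticFunction.vonMangoldt_nonneg)
          intro d hd
          exact Nat.mem_divisors.2 ⟨(Finset.mem_filter.1 hd).2, hn.ne'⟩
        rw [ArithmeticFunction.vonMangoldt_sum] at e5
        exact e5.trans (Real.log_le_self (by positivity))
      have e6 : (n : ℝ) ≤ n * n := by nlinarith
      calc _ ≤ (n : ℝ) + n * n := add_le_add e3 e4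
        _ ≤ _ := by nlinarith
  have hfin := h (1 / ℓ) a (by positivity) (by rw [div_le_div_iff₀ hℓ0 (by norm_num)]; linarith) ha0 ha1 hna hMC
  simp_rw [hmel] at hfin
  exact hfin

/-- the pointwise inequality -/
theorem ptw (hTL : S_TL) (hDG : S_DG) : ∃ C : ℝ, 0 < C ∧ ∀ (q : ℕ) [NeZero q], q.Prime → ∀ χ ∈ ev q,
    ∀ ℓ Y t : ℝ, 4 ≤ ℓ →
    ‖mellin (FF χ (ym ℓ) (bb (1 / 200) ℓ 0)) (((1 / 2 + 1 / ℓ : ℝ) : ℂ) + (t : ℂ) * I) *
      (1 - PP χ (Finset.Icc 1 ⌊Y⌋₊) (((1 / 2 - 1 / ℓ : ℝ) : ℂ) + (t : ℂ) * I) / (Real.log q : ℂ))‖ ≤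
    1 / Real.log q * ‖mellin (DD χ (ym ℓ) (bb (1 / 200) ℓ 0)) (((1 / 2 + 1 / ℓ : ℝ) : ℂ) + (t : ℂ) * I)‖ +
    1 / Real.log q *
      ‖mellin (JJ χ (ym ℓ) (bb (1 / 200) ℓ (2 / ℓ : ℝ)) Y) (((1 / 2 - 1 / ℓ : ℝ) : ℂ) + (t : ℂ) * I)‖ +
    C / Real.log q * ((1 + |t|) *
      ‖mellin (FF χ (ym ℓ) (bb (1 / 200) ℓ 0)) (((1 / 2 + 1 / ℓ : ℝ) : ℂ) + (t : ℂ) * I)‖) := by
  obtain ⟨C, hC, hdg⟩ := hDG
  refine ⟨C, hC, ?_⟩
  intro q _ hq χ hχ ℓ Y t hℓ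
  have hq1 : (1 : ℝ) ≤ q := by exact_mod_cast hq.one_lt.le
  have hL0 : 0 < Real.log q := Real.log_pos (by exact_mod_cast hq.one_lt)
  have hLc : (Real.log q : ℂ) ≠ 0 := by exact_mod_cast hL0.ne'
  have hℓ0 : 0 < ℓ := by linarith
  have hκ : 1 / ℓ ≤ 1 / 4 := by rw [div_le_div_iff₀ hℓ0 (by norm_num)]; linarith
  have hκ0 : 0 < 1 / ℓ := by positivity
  obtain ⟨s, hs⟩ : ∃ s : ℂ, s = ((1 / 2 - 1 / ℓ : ℝ) : ℂ) + (t : ℂ) * I := ⟨_, rfl⟩
  obtain ⟨s', hs'⟩ : ∃ s' : ℂ, s' = ((1 / 2 + 1 / ℓ : ℝ) : ℂ) + (t : ℂ) * I := ⟨_, rfl⟩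
  have hss : s + ((2 / ℓ : ℝ) : ℂ) = s' := by rw [hs, hs']; push_cast; ring
  have hsre : s.re = 1 / 2 - 1 / ℓ := by rw [hs]; simp
  have hsim : s.im = t := by rw [hs]; simp
  obtain ⟨f1, f2⟩ := fe_norm q hq χ hχ (1 / ℓ) t
  rw [← hs, ← hs'] at f1 f2
  rw [← hs, ← hs']
  have g1 := gamma_split q hq χ hχ s (by rw [hsre]; linarith)
  rw [FF_mellin hq χ (ev_mem hχ).1 (ev_mem hχ).2, DD_mellin hq χ (ev_mem hχ).1 (ev_mem hχ).2,
    JJ_mellin hTL hq χ hχ _ _ _ _ (by rw [hsre]; linarith),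
    MM_shift χ (ym ℓ) (1 / 200) ℓ ((2 / ℓ : ℝ) : ℂ) s, hss, g1]
  obtain ⟨M, hM⟩ : ∃ M : ℂ, M = MM (ym ℓ) (fun h => bb (1 / 200) ℓ 0 h * χ (h : ZMod q)) s' := ⟨_, rfl⟩
  obtain ⟨P, hP⟩ : ∃ P : ℂ, P = PP χ (Finset.Icc 1 ⌊Y⌋₊) s := ⟨_, rfl⟩
  obtain ⟨Λ, hΛ⟩ : ∃ Λ : ℂ, Λ = DirichletCharacter.completedLFunction χ s := ⟨_, rfl⟩
  obtain ⟨Λ', hΛ'⟩ : ∃ Λ' : ℂ, Λ' = deriv (DirichletCharacter.completedLFunction χ) s := ⟨_, rfl⟩
  obtain ⟨Ls, hLs⟩ : ∃ Ls : ℂ, Ls = DirichletCharacter.completedLFunction χ s' := ⟨_, rfl⟩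
  obtain ⟨Ls', hLs'⟩ : ∃ Ls' : ℂ, Ls' = deriv (DirichletCharacter.completedLFunction χ) s' := ⟨_, rfl⟩
  obtain ⟨G, hG⟩ : ∃ G : ℂ, G = deriv Gammaℝ s / Gammaℝ s := ⟨_, rfl⟩
  rw [← hM, ← hP, ← hΛ, ← hΛ', ← hLs, ← hLs', ← hG]
  rw [← hΛ, ← hLs] at f1
  rw [← hΛ, ← hΛ', ← hLs'] at f2
  obtain ⟨L, hL⟩ : ∃ L : ℝ, L = Real.log q := ⟨_, rfl⟩
  rw [← hL] at f2 hL0 hLc ⊢
  obtain ⟨Q, hQ⟩ : ∃ Q : ℝ, Q = (q : ℝ) ^ (1 / ℓ) := ⟨_, rfl⟩
  rw [← hQ] at f1 f2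
  have hQ1 : 1 ≤ Q := by rw [hQ]; exact Real.one_le_rpow hq1 hκ0.le
  have hQ0 : 0 < Q := by linarith
  have hGn : ‖G‖ ≤ C * (1 + |t|) := by
    have hG0 : Gammaℝ s ≠ 0 := Gammaℝ_ne_zero_of_re_pos (by rw [hsre]; linarith)
    have := hdg s (by rw [hsre]; linarith) (by rw [hsre]; linarith)
    rw [hsim] at this
    rw [hG, norm_div, div_le_iff₀ (norm_pos_iff.2 hG0)]
    exact this
  -- algebraic identity
  have key : Λ * M * (1 - P / (L : ℂ)) = M * (Λ + Λ' / (L : ℂ)) +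
      2 / (L : ℂ) * (-((Λ' - G * Λ + Λ * P) / 2) * M) - G / (L : ℂ) * (Λ * M) := by
    field_simp
    ring
  have hnorm : ‖Λ * M * (1 - P / (L : ℂ))‖ ≤ ‖M‖ * (Q * ‖Ls'‖ / L) +
      2 / L * ‖-((Λ' - G * Λ + Λ * P) / 2) * M‖ + C * (1 + |t|) / L * (Q * ‖Ls‖ * ‖M‖) := by
    rw [key]
    refine (norm_sub_le _ _).trans ?_
    refine add_le_add ((norm_add_le _ _).trans (add_le_add ?_ ?_)) ?_
    · rw [norm_mul, f2]
    · rw [norm_mul, norm_div, Complex.norm_ofNat, Complex.norm_real, Real.norm_eq_abs, abs_of_pos hL0]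
    · rw [norm_mul, norm_div, norm_mul, f1, Complex.norm_real, Real.norm_eq_abs, abs_of_pos hL0]
      gcongr
  have e1 : ‖Λ * M * (1 - P / (L : ℂ))‖ = 2 * Q * ‖Ls / 2 * M * (1 - P / (L : ℂ))‖ := by
    rw [norm_mul, norm_mul, f1, norm_mul, norm_mul, norm_div, Complex.norm_ofNat]
    ring
  rw [e1] at hnorm
  have e2 : ‖Ls' / 2 * M‖ = ‖Ls'‖ * ‖M‖ / 2 := by
    rw [norm_mul, norm_div, Complex.norm_ofNat]; ring
  have e3 : ‖Ls / 2 * M‖ = ‖Ls‖ * ‖M‖ / 2 := by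
    rw [norm_mul, norm_div, Complex.norm_ofNat]; ring
  rw [e2, e3]
  obtain ⟨Jn, hJn⟩ : ∃ Jn : ℝ, Jn = ‖-((Λ' - G * Λ + Λ * P) / 2) * M‖ := ⟨_, rfl⟩
  rw [← hJn] at hnorm ⊢
  have hJ0 : 0 ≤ Jn := by rw [hJn]; exact norm_nonneg _
  obtain ⟨X, hX⟩ : ∃ X : ℝ, X = ‖Ls / 2 * M * (1 - P / (L : ℂ))‖ := ⟨_, rfl⟩
  rw [← hX] at hnorm ⊢
  have h5 : 2 * Q * X ≤ 2 * Q * (1 / L * (‖Ls'‖ * ‖M‖ / 2) + 1 / L * Jn +
      C / L * ((1 + |t|) * (‖Ls‖ * ‖M‖ / 2))) := by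
    refine hnorm.trans ?_
    have e6 : 2 * Q * (1 / L * (‖Ls'‖ * ‖M‖ / 2) + 1 / L * Jn + C / L * ((1 + |t|) * (‖Ls‖ * ‖M‖ / 2))) =
        ‖M‖ * (Q * ‖Ls'‖ / L) + Q * (2 / L * Jn) + C * (1 + |t|) / L * (Q * ‖Ls‖ * ‖M‖) := by
      field_simp
    rw [e6]
    have e7 : 0 ≤ 2 / L * Jn := by positivity
    nlinarith
  exact le_of_mul_le_mul_left h5 (by positivity)

end Pool.Agent.D0H44.MW
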