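import Pool.Agent.D0H44.MW.Bb

/-! The inequality for one character. -/

set_option autoImplicit false
open Complex Filter Topology MeasureTheory Set Asymptotics
open Pool.Agent.H24R2.DZ (cc rr bb MM mo ph)

namespace Pool.Agent.D0H44.MW

theorem amgm {f w : ℝ → ℝ} (hf : Continuous f) (hw : Continuous w) (hf0 : ∀ t, 0 ≤ f t) (hw0 : ∀ t, 0 ≤ w t)
    (hf2 : Integrable (fun t => f t ^ 2)) (hw2 : Integrable (fun t => w t ^ 2)) {τ : ℝ} (hτ : 0 < τ) :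
    Integrable (fun t => f t * w t) ∧
      ∫ t, f t * w t ≤ (τ * (∫ t, f t ^ 2) + (∫ t, w t ^ 2) / τ) / 2 := by
  have hpt : ∀ t, f t * w t ≤ (τ / 2) * f t ^ 2 + (1 / (2 * τ)) * w t ^ 2 := by
    intro t
    have h1 : 0 ≤ (τ * f t - w t) ^ 2 / (2 * τ) := by positivity
    have h2 : (τ * f t - w t) ^ 2 / (2 * τ) = (τ / 2) * f t ^ 2 + (1 / (2 * τ)) * w t ^ 2 - f t * w t := by
      field_simp; ring
    rw [h2] at h1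
    linarith
  have hR : Integrable (fun t => (τ / 2) * f t ^ 2 + (1 / (2 * τ)) * w t ^ 2) :=
    (hf2.const_mul _).add (hw2.const_mul _)
  have hI : Integrable (fun t => f t * w t) := by
    refine Integrable.mono' hR (hf.mul hw).aestronglyMeasurable (Eventually.of_forall fun t => ?_)
    rw [Real.norm_eq_abs, abs_of_nonneg (mul_nonneg (hf0 t) (hw0 t))]
    exact hpt t
  refine ⟨hI, (integral_mono hI hR hpt).trans (le_of_eq ?_)⟩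
  rw [integral_add (hf2.const_mul _) (hw2.const_mul _), integral_const_mul, integral_const_mul]
  field_simp

theorem int4 {a b c d : ℝ → ℝ} (α β : ℝ) (ha : Integrable a) (hb : Integrable b) (hc : Integrable c)
    (hd : Integrable d) : Integrable (fun t => α * a t + (α * b t + α * c t) + β * d t) ∧
    ∫ t, (α * a t + (α * b t + α * c t) + β * d t) =
      α * (∫ t, a t) + (α * (∫ t, b t) + α * (∫ t, c t)) + β * (∫ t, d t) := by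
  have h1 : Integrable (fun t => α * b t + α * c t) := (hb.const_mul α).add (hc.const_mul α)
  have h2 : Integrable (fun t => α * a t + (α * b t + α * c t)) := (ha.const_mul α).add h1
  refine ⟨h2.add (hd.const_mul β), ?_⟩
  rw [integral_add h2 (hd.const_mul β), integral_add (ha.const_mul α) h1,
    integral_add (hb.const_mul α) (hc.const_mul α), integral_const_mul, integral_const_mul,
    integral_const_mul, integral_const_mul]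

theorem w1_cont : Continuous (fun t : ℝ => 1 / (1 + t ^ 2)) :=
  continuous_const.div (by fun_prop) (fun t => by positivity)

theorem w1_int : Integrable (fun t : ℝ => 1 / (1 + t ^ 2)) := by
  simpa [one_div] using integrable_inv_one_add_sq

theorem w1_val : ∫ t : ℝ, 1 / (1 + t ^ 2) = Real.pi := by
  simpa [one_div] using integral_univ_inv_one_add_sq

theorem w1_sq_le (t : ℝ) : (1 / (1 + t ^ 2)) ^ 2 ≤ 1 / (1 + t ^ 2) := by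
  have h1 : 1 / (1 + t ^ 2) ≤ 1 := by rw [div_le_one (by positivity)]; nlinarith [sq_nonneg t]
  have h0 : 0 ≤ 1 / (1 + t ^ 2) := by positivity
  nlinarith

theorem w1_sq : Integrable (fun t : ℝ => (1 / (1 + t ^ 2)) ^ 2) ∧ ∫ t : ℝ, (1 / (1 + t ^ 2)) ^ 2 ≤ Real.pi := by
  have hi : Integrable (fun t : ℝ => (1 / (1 + t ^ 2)) ^ 2) := by
    refine Integrable.mono' w1_int (w1_cont.pow 2).aestronglyMeasurable (Eventually.of_forall fun t => ?_)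
    rw [Real.norm_eq_abs, abs_of_nonneg (by positivity)]
    exact w1_sq_le t
  refine ⟨hi, ?_⟩
  rw [← w1_val]
  exact integral_mono hi w1_int w1_sq_le

theorem w2_cont : Continuous (fun t : ℝ => (1 + |t|) / (1 + t ^ 2)) :=
  (by fun_prop : Continuous fun t : ℝ => 1 + |t|).div (by fun_prop) (fun t => by positivity)

theorem w2_sq : Integrable (fun t : ℝ => ((1 + |t|) / (1 + t ^ 2)) ^ 2) ∧
    ∫ t : ℝ, ((1 + |t|) / (1 + t ^ 2)) ^ 2 ≤ 2 * Real.pi := by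
  have hle : ∀ t : ℝ, ((1 + |t|) / (1 + t ^ 2)) ^ 2 ≤ 2 * (1 / (1 + t ^ 2)) := by
    intro t
    have h0 : 0 < 1 + t ^ 2 := by positivity
    rw [div_pow, div_le_iff₀ (by positivity)]
    have h1 : (1 + |t|) ^ 2 ≤ 2 * (1 + t ^ 2) := by
      have := sq_abs t
      nlinarith [sq_nonneg (|t| - 1)]
    calc (1 + |t|) ^ 2 ≤ 2 * (1 + t ^ 2) := h1
      _ = 2 * (1 / (1 + t ^ 2)) * (1 + t ^ 2) ^ 2 := by field_simp
  have hi : Integrable (fun t : ℝ => ((1 + |t|) / (1 + t ^ 2)) ^ 2) := by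
    refine Integrable.mono' (w1_int.const_mul 2) (w2_cont.pow 2).aestronglyMeasurable
      (Eventually.of_forall fun t => ?_)
    rw [Real.norm_eq_abs, abs_of_nonneg (by positivity)]
    exact hle t
  refine ⟨hi, ?_⟩
  rw [← w1_val, ← integral_const_mul]
  exact integral_mono hi (w1_int.const_mul 2) hle

theorem PP_cont {q : ℕ} (χ : DirichletCharacter ℂ q) (D : Finset ℕ) (hD : ∀ d ∈ D, 1 ≤ d) (σ : ℝ) :
    Continuous (fun u : ℝ => PP χ D ((σ : ℂ) + (u : ℂ) * I)) := by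
  unfold PP
  refine continuous_finsetSum _ fun d hd => ?_
  have hd0 : (d : ℂ) ≠ 0 := by
    have := hD d hd
    exact_mod_cast (by omega : d ≠ 0)
  refine continuous_const.mul ?_
  exact Continuous.const_cpow (by fun_prop) (Or.inl hd0)

theorem PP_bd {q : ℕ} (χ : DirichletCharacter ℂ q) (D : Finset ℕ) (hD : ∀ d ∈ D, 1 ≤ d) (σ : ℝ) :
    ∃ K : ℝ, ∀ u : ℝ, ‖PP χ D ((σ : ℂ) + (u : ℂ) * I)‖ ≤ K := by
  refine ⟨∑ d ∈ D, ‖(ArithmeticFunction.vonMangoldt d : ℂ) * χ (d : ZMod q)‖ * (d : ℝ) ^ (-σ), fun u => ?_⟩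
  unfold PP
  refine (norm_sum_le _ _).trans (Finset.sum_le_sum fun d hd => ?_)
  rw [norm_mul, Complex.norm_natCast_cpow_of_pos (hD d hd)]
  simp

theorem perchar (hTL : S_TL) (hDG : S_DG) (hCUT : S_CUT) (hWIN : S_WIN) (hLB : S_LB) (hR : S_R) :
    ∃ c C : ℝ, 0 < c ∧ 0 < C ∧ ∀ B ε : ℝ, 2 ≤ B → 0 < ε → ε ≤ 1 → ∃ K : ℝ, 0 < K ∧ ∃ q₀ : ℕ,
    ∀ (q : ℕ) [NeZero q], q.Prime → q₀ ≤ q → ∀ χ ∈ ev q, ∀ ℓ Y Y' : ℝ, 150 ≤ ℓ → ℓ ≤ Real.log q →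
    (ym ℓ : ℝ) ≤ (q : ℝ) ^ (ε / 8) → 8 / ε ≤ Real.log q → (q : ℝ) ^ 2 ≤ Y → Y * (q : ℝ) ^ (1 + ε) ≤ Y' →
    Y' ≤ (q : ℝ) ^ B → ∀ τ₁ τ₂ : ℝ, 0 < τ₁ → 0 < τ₂ →
    c ≤ 1 / Real.log q * ((τ₁ * (∫ t : ℝ, ‖mellin (DD χ (ym ℓ) (bb (1 / 200) ℓ 0))
        (((1 / 2 + 1 / ℓ : ℝ) : ℂ) + (t : ℂ) * I)‖ ^ 2) + Real.pi / τ₁) / 2) +
      1 / Real.log q * (K + 8 * C / ε * Real.exp ((B + 2) * Real.log q / ℓ) *
        ((τ₂ * (∫ t : ℝ, ‖mellin (FF χ (ym ℓ) (bb (1 / 200) ℓ (2 / ℓ : ℝ)))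
        (((1 / 2 : ℝ) : ℂ) + (t : ℂ) * I)‖ ^ 2) + C * ((∫ v in Y..Y', ‖ps χ v‖ ^ 2 / v ^ 2) +
        ‖ps χ Y‖ ^ 2 / Y + ‖ps χ Y'‖ ^ 2 / Y') / τ₂) / 2)) +
      C / Real.log q * (((∫ t : ℝ, ‖mellin (FF χ (ym ℓ) (bb (1 / 200) ℓ 0))
        (((1 / 2 + 1 / ℓ : ℝ) : ℂ) + (t : ℂ) * I)‖ ^ 2) + 2 * Real.pi) / 2) := by
  obtain ⟨c, hc, hlb⟩ := lbq hLB
  obtain ⟨C1, hC1, hptw⟩ := ptw hTL hDG
  obtain ⟨C2, hC2, hcut⟩ := hCUT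
  obtain ⟨C3, hC3, hwin⟩ := hWIN
  obtain ⟨C, hC⟩ : ∃ C : ℝ, C = C1 + C2 + C3 := ⟨_, rfl⟩
  refine ⟨c, C, hc, by rw [hC]; positivity, ?_⟩
  intro B ε hB hε hε1
  obtain ⟨K, hK, q₀, hrem⟩ := hR B ε hB hε hε1
  refine ⟨(2 * Real.pi * K + Real.pi) / 2, by have := Real.pi_pos; positivity, q₀, ?_⟩
  intro q _ hq hqq χ hχ ℓ Y Y' hℓ hℓL hyq hεL hY hYY hYB τ₁ τ₂ hτ₁ hτ₂
  have hq1 : (1 : ℝ) < q := by exact_mod_cast hq.one_lt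
  have hq0 : (0 : ℝ) < q := by linarith
  obtain ⟨L, hL⟩ : ∃ L : ℝ, L = Real.log q := ⟨_, rfl⟩
  have hL0 : 0 < L := by rw [hL]; exact Real.log_pos hq1
  have hY1 : 1 ≤ Y := by nlinarith
  have hY0 : 0 < Y := by linarith
  have hlY : 0 ≤ Real.log Y := Real.log_nonneg hY1
  have hℓ0 : 0 < ℓ := by linarith
  have hκ0 : 0 < 1 / ℓ := by positivity
  have hκ1 : 1 / ℓ ≤ 1 / 150 := one_div_le_one_div_of_le (by norm_num) hℓ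
  have hYY1 : Y ≤ Y' := by
    refine le_trans ?_ hYY
    have : 1 ≤ (q : ℝ) ^ (1 + ε) := Real.one_le_rpow hq1.le (by linarith)
    nlinarith
  have hY'0 : 0 < Y' := by linarith
  have hlYB : Real.log Y ≤ B * L := by
    rw [hL, ← Real.log_rpow hq0]
    exact Real.log_le_log hY0 (hYY1.trans hYB)
  have hpi := Real.pi_pos
  -- the cut-off
  have hcc1 : 1 ≤ ε / 8 * L := by
    rw [← hL] at hεL
    rw [div_le_iff₀ hε] at hεL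
    nlinarith
  have hDD0 : 0 ≤ Real.log Y + (1 + ε / 4) * L := by positivity
  obtain ⟨ρ, hρc, hρ01, hρ0, hρ1, hρ2⟩ := hcut (1 / ℓ) (ε / 8 * L) (Real.log Y + (1 + ε / 4) * L) hκ0
    (by linarith) hcc1 hDD0
  have hsum : Real.log Y + (1 + ε / 4) * L + ε / 8 * L = Real.log Y + (1 + 3 * ε / 8) * L := by ring
  rw [hsum] at hρ0 hρ2
  obtain ⟨b₁, hb₁⟩ : ∃ b₁ : ℕ → ℂ, b₁ = bb (1 / 200) ℓ (2 / ℓ : ℝ) := ⟨_, rfl⟩
  obtain ⟨H, hH⟩ : ∃ H : ℝ → ℂ, H = HH χ (ym ℓ) b₁ Y Y' := ⟨_, rfl⟩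
  obtain ⟨J, hJ⟩ : ∃ J : ℝ → ℂ, J = JJ χ (ym ℓ) b₁ Y := ⟨_, rfl⟩
  have hHM : MC H (1 / 2) := hH ▸ HH_MC hq χ hχ _ _ _ _ _
  obtain ⟨hρM, hρI⟩ := hρ2 H hHM
  have hJM : MC J (1 / 2 - 1 / ℓ) := hJ ▸ JJ_MC hTL hq χ hχ _ _ _ _ (by linarith)
  have hRM := hJM.sub hρM
  -- the remainder
  have hb1 : ∀ h, ‖b₁ h‖ ≤ 1 := by
    rw [hb₁]; exact fun h => bb_one _ _ _ (by rw [Complex.ofReal_re]; positivity) h
  have hb2 : ∀ h, ym ℓ < h → b₁ h = 0 := by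
    intro h hh
    rw [hb₁]; unfold bb
    rw [mo_zero_of (1 / 200) ℓ (by positivity) (ym ℓ) h (ym_ge ℓ) hh]; simp
  have hRK := hrem q hq hqq χ hχ (ym ℓ) b₁ Y Y' (1 / ℓ) ρ (ym_one ℓ) hyq (ym_pow hq.pos ℓ hℓ hℓL) hb1 hb2
    hY hYY hYB hκ0 (by linarith) hρc hρ01 (by rw [← hL]; exact hρ0) (by rw [← hL]; exact hρ1)
  rw [← hH, ← hJ] at hRK
  obtain ⟨hR2i, hR2v⟩ := mell_L2 hRM
  have hR2 : ∫ t : ℝ, ‖mellin (fun x => J x - (ρ x : ℂ) * H x) (((1 / 2 - 1 / ℓ : ℝ) : ℂ) + (t : ℂ) * I)‖ ^ 2 ≤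
      2 * Real.pi * K := by
    rw [hR2v]
    gcongr
  obtain ⟨hRi, hRv⟩ := amgm (mell_cont hRM).norm w1_cont (fun t => norm_nonneg _) (fun t => by positivity)
    hR2i w1_sq.1 one_pos
  have hRv' : ∫ t : ℝ, ‖mellin (fun x => J x - (ρ x : ℂ) * H x) (((1 / 2 - 1 / ℓ : ℝ) : ℂ) + (t : ℂ) * I)‖ *
      (1 / (1 + t ^ 2)) ≤ (2 * Real.pi * K + Real.pi) / 2 := by
    refine hRv.trans ?_
    have := w1_sq.2
    rw [one_mul, div_one]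
    linarith
  -- the main part
  obtain ⟨hMi, _⟩ := amgm (mell_cont hρM).norm w1_cont (fun t => norm_nonneg _) (fun t => by positivity)
    (mell_L2 hρM).1 w1_sq.1 one_pos
  obtain ⟨W, hW⟩ : ∃ W : ℝ → ℝ, W = fun u : ℝ => ‖PP χ (Finset.Ioc ⌊Y⌋₊ ⌊Y'⌋₊) (((1 / 2 : ℝ) : ℂ) + (u : ℂ) * I)‖ *
    (1 / (1 + u ^ 2)) := ⟨_, rfl⟩
  have hWc : Continuous W := by
    rw [hW]; exact (PP_cont χ _ (fun _ h => one_le_of_Ioc h) _).norm.mul w1_cont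
  have hW0 : ∀ u, 0 ≤ W u := by intro u; rw [hW]; positivity
  have hWle : ∀ u : ℝ, W u ^ 2 ≤ ‖PP χ (Finset.Ioc ⌊Y⌋₊ ⌊Y'⌋₊) (((1 / 2 : ℝ) : ℂ) + (u : ℂ) * I)‖ ^ 2 / (1 + u ^ 2) := by
    intro u
    rw [hW]
    simp only
    rw [mul_pow]
    have h1 := w1_sq_le u
    calc ‖PP χ (Finset.Ioc ⌊Y⌋₊ ⌊Y'⌋₊) (((1 / 2 : ℝ) : ℂ) + (u : ℂ) * I)‖ ^ 2 * (1 / (1 + u ^ 2)) ^ 2 ≤
        ‖PP χ (Finset.Ioc ⌊Y⌋₊ ⌊Y'⌋₊) (((1 / 2 : ℝ) : ℂ) + (u : ℂ) * I)‖ ^ 2 * (1 / (1 + u ^ 2)) := by gcongr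
      _ = _ := by ring
  have hPi : Integrable (fun u : ℝ => ‖PP χ (Finset.Ioc ⌊Y⌋₊ ⌊Y'⌋₊) (((1 / 2 : ℝ) : ℂ) + (u : ℂ) * I)‖ ^ 2 /
      (1 + u ^ 2)) := by
    obtain ⟨K', hK'⟩ := PP_bd χ (Finset.Ioc ⌊Y⌋₊ ⌊Y'⌋₊) (fun _ h => one_le_of_Ioc h) (1 / 2)
    refine Integrable.mono' (w1_int.const_mul (K' ^ 2)) ?_ (Eventually.of_forall fun u => ?_)
    · exact (((PP_cont χ _ (fun _ h => one_le_of_Ioc h) _).norm.pow 2).div (by fun_prop)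
        (fun u => by positivity)).aestronglyMeasurable
    · rw [Real.norm_eq_abs, abs_of_nonneg (by positivity), div_eq_mul_one_div]
      have := pow_le_pow_left₀ (norm_nonneg _) (hK' u) 2
      gcongr
  have hW2i : Integrable (fun u => W u ^ 2) := by
    refine Integrable.mono' hPi (hWc.pow 2).aestronglyMeasurable (Eventually.of_forall fun u => ?_)
    rw [Real.norm_eq_abs, abs_of_nonneg (by positivity)]
    exact hWle u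
  obtain ⟨V, hV⟩ : ∃ V : ℝ, V = (∫ v in Y..Y', ‖ps χ v‖ ^ 2 / v ^ 2) +
        ‖ps χ Y‖ ^ 2 / Y + ‖ps χ Y'‖ ^ 2 / Y' := ⟨_, rfl⟩
  have hV0 : 0 ≤ V := by
    rw [hV]
    have h1 : 0 ≤ ∫ v in Y..Y', ‖ps χ v‖ ^ 2 / v ^ 2 :=
      intervalIntegral.integral_nonneg hYY1 fun v _ => by positivity
    positivity
  have hW2 : ∫ u, W u ^ 2 ≤ C * V := by
    refine (integral_mono hW2i hPi hWle).trans ?_
    have h1 := hwin (fun n => (ArithmeticFunction.vonMangoldt n : ℂ) * χ (n : ZMod q)) Y Y' hY1 hYY1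
    have h2 : C3 * V ≤ C * V := by
      refine mul_le_mul_of_nonneg_right ?_ hV0
      rw [hC]; linarith
    refine le_trans ?_ h2
    rw [hV]
    exact h1
  obtain ⟨F₁, hF₁⟩ : ∃ F₁ : ℝ → ℂ, F₁ = FF χ (ym ℓ) b₁ := ⟨_, rfl⟩
  have hF₁M : MC F₁ (1 / 2) := hF₁ ▸ FF_MC hq χ (ev_mem hχ).1 (ev_mem hχ).2 _ _ _
  obtain ⟨_, hHv⟩ := amgm (mell_cont hF₁M).norm hWc (fun t => norm_nonneg _) hW0 (mell_L2 hF₁M).1 hW2i hτ₂
  have hHeq : ∫ u : ℝ, ‖mellin H (((1 / 2 : ℝ) : ℂ) + (u : ℂ) * I)‖ / (1 + u ^ 2) =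
      ∫ u : ℝ, ‖mellin F₁ (((1 / 2 : ℝ) : ℂ) + (u : ℂ) * I)‖ * W u := by
    refine integral_congr_ae (Eventually.of_forall fun u => ?_)
    simp only
    rw [hH, HH_mellin hq χ hχ, hW, ← hF₁, norm_mul]
    ring
  obtain ⟨M1, hM1⟩ : ∃ M1 : ℝ, M1 = ∫ t : ℝ, ‖mellin F₁ (((1 / 2 : ℝ) : ℂ) + (t : ℂ) * I)‖ ^ 2 := ⟨_, rfl⟩
  have hM10 : 0 ≤ M1 := by rw [hM1]; exact integral_nonneg fun t => by positivity
  have hHfin : ∫ u : ℝ, ‖mellin H (((1 / 2 : ℝ) : ℂ) + (u : ℂ) * I)‖ / (1 + u ^ 2) ≤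
      (τ₂ * M1 + C * V / τ₂) / 2 := by
    rw [hHeq]
    refine hHv.trans ?_
    rw [← hM1]
    have : (∫ u, W u ^ 2) / τ₂ ≤ C * V / τ₂ := by gcongr
    linarith
  have hC0 : 0 < C := by rw [hC]; positivity
  have hEfac : C2 * (Real.exp (1 / ℓ * (Real.log Y + (1 + 3 * ε / 8) * L)) / (ε / 8 * L * (1 / ℓ))) ≤
      8 * C / ε * Real.exp ((B + 2) * L / ℓ) := by
    have h1 : Real.exp (1 / ℓ * (Real.log Y + (1 + 3 * ε / 8) * L)) ≤ Real.exp ((B + 2) * L / ℓ) := by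
      apply Real.exp_le_exp.2
      rw [one_div, inv_mul_eq_div]
      apply div_le_div_of_nonneg_right _ hℓ0.le
      nlinarith
    have h2 : 1 / (ε / 8 * L * (1 / ℓ)) ≤ 8 / ε := by
      rw [div_le_div_iff₀ (by positivity) hε]
      have h3 : 1 ≤ L * (1 / ℓ) := by
        rw [mul_one_div, le_div_iff₀ hℓ0, one_mul, hL]; exact hℓL
      nlinarith
    have h4 : C2 ≤ C := by rw [hC]; linarith
    calc C2 * (Real.exp (1 / ℓ * (Real.log Y + (1 + 3 * ε / 8) * L)) / (ε / 8 * L * (1 / ℓ)))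
        = C2 * (Real.exp (1 / ℓ * (Real.log Y + (1 + 3 * ε / 8) * L)) * (1 / (ε / 8 * L * (1 / ℓ)))) := by ring
      _ ≤ C * (Real.exp ((B + 2) * L / ℓ) * (8 / ε)) := by gcongr
      _ = _ := by ring
  have hρfin : ∫ t : ℝ, ‖mellin (fun x => (ρ x : ℂ) * H x) (((1 / 2 - 1 / ℓ : ℝ) : ℂ) + (t : ℂ) * I)‖ *
      (1 / (1 + t ^ 2)) ≤ 8 * C / ε * Real.exp ((B + 2) * L / ℓ) * ((τ₂ * M1 + C * V / τ₂) / 2) := by
    have h1 : ∫ t : ℝ, ‖mellin (fun x => (ρ x : ℂ) * H x) (((1 / 2 - 1 / ℓ : ℝ) : ℂ) + (t : ℂ) * I)‖ *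
      (1 / (1 + t ^ 2)) = ∫ t : ℝ, ‖mellin (fun x => (ρ x : ℂ) * H x) (((1 / 2 - 1 / ℓ : ℝ) : ℂ) + (t : ℂ) * I)‖ /
        (1 + t ^ 2) := by
      refine integral_congr_ae (Eventually.of_forall fun t => ?_)
      simp only
      rw [mul_one_div]
    rw [h1]
    refine hρI.trans ?_
    have h2 : 0 ≤ ∫ u : ℝ, ‖mellin H (((1 / 2 : ℝ) : ℂ) + (u : ℂ) * I)‖ / (1 + u ^ 2) :=
      integral_nonneg fun u => by positivity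
    gcongr
  -- the other two parts
  obtain ⟨D₀, hD₀⟩ : ∃ D₀ : ℝ → ℂ, D₀ = DD χ (ym ℓ) (bb (1 / 200) ℓ 0) := ⟨_, rfl⟩
  obtain ⟨F₀, hF₀⟩ : ∃ F₀ : ℝ → ℂ, F₀ = FF χ (ym ℓ) (bb (1 / 200) ℓ 0) := ⟨_, rfl⟩
  have hD₀M : MC D₀ (1 / 2 + 1 / ℓ) := hD₀ ▸ DD_MC hq χ (ev_mem hχ).1 (ev_mem hχ).2 _ _ _
  have hF₀M : MC F₀ (1 / 2 + 1 / ℓ) := hF₀ ▸ FF_MC hq χ (ev_mem hχ).1 (ev_mem hχ).2 _ _ _
  obtain ⟨hDi, hDv⟩ := amgm (mell_cont hD₀M).norm w1_cont (fun t => norm_nonneg _) (fun t => by positivity)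
    (mell_L2 hD₀M).1 w1_sq.1 hτ₁
  obtain ⟨hFi, hFv⟩ := amgm (mell_cont hF₀M).norm w2_cont (fun t => norm_nonneg _) (fun t => by positivity)
    (mell_L2 hF₀M).1 w2_sq.1 one_pos
  -- assembly
  have hstart := hlb q hq χ hχ ℓ Y (by linarith) hY1 (by rw [← hL]; linarith)
  rw [← hF₀, ← hL] at hstart
  have hbound : ∀ t : ℝ, ‖mellin F₀ (((1 / 2 + 1 / ℓ : ℝ) : ℂ) + (t : ℂ) * I) *
      (1 - PP χ (Finset.Icc 1 ⌊Y⌋₊) (((1 / 2 - 1 / ℓ : ℝ) : ℂ) + (t : ℂ) * I) / (L : ℂ))‖ / (1 + t ^ 2) ≤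
      1 / L * (‖mellin D₀ (((1 / 2 + 1 / ℓ : ℝ) : ℂ) + (t : ℂ) * I)‖ * (1 / (1 + t ^ 2))) +
      (1 / L * (‖mellin (fun x => J x - (ρ x : ℂ) * H x) (((1 / 2 - 1 / ℓ : ℝ) : ℂ) + (t : ℂ) * I)‖ *
        (1 / (1 + t ^ 2))) +
      1 / L * (‖mellin (fun x => (ρ x : ℂ) * H x) (((1 / 2 - 1 / ℓ : ℝ) : ℂ) + (t : ℂ) * I)‖ *
        (1 / (1 + t ^ 2)))) +
      C1 / L * (‖mellin F₀ (((1 / 2 + 1 / ℓ : ℝ) : ℂ) + (t : ℂ) * I)‖ * ((1 + |t|) / (1 + t ^ 2))) := by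
    intro t
    have h1 := hptw q hq χ hχ ℓ Y t (by linarith)
    rw [← hF₀, ← hD₀, ← hL, ← hb₁, ← hJ] at h1
    have hre : (((1 / 2 - 1 / ℓ : ℝ) : ℂ) + (t : ℂ) * I).re = 1 / 2 - 1 / ℓ := by simp
    have h2 : mellin J (((1 / 2 - 1 / ℓ : ℝ) : ℂ) + (t : ℂ) * I) =
        mellin (fun x => J x - (ρ x : ℂ) * H x) (((1 / 2 - 1 / ℓ : ℝ) : ℂ) + (t : ℂ) * I) +
        mellin (fun x => (ρ x : ℂ) * H x) (((1 / 2 - 1 / ℓ : ℝ) : ℂ) + (t : ℂ) * I) := by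
      rw [mellin_sub' (by rw [hre]; exact hJM) (by rw [hre]; exact hρM)]
      ring
    have h3 : ‖mellin J (((1 / 2 - 1 / ℓ : ℝ) : ℂ) + (t : ℂ) * I)‖ ≤
        ‖mellin (fun x => J x - (ρ x : ℂ) * H x) (((1 / 2 - 1 / ℓ : ℝ) : ℂ) + (t : ℂ) * I)‖ +
        ‖mellin (fun x => (ρ x : ℂ) * H x) (((1 / 2 - 1 / ℓ : ℝ) : ℂ) + (t : ℂ) * I)‖ := by
      rw [h2]; exact norm_add_le _ _
    have h4 : 0 < 1 + t ^ 2 := by positivity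
    have h5 : 0 < 1 / L := by positivity
    have h6 := h1.trans (add_le_add_left (add_le_add_right (mul_le_mul_of_nonneg_left h3 h5.le) _) _)
    calc _ ≤ (1 / L * ‖mellin D₀ (((1 / 2 + 1 / ℓ : ℝ) : ℂ) + (t : ℂ) * I)‖ +
        1 / L * (‖mellin (fun x => J x - (ρ x : ℂ) * H x) (((1 / 2 - 1 / ℓ : ℝ) : ℂ) + (t : ℂ) * I)‖ +
        ‖mellin (fun x => (ρ x : ℂ) * H x) (((1 / 2 - 1 / ℓ : ℝ) : ℂ) + (t : ℂ) * I)‖) +
        C1 / L * ((1 + |t|) * ‖mellin F₀ (((1 / 2 + 1 / ℓ : ℝ) : ℂ) + (t : ℂ) * I)‖)) / (1 + t ^ 2) := by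
          gcongr
      _ = _ := by ring
  obtain ⟨hI4, hI5⟩ := int4 (1 / L) (C1 / L) hDi hRi hMi hFi
  have hint := integral_mono_of_nonneg (μ := volume)
    (f := fun t : ℝ => ‖mellin F₀ (((1 / 2 + 1 / ℓ : ℝ) : ℂ) + (t : ℂ) * I) *
      (1 - PP χ (Finset.Icc 1 ⌊Y⌋₊) (((1 / 2 - 1 / ℓ : ℝ) : ℂ) + (t : ℂ) * I) / (L : ℂ))‖ / (1 + t ^ 2))
    (Eventually.of_forall fun t => by positivity) hI4
    (Eventually.of_forall fun t => hbound t)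
  have hfin := (hstart.trans hint).trans (le_of_eq hI5)
  rw [← hL, ← hD₀, ← hF₀, ← hb₁, ← hF₁, ← hM1, ← hV]
  have g1 : ∫ t : ℝ, ‖mellin D₀ (((1 / 2 + 1 / ℓ : ℝ) : ℂ) + (t : ℂ) * I)‖ * (1 / (1 + t ^ 2)) ≤
      (τ₁ * (∫ t : ℝ, ‖mellin D₀ (((1 / 2 + 1 / ℓ : ℝ) : ℂ) + (t : ℂ) * I)‖ ^ 2) + Real.pi / τ₁) / 2 := by
    refine hDv.trans ?_
    have : (∫ t : ℝ, (1 / (1 + t ^ 2)) ^ 2) / τ₁ ≤ Real.pi / τ₁ := by
      have := w1_sq.2; gcongr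
    linarith
  have g2 : ∫ t : ℝ, ‖mellin F₀ (((1 / 2 + 1 / ℓ : ℝ) : ℂ) + (t : ℂ) * I)‖ * ((1 + |t|) / (1 + t ^ 2)) ≤
      ((∫ t : ℝ, ‖mellin F₀ (((1 / 2 + 1 / ℓ : ℝ) : ℂ) + (t : ℂ) * I)‖ ^ 2) + 2 * Real.pi) / 2 := by
    refine hFv.trans ?_
    have := w2_sq.2
    rw [one_mul, div_one]
    linarith
  have g3 : C1 / L ≤ C / L := by
    apply div_le_div_of_nonneg_right _ hL0.le
    rw [hC]; linarith
  have g4 : 0 ≤ ((∫ t : ℝ, ‖mellin F₀ (((1 / 2 + 1 / ℓ : ℝ) : ℂ) + (t : ℂ) * I)‖ ^ 2) + 2 * Real.pi) / 2 := by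
    have : 0 ≤ ∫ t : ℝ, ‖mellin F₀ (((1 / 2 + 1 / ℓ : ℝ) : ℂ) + (t : ℂ) * I)‖ ^ 2 :=
      integral_nonneg fun t => by positivity
    positivity
  refine hfin.trans ?_
  rw [mul_add (1 / L)]
  gcongr

end Pool.Agent.D0H44.MW
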