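import Pool.Agent.D0H44.MW.Bc

/-! The base theorem. -/

set_option autoImplicit false
open Complex Filter Topology MeasureTheory Set Asymptotics
open Pool.Agent.H24R2.DZ (cc rr bb MM mo ph)

namespace Pool.Agent.D0H44.MW

theorem card_le {q : ℕ} [NeZero q] (S : Finset (DirichletCharacter ℂ q)) (hS : S ⊆ ev q) :
    (S.card : ℝ) ≤ Nat.totient q := by
  have h1 : S.card ≤ Fintype.card (DirichletCharacter ℂ q) := Finset.card_le_univ S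
  have h2 : Fintype.card (DirichletCharacter ℂ q) = Nat.totient q := by
    rw [← Nat.card_eq_fintype_card]
    exact DirichletCharacter.card_eq_totient_of_hasEnoughRootsOfUnity ℂ q
  exact_mod_cast h1.trans (le_of_eq h2)

theorem ym_small (ε A : ℝ) (hε : 0 < ε) (hA : 1 / ε ≤ A) (hA0 : 0 < A) (q : ℕ) (hq : 1 < q)
    (hL : 16 / ε ≤ Real.log q) : (ym (Real.log q / A) : ℝ) ≤ (q : ℝ) ^ (ε / 8) := by
  have hq0 : (0 : ℝ) < q := by exact_mod_cast (by omega : 0 < q)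
  have hL0 : 0 < Real.log q := Real.log_pos (by exact_mod_cast hq)
  refine (ym_le _ (by positivity)).trans ?_
  have h1 : (q : ℝ) ^ (ε / 8) = Real.exp (ε / 16 * Real.log q) * Real.exp (ε / 16 * Real.log q) := by
    rw [← Real.exp_add, Real.rpow_def_of_pos hq0]; congr 1; ring
  rw [h1]
  have h2 : (2 : ℝ) ≤ Real.exp (ε / 16 * Real.log q) := by
    have h3 : 1 ≤ ε / 16 * Real.log q := by
      rw [div_le_iff₀ hε] at hL; nlinarith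
    have := Real.add_one_le_exp (ε / 16 * Real.log q)
    linarith
  have h4 : Real.exp (Real.log q / A / 200) ≤ Real.exp (ε / 16 * Real.log q) := by
    apply Real.exp_le_exp.2
    rw [div_le_iff₀ hε] at hA
    have h5 : 1 / A ≤ ε := by rw [div_le_iff₀ hA0]; linarith
    calc Real.log q / A / 200 = (1 / A) * Real.log q / 200 := by ring
      _ ≤ ε * Real.log q / 200 := by gcongr
      _ ≤ _ := by
          have : 0 < ε * Real.log q := by positivity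
          linarith
  gcongr

theorem sum_calc {ι : Type*} (S : Finset ι) (D2 M1 V1 F2 : ι → ℝ) (L τ₁ τ₂ K E C P : ℝ) :
    ∑ χ ∈ S, (1 / L * ((τ₁ * D2 χ + P / τ₁) / 2) +
      1 / L * (K + E * ((τ₂ * M1 χ + C * V1 χ / τ₂) / 2)) + C / L * ((F2 χ + 2 * P) / 2)) =
      1 / L * ((τ₁ * (∑ χ ∈ S, D2 χ) + S.card * (P / τ₁)) / 2) +
      1 / L * (S.card * K + E * ((τ₂ * (∑ χ ∈ S, M1 χ) + C * (∑ χ ∈ S, V1 χ) / τ₂) / 2)) +
      C / L * (((∑ χ ∈ S, F2 χ) + S.card * (2 * P)) / 2) := by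
  have e1 : ∀ χ ∈ S, (1 / L * ((τ₁ * D2 χ + P / τ₁) / 2) +
      1 / L * (K + E * ((τ₂ * M1 χ + C * V1 χ / τ₂) / 2)) + C / L * ((F2 χ + 2 * P) / 2)) =
      (1 / L * τ₁ / 2) * D2 χ + (1 / L * E * τ₂ / 2) * M1 χ + (1 / L * E * C / τ₂ / 2) * V1 χ +
        (C / L / 2) * F2 χ + (1 / L * (P / τ₁) / 2 + 1 / L * K + C / L * P) := fun χ _ => by ring
  rw [Finset.sum_congr rfl e1]
  simp only [Finset.sum_add_distrib, ← Finset.mul_sum, Finset.sum_const, nsmul_eq_mul]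
  ring

theorem p1_lem (L A C' φ n s cd P : ℝ) (hL : 0 < L) (hA : 0 < A) (hφ : 0 < φ) (hn : n ≤ φ)
    (hP0 : 0 < P) (hP : P ≤ 4)
    (hs : s ≤ C' * (L / A) ^ 2 * φ) (hAc : (C' + 4) / A ≤ cd / 4) (hcd : 0 < cd) :
    1 / L * (((A / L) * s + n * (P / (A / L))) / 2) ≤ cd / 4 * φ := by
  have h1 : n * (P / (A / L)) ≤ φ * (4 / (A / L)) := by
    have : P / (A / L) ≤ 4 / (A / L) := by gcongr
    have h2 : 0 ≤ P / (A / L) := by positivity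
    calc n * (P / (A / L)) ≤ φ * (P / (A / L)) := by gcongr
      _ ≤ _ := by gcongr
  calc 1 / L * (((A / L) * s + n * (P / (A / L))) / 2)
      ≤ 1 / L * (((A / L) * (C' * (L / A) ^ 2 * φ) + φ * (4 / (A / L))) / 2) := by gcongr
    _ = ((C' + 4) / A) * φ / 2 := by field_simp
    _ ≤ (cd / 4) * φ / 2 := by gcongr
    _ ≤ cd / 4 * φ := by
        have : 0 < cd / 4 * φ := by positivity
        linarith

theorem p2_lem (L C C' K φ n s cd P : ℝ) (hL : 0 < L) (hC : 0 < C) (hK : 0 < K) (hφ : 0 < φ) (hn : n ≤ φ)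
    (hP0 : 0 < P) (hP : P ≤ 4) (hC' : 0 < C')
    (hs : s ≤ C' * φ) (hN : (K + C * (C' + 8)) / L < cd / 4) :
    1 / L * (n * K) + C / L * ((s + n * (2 * P)) / 2) < cd / 4 * φ := by
  have h1 : n * (2 * P) ≤ φ * 8 := by
    calc n * (2 * P) ≤ φ * (2 * P) := by gcongr
      _ ≤ φ * 8 := by gcongr; linarith
  have h2 : 1 / L * (n * K) + C / L * ((s + n * (2 * P)) / 2) ≤
      1 / L * (φ * K) + C / L * ((C' * φ + φ * 8) / 2) := by gcongr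
  have h3 : 1 / L * (φ * K) + C / L * ((C' * φ + φ * 8) / 2) ≤ (K + C * (C' + 8)) / L * φ := by
    have h4 : (K + C * (C' + 8)) / L * φ = 1 / L * (φ * K) + 2 * (C / L * ((C' * φ + φ * 8) / 2)) := by ring
    have h5 : 0 ≤ C / L * ((C' * φ + φ * 8) / 2) := by positivity
    rw [h4]; linarith
  have h6 : (K + C * (C' + 8)) / L * φ < cd / 4 * φ := by gcongr
  linarith

theorem p3_lem (L r C M G E φ s V cd : ℝ) (hL : 0 < L) (hr : 0 < r) (hE : 0 < E) (hC : 0 < C)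
    (hG : G = E * (M + C)) (hG0 : 0 < G) (hr' : r = cd / (4 * G)) (hs : s ≤ M * φ) (hcd : 0 < cd) (hφ : 0 < φ)
    (hV : V ≤ r ^ 2 * φ * L ^ 2) :
    1 / L * (E * (((r * L) * s + C * V / (r * L)) / 2)) ≤ cd / 4 * φ := by
  calc 1 / L * (E * (((r * L) * s + C * V / (r * L)) / 2))
      ≤ 1 / L * (E * (((r * L) * (M * φ) + C * (r ^ 2 * φ * L ^ 2) / (r * L)) / 2)) := by gcongr
    _ = G * r * φ / 2 := by rw [hG]; field_simp
    _ = cd / 4 * φ / 2 := by rw [hr']; field_simp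
    _ ≤ _ := by
        have : 0 < cd / 4 * φ := by positivity
        linarith

theorem base (hPB : S_PB) (hPHI : S_PHI) (hTL : S_TL) (hDG : S_DG) (hCUT : S_CUT) (hWIN : S_WIN)
    (hLB : S_LB) (hR : S_R) : S_BASE := by
  obtain ⟨c, C, hc, hC, hper⟩ := perchar hTL hDG hCUT hWIN hLB hR
  obtain ⟨C', hC', hms⟩ := msq hPB hPHI
  intro B ε δ hB hε hε1 hδ
  obtain ⟨K, hK, q₀, hper2⟩ := hper B ε hB hε hε1
  have hpi := Real.pi_pos
  have hpi4 : Real.pi ≤ 4 := Real.pi_le_four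
  -- the parameter `A`
  obtain ⟨A, hA⟩ : ∃ A : ℝ, A = 1 / ε + 4 * (C' + 4) / (c * δ) := ⟨_, rfl⟩
  have hAε : 1 / ε ≤ A := by rw [hA]; have : 0 ≤ 4 * (C' + 4) / (c * δ) := by positivity
                             linarith
  have hA1 : 1 ≤ A := by
    have : 1 ≤ 1 / ε := by rw [le_div_iff₀ hε]; linarith
    linarith
  have hA0 : 0 < A := by linarith
  have hAc : (C' + 4) / A ≤ c * δ / 4 := by
    rw [div_le_div_iff₀ hA0 (by norm_num)]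
    have h1 : 4 * (C' + 4) / (c * δ) ≤ A := by rw [hA]; have : 0 < 1 / ε := by positivity
                                               linarith
    rw [div_le_iff₀ (by positivity)] at h1
    linarith
  -- constants
  obtain ⟨E, hE⟩ : ∃ E : ℝ, E = 8 * C / ε * Real.exp ((B + 2) * A) := ⟨_, rfl⟩
  have hE0 : 0 < E := by rw [hE]; positivity
  obtain ⟨G, hG⟩ : ∃ G : ℝ, G = E * (C' * Real.exp (2 * A) + C) := ⟨_, rfl⟩
  have hG0 : 0 < G := by rw [hG]; positivity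
  obtain ⟨r, hr⟩ : ∃ r : ℝ, r = c * δ / (4 * G) := ⟨_, rfl⟩
  have hr0 : 0 < r := by rw [hr]; positivity
  obtain ⟨N, hN⟩ : ∃ N : ℝ, N = K + C * (C' + 8) := ⟨_, rfl⟩
  have hN0 : 0 < N := by rw [hN]; positivity
  -- threshold
  obtain ⟨X, hX⟩ : ∃ X : ℝ, X = max (16 / ε) (max (150 * A) (4 * N / (c * δ) + 1)) := ⟨_, rfl⟩
  refine ⟨r ^ 2, by positivity, max q₀ ⌈Real.exp X⌉₊, ?_⟩
  intro q _ hq hqq Y Y' hY hYY hYB S hS hcard
  have hq1 : (1 : ℝ) < q := by exact_mod_cast hq.one_lt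
  have hq0 : (0 : ℝ) < q := by linarith
  have hqX : X ≤ Real.log q := by
    rw [← Real.log_exp X]
    apply Real.log_le_log (Real.exp_pos _)
    exact (Nat.le_ceil _).trans (by exact_mod_cast (le_max_right _ _).trans hqq)
  have hq₀ : q₀ ≤ q := (le_max_left _ _).trans hqq
  obtain ⟨L, hL⟩ : ∃ L : ℝ, L = Real.log q := ⟨_, rfl⟩
  rw [← hL] at hqX
  have hX1 : 16 / ε ≤ L := (le_max_left _ _).trans (hX ▸ hqX)
  have hX2 : 150 * A ≤ L := ((le_max_left _ _).trans (le_max_right _ _)).trans (hX ▸ hqX)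
  have hX3 : 4 * N / (c * δ) + 1 ≤ L := ((le_max_right _ _).trans (le_max_right _ _)).trans (hX ▸ hqX)
  have hL0 : 0 < L := by nlinarith
  obtain ⟨ℓ, hℓ⟩ : ∃ ℓ : ℝ, ℓ = L / A := ⟨_, rfl⟩
  have hℓ150 : 150 ≤ ℓ := by rw [hℓ, le_div_iff₀ hA0]; exact hX2
  have hℓ0 : 0 < ℓ := by linarith
  have hℓL : ℓ ≤ Real.log q := by rw [← hL, hℓ, div_le_iff₀ hA0]; nlinarith
  have hyq : (ym ℓ : ℝ) ≤ (q : ℝ) ^ (ε / 8) := by
    have := ym_small ε A hε hAε hA0 q hq.one_lt (by rw [← hL]; exact hX1)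
    rwa [← hL, ← hℓ] at this
  have hεL : 8 / ε ≤ Real.log q := by
    rw [← hL]
    have : 8 / ε ≤ 16 / ε := by gcongr; norm_num
    linarith
  obtain ⟨φ, hφ⟩ : ∃ φ : ℝ, φ = Nat.totient q := ⟨_, rfl⟩
  have hφ0 : 0 < φ := by rw [hφ]; exact_mod_cast Nat.totient_pos.2 hq.pos
  have hSφ : (S.card : ℝ) ≤ φ := hφ ▸ card_le S hS
  rw [← hφ] at hcard ⊢
  rw [← hL]
  obtain ⟨m2, m3, m1⟩ := hms q hq ℓ hℓ150 hℓL
  rw [← hφ] at m1 m2 m3
  obtain ⟨V, hV⟩ : ∃ V : ℝ, V = ∑ χ ∈ S, ((∫ v in Y..Y', ‖ps χ v‖ ^ 2 / v ^ 2) + ‖ps χ Y‖ ^ 2 / Y +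
    ‖ps χ Y'‖ ^ 2 / Y') := ⟨_, rfl⟩
  rw [← hV]
  by_contra hcon
  push Not at hcon
  -- sum the inequality over `S`
  obtain ⟨τ₁, hτ₁⟩ : ∃ τ₁ : ℝ, τ₁ = A / L := ⟨_, rfl⟩
  have hτ₁0 : 0 < τ₁ := by rw [hτ₁]; positivity
  obtain ⟨τ₂, hτ₂⟩ : ∃ τ₂ : ℝ, τ₂ = r * L := ⟨_, rfl⟩
  have hτ₂0 : 0 < τ₂ := by rw [hτ₂]; positivity
  obtain ⟨D2, hD2⟩ : ∃ D2 : DirichletCharacter ℂ q → ℝ, D2 = fun χ =>
    ∫ t : ℝ, ‖mellin (DD χ (ym ℓ) (bb (1 / 200) ℓ 0)) (((1 / 2 + 1 / ℓ : ℝ) : ℂ) + (t : ℂ) * I)‖ ^ 2 := ⟨_, rfl⟩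
  obtain ⟨F2, hF2⟩ : ∃ F2 : DirichletCharacter ℂ q → ℝ, F2 = fun χ =>
    ∫ t : ℝ, ‖mellin (FF χ (ym ℓ) (bb (1 / 200) ℓ 0)) (((1 / 2 + 1 / ℓ : ℝ) : ℂ) + (t : ℂ) * I)‖ ^ 2 := ⟨_, rfl⟩
  obtain ⟨M1, hM1⟩ : ∃ M1 : DirichletCharacter ℂ q → ℝ, M1 = fun χ =>
    ∫ t : ℝ, ‖mellin (FF χ (ym ℓ) (bb (1 / 200) ℓ (2 / ℓ : ℝ))) (((1 / 2 : ℝ) : ℂ) + (t : ℂ) * I)‖ ^ 2 := ⟨_, rfl⟩
  obtain ⟨V1, hV1⟩ : ∃ V1 : DirichletCharacter ℂ q → ℝ, V1 = fun χ =>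
    (∫ v in Y..Y', ‖ps χ v‖ ^ 2 / v ^ 2) + ‖ps χ Y‖ ^ 2 / Y + ‖ps χ Y'‖ ^ 2 / Y' := ⟨_, rfl⟩
  have hD20 : ∀ χ, 0 ≤ D2 χ := fun χ => by rw [hD2]; exact integral_nonneg fun t => by positivity
  have hF20 : ∀ χ, 0 ≤ F2 χ := fun χ => by rw [hF2]; exact integral_nonneg fun t => by positivity
  have hM10 : ∀ χ, 0 ≤ M1 χ := fun χ => by rw [hM1]; exact integral_nonneg fun t => by positivity
  have sD : ∑ χ ∈ S, D2 χ ≤ C' * ℓ ^ 2 * φ := by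
    refine (Finset.sum_le_sum_of_subset_of_nonneg hS fun χ _ _ => hD20 χ).trans ?_
    rw [hD2]; exact m3
  have sF : ∑ χ ∈ S, F2 χ ≤ C' * φ := by
    refine (Finset.sum_le_sum_of_subset_of_nonneg hS fun χ _ _ => hF20 χ).trans ?_
    rw [hF2]; exact m2
  have sM : ∑ χ ∈ S, M1 χ ≤ C' * Real.exp (2 * A) * φ := by
    refine (Finset.sum_le_sum_of_subset_of_nonneg hS fun χ _ _ => hM10 χ).trans ?_
    have h1 : (q : ℝ) ^ (2 / ℓ) = Real.exp (2 * A) := by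
      rw [Real.rpow_def_of_pos hq0, ← hL, hℓ]
      congr 1
      field_simp
    rw [← h1, hM1]; exact m1
  have sV : ∑ χ ∈ S, V1 χ = V := by rw [hV1, hV]
  have hEL : 8 * C / ε * Real.exp ((B + 2) * L / ℓ) = E := by
    rw [hE]
    congr 2
    rw [hℓ]
    field_simp
  have hone : ∀ χ ∈ S, c ≤ 1 / L * ((τ₁ * D2 χ + Real.pi / τ₁) / 2) +
      1 / L * (K + E * ((τ₂ * M1 χ + C * V1 χ / τ₂) / 2)) + C / L * ((F2 χ + 2 * Real.pi) / 2) := by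
    intro χ hχ
    have := hper2 q hq hq₀ χ (hS hχ) ℓ Y Y' hℓ150 hℓL hyq hεL hY hYY hYB τ₁ τ₂ hτ₁0 hτ₂0
    rw [← hL, hEL] at this
    rw [hD2, hF2, hM1, hV1]
    exact this
  have hsum := Finset.sum_le_sum hone
  rw [Finset.sum_const, nsmul_eq_mul, sum_calc S D2 M1 V1 F2 L τ₁ τ₂ K E C Real.pi, sV] at hsum
  have hcδ : 0 < c * δ := by positivity
  have hmain : c * (δ * φ) ≤ S.card * c := by
    rw [mul_comm (S.card : ℝ) c]
    exact mul_le_mul_of_nonneg_left hcard hc.le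
  have p1 := p1_lem L A C' φ S.card (∑ χ ∈ S, D2 χ) (c * δ) Real.pi hL0 hA0 hφ0 hSφ hpi hpi4
    (by rw [← hℓ]; exact sD) hAc hcδ
  have hN4 : N / L < c * δ / 4 := by
    rw [div_lt_div_iff₀ hL0 (by norm_num)]
    have h1 : 4 * N / (c * δ) < L := by linarith
    rw [div_lt_iff₀ hcδ] at h1
    linarith
  have p2 := p2_lem L C C' K φ S.card (∑ χ ∈ S, F2 χ) (c * δ) Real.pi hL0 hC hK hφ0 hSφ hpi hpi4 hC' sF
    (by rw [← hN]; exact hN4)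
  have p3 := p3_lem L r C (C' * Real.exp (2 * A)) G E φ (∑ χ ∈ S, M1 χ) V (c * δ) hL0 hr0 hE0 hC hG hG0 hr
    sM hcδ hφ0 hcon.le
  rw [← hτ₁] at p1
  rw [← hτ₂] at p3
  have e2 : 1 / L * (S.card * K + E * ((τ₂ * (∑ χ ∈ S, M1 χ) + C * V / τ₂) / 2)) =
      1 / L * (S.card * K) + 1 / L * (E * ((τ₂ * (∑ χ ∈ S, M1 χ) + C * V / τ₂) / 2)) := mul_add _ _ _
  rw [e2] at hsum
  have hφcδ : 0 < c * δ * φ := by positivity
  have e3 : c * (δ * φ) = c * δ * φ := by ring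
  rw [e3] at hmain
  linarith

end Pool.Agent.D0H44.MW
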