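import Pool.Agent.D0H44.MW.Mc
import Pool.Agent.H471R3.GJ.Dch

/-! The functional equation. -/

set_option autoImplicit false
open Complex Filter Topology MeasureTheory Set Asymptotics
open Pool.Agent.H24R2.DZ (cc rr bb MM)

namespace Pool.Agent.D0H44.MW

theorem prim_prime {q : ℕ} [NeZero q] (hq : q.Prime) {χ : DirichletCharacter ℂ q} (hχ : χ ≠ 1) :
    χ.IsPrimitive := by
  rw [DirichletCharacter.isPrimitive_def]
  rcases (Nat.dvd_prime hq).1 (DirichletCharacter.conductor_dvd_level χ) with h | h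
  · exact absurd ((DirichletCharacter.eq_one_iff_conductor_eq_one).2 h) hχ
  · exact h

theorem PG_th {q : ℕ} (hq : 1 < q) (χ : DirichletCharacter ℂ q) : PG (fun n : ℕ => χ (n : ZMod q)) 1 0 := by
  refine ⟨?_, fun n => ?_⟩
  · have : Nontrivial (ZMod q) := ZMod.nontrivial_iff.2 hq.ne'
    simp only [Nat.cast_zero]
    exact χ.map_zero' hq.ne'
  · rw [pow_zero, one_mul]; exact χ.norm_le_one _

theorem th_hasSum {q : ℕ} [NeZero q] (hq : 1 < q) (χ : DirichletCharacter ℂ q) (hχ : χ.Even) (x : ℝ)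
    (hx : 0 < x) : HasSum (fun n : ℤ => χ (n : ZMod q) *
      ((Real.exp (-(Real.pi * n ^ 2 * (q * x ^ 2) / q)) : ℝ) : ℂ)) (2 * th χ x) := by
  have hq0 : (0 : ℝ) < q := by exact_mod_cast NeZero.pos q
  have h1 := Pool.Agent.H471R3.GJ.Dch.even_side q χ (q * x ^ 2) (by positivity)
  obtain ⟨T, hT⟩ : ∃ T, T = (∑ j : ZMod q, χ j *
        ((HurwitzZeta.evenKernel (((j.val : ℝ) / q : ℝ) : UnitAddCircle) (q * (q * x ^ 2)) : ℝ) : ℂ)) := ⟨_, rfl⟩
  rw [← hT] at h1
  have h2 := Pool.Agent.H471R3.GJ.Dch.half _ ?_ ?_ T h1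
  · have h3 : HasSum (fun n : ℕ => χ (n : ZMod q) * (ga n x : ℂ)) (th χ x) :=
      (TS_summable (PG_th hq χ) x hx).hasSum
    have h4 : HasSum (fun n : ℕ => χ ((n + 1 : ℕ) : ZMod q) * (ga (n + 1) x : ℂ)) (th χ x) := by
      rw [hasSum_nat_add_iff (f := fun n : ℕ => χ (n : ZMod q) * (ga n x : ℂ)) 1]
      simp only [Finset.range_one, Finset.sum_singleton]
      have h0 : χ ((0 : ℕ) : ZMod q) = 0 := (PG_th hq χ).zero
      rw [h0, zero_mul, add_zero]
      exact h3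
    have h5 : T / 2 = th χ x := by
      refine h2.unique (h4.congr_fun fun n => ?_)
      congr 1
      · congr 1; push_cast; ring
      · unfold ga
        congr 2
        push_cast
        field_simp
    have h6 : T = 2 * th χ x := by rw [← h5]; ring
    rw [← h6]; exact h1
  · intro n
    have : χ (((-n : ℤ)) : ZMod q) = χ ((n : ℤ) : ZMod q) := by
      push_cast
      exact DirichletCharacter.Even.eval_neg χ _ hχ
    rw [this]
    congr 3
    push_cast
    ring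
  · have h0 := (PG_th hq χ).zero
    simp only [Nat.cast_zero] at h0
    simp only [Int.cast_zero]
    rw [h0, zero_mul]

theorem th_fe {q : ℕ} [NeZero q] (hq : q.Prime) (χ : DirichletCharacter ℂ q) (h1 : χ ≠ 1) (hχ : χ.Even) :
    ∃ ε : ℂ, ‖ε‖ = 1 ∧ (∀ x : ℝ, 0 < x →
      th χ (1 / (q * x)) = ε * (Real.sqrt q : ℂ) * (x : ℂ) * (starRingEnd ℂ) (th χ x)) := by
  have hq0 : (0 : ℝ) < q := by exact_mod_cast NeZero.pos q
  have hp := prim_prime hq h1
  refine ⟨_, Pool.Agent.H471R3.GJ.Dch.norm_eps q χ hp, fun x hx => ?_⟩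
  have e1 := th_hasSum hq.one_lt χ hχ x hx
  have e2 := th_hasSum hq.one_lt χ hχ (1 / (q * x)) (by positivity)
  have e3 : (q : ℝ) * (1 / (q * x)) ^ 2 = 1 / (q * x ^ 2) := by
    field_simp
  rw [e3] at e2
  have h3 := Pool.Agent.H471R3.GJ.Dch.fe_even q χ hp (q * x ^ 2) (by positivity) _ _ e1 e2
  have e4 : ((q * x ^ 2 : ℝ)) ^ (1 / 2 : ℝ) = Real.sqrt q * x := by
    rw [← Real.sqrt_eq_rpow, Real.sqrt_mul hq0.le, Real.sqrt_sq hx.le]
  rw [e4, map_mul] at h3
  have e5 : (starRingEnd ℂ) (2 : ℂ) = 2 := Complex.conj_ofNat 2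
  rw [e5] at h3
  have h4 : th χ (1 / (q * x)) = 2 * th χ (1 / (q * x)) / 2 := by ring
  rw [h4, h3]
  push_cast
  ring

/-- size of theta near `0` and `∞` -/
theorem th_inf {q : ℕ} (hq : 1 < q) (χ : DirichletCharacter ℂ q) (m : ℕ) (hm : 1 ≤ m) (x : ℝ) (hx : 0 < x) :
    ‖th χ x‖ ≤ 2 * (m.factorial / x ^ (2 * m)) := by
  have := TS_bound (PG_th hq χ) zero_le_one m (by omega) x hx
  rwa [one_mul] at this

theorem th_zero {q : ℕ} [NeZero q] (hq : q.Prime) (χ : DirichletCharacter ℂ q) (h1 : χ ≠ 1) (hχ : χ.Even)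
    (m : ℕ) (hm : 1 ≤ m) (x : ℝ) (hx : 0 < x) :
    ‖th χ x‖ ≤ 1 / (Real.sqrt q * x) * (2 * (m.factorial * (q * x) ^ (2 * m))) := by
  have hq0 : (0 : ℝ) < q := by exact_mod_cast NeZero.pos q
  obtain ⟨ε, he, hfe⟩ := th_fe hq χ h1 hχ
  have h2 := hfe (1 / (q * x)) (by positivity)
  have e1 : 1 / (q * (1 / (q * x))) = x := by field_simp
  rw [e1] at h2
  rw [h2, norm_mul, norm_mul, norm_mul, he, one_mul, Complex.norm_real, Complex.norm_real, RCLike.norm_conj,
    Real.norm_eq_abs, Real.norm_eq_abs, abs_of_nonneg (Real.sqrt_nonneg _), abs_of_pos (by positivity)]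
  have h3 := th_inf hq.one_lt χ m hm (1 / (q * x)) (by positivity)
  have e2 : Real.sqrt q * (1 / (q * x)) = 1 / (Real.sqrt q * x) := by
    have hs : Real.sqrt q * Real.sqrt q = q := Real.mul_self_sqrt hq0.le
    have hs0 : 0 < Real.sqrt q := Real.sqrt_pos.2 hq0
    rw [← hs]
    field_simp
    rw [Real.sqrt_sq hs0.le]
  rw [e2]
  refine mul_le_mul_of_nonneg_left (h3.trans (le_of_eq ?_)) (by positivity)
  rw [one_div, inv_pow, div_inv_eq_mul]

theorem th_MC {q : ℕ} [NeZero q] (hq : q.Prime) (χ : DirichletCharacter ℂ q) (h1 : χ ≠ 1) (hχ : χ.Even)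
    (σ : ℝ) : MC (th χ) σ := by
  have hq0 : (0 : ℝ) < q := by exact_mod_cast NeZero.pos q
  obtain ⟨m, hm⟩ := exists_nat_ge (|σ| + 2)
  have hm1 : 1 ≤ m := by
    have : (1 : ℝ) ≤ m := by linarith [abs_nonneg σ]
    exact_mod_cast this
  have hm2 : |σ| + 2 ≤ 2 * (m : ℝ) - 1 := by
    have : (1 : ℝ) ≤ m := by exact_mod_cast hm1
    linarith [abs_nonneg σ]
  set C1 : ℝ := 2 * m.factorial with hC1
  set C2 : ℝ := 1 / Real.sqrt q * (2 * (m.factorial * (q : ℝ) ^ (2 * m))) with hC2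
  have hC1' : 0 ≤ C1 := by positivity
  have hC2' : 0 ≤ C2 := by positivity
  have b1 : ∀ x : ℝ, 1 ≤ x → ‖th χ x‖ ≤ C1 * x ^ (-(2 * m : ℝ)) := by
    intro x hx
    have h2 := th_inf hq.one_lt χ m hm1 x (by linarith)
    refine h2.trans (le_of_eq ?_)
    rw [Real.rpow_neg (by linarith)]
    have : x ^ (2 * (m : ℝ)) = x ^ (2 * m) := by
      rw [← Real.rpow_natCast x (2 * m)]; push_cast; rfl
    rw [this, hC1]
    ring
  have b2 : ∀ x : ℝ, 0 < x → ‖th χ x‖ ≤ C2 * x ^ (2 * m - 1 : ℝ) := by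
    intro x hx
    have h2 := th_zero hq χ h1 hχ m hm1 x hx
    refine h2.trans (le_of_eq ?_)
    have : x ^ (2 * (m : ℝ) - 1) = x ^ (2 * m) / x := by
      rw [Real.rpow_sub hx, Real.rpow_one, ← Real.rpow_natCast x (2 * m)]; push_cast; rfl
    rw [this, hC2, mul_pow]
    field_simp
  have habs := abs_le.1 (le_refl |σ|)
  refine ⟨TS_cont (PG_th hq.one_lt χ) zero_le_one, C1 + C2, 1, one_pos, fun x hx => ?_, fun x hx => ?_⟩
  · rcases le_or_gt x 1 with hx1 | hx1
    · refine (b2 x hx).trans ?_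
      have h3 : x ^ (2 * m - 1 : ℝ) ≤ x ^ (-σ + 1) :=
        Real.rpow_le_rpow_of_exponent_ge hx hx1 (by linarith)
      have h4 : 0 ≤ x ^ (-σ + 1) := by positivity
      nlinarith
    · refine (b1 x hx1.le).trans ?_
      have h3 : x ^ (-(2 * m : ℝ)) ≤ x ^ (-σ + 1) :=
        Real.rpow_le_rpow_of_exponent_le hx1.le (by linarith)
      have h4 : 0 ≤ x ^ (-σ + 1) := by positivity
      nlinarith
  · rcases le_or_gt x 1 with hx1 | hx1
    · refine (b2 x hx).trans ?_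
      have h3 : x ^ (2 * m - 1 : ℝ) ≤ x ^ (-σ - 1) :=
        Real.rpow_le_rpow_of_exponent_ge hx hx1 (by linarith)
      have h4 : 0 ≤ x ^ (-σ - 1) := by positivity
      nlinarith
    · refine (b1 x hx1.le).trans ?_
      have h3 : x ^ (-(2 * m : ℝ)) ≤ x ^ (-σ - 1) :=
        Real.rpow_le_rpow_of_exponent_le hx1.le (by linarith)
      have h4 : 0 ≤ x ^ (-σ - 1) := by positivity
      nlinarith

/-- identity theorem on a half-plane -/
theorem half_plane {f g : ℂ → ℂ} {σ0 : ℝ} (h0 : σ0 ≤ 1) (hf : ∀ s : ℂ, σ0 < s.re → DifferentiableAt ℂ f s)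
    (hg : ∀ s : ℂ, σ0 < s.re → DifferentiableAt ℂ g s) (h : ∀ s : ℂ, 1 < s.re → f s = g s) :
    ∀ s : ℂ, σ0 < s.re → f s = g s := by
  have ho : IsOpen {s : ℂ | σ0 < s.re} := isOpen_lt continuous_const Complex.continuous_re
  have hc : IsPreconnected {s : ℂ | σ0 < s.re} := (convex_halfSpace_re_gt σ0).isPreconnected
  have hf' : AnalyticOnNhd ℂ f {s : ℂ | σ0 < s.re} :=
    DifferentiableOn.analyticOnNhd (fun s hs => (hf s hs).differentiableWithinAt) ho
  have hg' : AnalyticOnNhd ℂ g {s : ℂ | σ0 < s.re} :=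
    DifferentiableOn.analyticOnNhd (fun s hs => (hg s hs).differentiableWithinAt) ho
  have h2 : (2 : ℂ) ∈ {s : ℂ | σ0 < s.re} := by
    simp only [mem_setOf_eq, Complex.re_ofNat]; linarith
  have h3 := hf'.eqOn_of_preconnected_of_eventuallyEq hg' hc h2 (by
    have : {s : ℂ | 1 < s.re} ∈ 𝓝 (2 : ℂ) :=
      (isOpen_lt continuous_const Complex.continuous_re).mem_nhds (by simp)
    filter_upwards [this] with s hs
    exact h s hs)
  exact fun s hs => h3 hs

theorem th_mellin {q : ℕ} [NeZero q] (hq : q.Prime) (χ : DirichletCharacter ℂ q) (h1 : χ ≠ 1) (hχ : χ.Even)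
    (s : ℂ) : mellin (th χ) s = DirichletCharacter.completedLFunction χ s / 2 := by
  have hd := DirichletCharacter.differentiable_completedLFunction h1
  have key := half_plane (f := mellin (th χ)) (g := fun s => DirichletCharacter.completedLFunction χ s / 2)
    (σ0 := min 1 (s.re - 1)) (min_le_left _ _) (fun z _ => (th_MC hq χ h1 hχ z.re).differentiableAt)
    (fun z _ => (hd z).div_const 2) ?_
  · exact key s (lt_of_le_of_lt (min_le_right _ _) (by linarith))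
  · intro z hz
    have hs : LSeriesSummable (fun n : ℕ => χ (n : ZMod q)) z :=
      DirichletCharacter.LSeriesSummable_of_one_lt_re χ hz
    have h2 := mell_TS (PG_th hq.one_lt χ) z (by linarith) hs
    have h3 := DirichletCharacter.LFunction_eq_LSeries χ hz
    have h4 := DirichletCharacter.LFunction_eq_completed_div_gammaFactor χ z (Or.inr hq.one_lt.ne')
    rw [hχ.gammaFactor_def] at h4
    have h5 : Gammaℝ z ≠ 0 := Gammaℝ_ne_zero_of_re_pos (by linarith)
    show mellin (TS fun n : ℕ => χ (n : ZMod q)) z = _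
    rw [h2, ← h3, h4]
    field_simp

theorem fe : S_FE := by
  intro q _ hq χ h1 hχ
  have hq0 : (0 : ℝ) < q := by exact_mod_cast NeZero.pos q
  obtain ⟨ε, he, hfe⟩ := th_fe hq χ h1 hχ
  refine ⟨⟨ε, he, hfe, fun s => ?_⟩, th_MC hq χ h1 hχ, th_mellin hq χ h1 hχ⟩
  -- `th χ x = ε √q g((q x)⁻¹)` with `g u = u conj (th χ u)`
  have e1 : ∀ x ∈ Ioi (0 : ℝ), th χ x = (ε * (Real.sqrt q : ℂ)) *
      ((fun t : ℝ => (fun u : ℝ => (u : ℂ) ^ (1 : ℂ) • (starRingEnd ℂ) (th χ u)) t⁻¹) (q * x)) := by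
    intro x hx
    have hx0 : (0 : ℝ) < x := hx
    have h2 := hfe (1 / (q * x)) (by positivity)
    have e2 : 1 / (q * (1 / (q * x))) = x := by field_simp
    rw [e2] at h2
    rw [h2]
    simp only [cpow_one, smul_eq_mul, one_div]
    ring
  obtain ⟨G, hG⟩ : ∃ G : ℝ → ℂ, G = fun u : ℝ => (u : ℂ) ^ (1 : ℂ) • (starRingEnd ℂ) (th χ u) := ⟨_, rfl⟩
  have e2 : mellin (th χ) s = mellin (fun x : ℝ => (ε * (Real.sqrt q : ℂ)) *
      ((fun t : ℝ => G t⁻¹) (q * x))) s := by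
    rw [hG]
    unfold mellin
    refine setIntegral_congr_fun measurableSet_Ioi fun x hx => ?_
    simp only
    rw [e1 x hx]
  rw [mellin_smul', mellin_scale' (fun t : ℝ => G t⁻¹) s q hq0, mellin_comp_inv, hG, mellin_cpow_smul,
    mellin_conj] at e2
  rw [th_mellin hq χ h1 hχ, th_mellin hq χ h1 hχ] at e2
  have e3 : (starRingEnd ℂ) (-s + 1) = 1 - (starRingEnd ℂ) s := by
    rw [map_add, map_neg, map_one]; ring
  rw [e3, map_div₀, Complex.conj_ofNat] at e2
  have e4 : ((Real.sqrt q : ℝ) : ℂ) = (q : ℂ) ^ (1 / 2 : ℂ) := by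
    rw [Real.sqrt_eq_rpow, Complex.ofReal_cpow hq0.le]
    norm_num
  have hqc : (q : ℂ) ≠ 0 := by exact_mod_cast hq0.ne'
  have e5 : (q : ℂ) ^ (1 / 2 - s) = (q : ℂ) ^ (1 / 2 : ℂ) * (q : ℂ) ^ (-s) := by
    rw [← Complex.cpow_add _ _ hqc]; ring_nf
  rw [e5]
  have e6 : DirichletCharacter.completedLFunction χ s = 2 * (DirichletCharacter.completedLFunction χ s / 2) := by
    ring
  rw [e6, e2, e4]
  push_cast
  ring

end Pool.Agent.D0H44.MW
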