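import Mathlib

/-! Theta series with arbitrary coefficients. -/

set_option autoImplicit false
open Complex Filter Topology MeasureTheory Set

namespace Pool.Agent.D0H44.MW

/-- `exp (- π n² x²)` -/
noncomputable def ga (n : ℕ) (x : ℝ) : ℝ := Real.exp (-(Real.pi * (n : ℝ) ^ 2 * x ^ 2))

/-- the theta series with coefficients `a` -/
noncomputable def TS (a : ℕ → ℂ) (x : ℝ) : ℂ := ∑' n : ℕ, a n * (ga n x : ℂ)

/-- polynomial growth -/
structure PG (a : ℕ → ℂ) (C : ℝ) (j : ℕ) : Prop where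
  zero : a 0 = 0
  bd : ∀ n : ℕ, ‖a n‖ ≤ C * (n : ℝ) ^ j

theorem ga_pos (n : ℕ) (x : ℝ) : 0 < ga n x := Real.exp_pos _

theorem ga_le_one (n : ℕ) (x : ℝ) : ga n x ≤ 1 := by
  unfold ga
  apply Real.exp_le_one_iff.mpr
  have : 0 ≤ Real.pi * (n : ℝ) ^ 2 * x ^ 2 := by positivity
  linarith

theorem ga_mul (h n : ℕ) (x : ℝ) : ga n (h * x) = ga (h * n) x := by
  unfold ga
  congr 1
  push_cast
  ring

theorem gauss_pow (m : ℕ) (v : ℝ) (hv : 0 < v) :
    Real.exp (-(Real.pi * v ^ 2)) ≤ (m.factorial : ℝ) / v ^ (2 * m) := by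
  have h1 := Real.pow_div_factorial_le_exp (v ^ 2) (by positivity) m
  have h2 : Real.exp (v ^ 2) ≤ Real.exp (Real.pi * v ^ 2) := by
    apply Real.exp_le_exp.mpr
    have := Real.pi_gt_three
    nlinarith [sq_nonneg v]
  rw [Real.exp_neg, pow_mul, inv_eq_one_div, div_le_div_iff₀ (Real.exp_pos _) (by positivity), one_mul]
  have h3 := h1.trans h2
  rw [div_le_iff₀ (by positivity)] at h3
  linarith

theorem ga_pow (m n : ℕ) (x : ℝ) (hn : 1 ≤ n) (hx : 0 < x) :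
    ga n x ≤ (m.factorial : ℝ) / (n * x) ^ (2 * m) := by
  have hn0 : (0 : ℝ) < n := by exact_mod_cast hn
  have h := gauss_pow m (n * x) (by positivity)
  unfold ga
  rw [mul_assoc, ← mul_pow]
  exact h

theorem sum_inv_sq : Summable (fun n : ℕ => ((n : ℝ) ^ 2)⁻¹) ∧ ∑' n : ℕ, ((n : ℝ) ^ 2)⁻¹ ≤ 2 := by
  have h := hasSum_zeta_two
  have h2 : HasSum (fun n : ℕ => ((n : ℝ) ^ 2)⁻¹) (Real.pi ^ 2 / 6) := by
    refine h.congr_fun fun n => ?_
    rw [one_div]
  refine ⟨h2.summable, ?_⟩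
  rw [h2.tsum_eq]
  have := Real.pi_lt_d2
  have := Real.pi_pos
  nlinarith

theorem term_le {a : ℕ → ℂ} {C : ℝ} {j : ℕ} (h : PG a C j) (m : ℕ) (hm : j + 1 ≤ m) (x : ℝ)
    (hx : 0 < x) (n : ℕ) : ‖a n * (ga n x : ℂ)‖ ≤
      (C * m.factorial / x ^ (2 * m)) * ((n : ℝ) ^ 2)⁻¹ := by
  rcases Nat.eq_zero_or_pos n with hn | hn
  · rw [hn, h.zero]
    simp
  · have hn0 : (0 : ℝ) < n := by exact_mod_cast hn
    have hn1 : (1 : ℝ) ≤ n := by exact_mod_cast hn
    have hC : 0 ≤ C * (n : ℝ) ^ j := (norm_nonneg _).trans (h.bd n)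
    rw [norm_mul, Complex.norm_real, Real.norm_of_nonneg (ga_pos n x).le]
    calc ‖a n‖ * ga n x ≤ (C * (n : ℝ) ^ j) * ((m.factorial : ℝ) / (n * x) ^ (2 * m)) :=
          mul_le_mul (h.bd n) (ga_pow m n x hn hx) (ga_pos n x).le hC
      _ = (C * m.factorial / x ^ (2 * m)) * ((n : ℝ) ^ j / (n : ℝ) ^ (2 * m)) := by
          rw [mul_pow]
          field_simp
      _ ≤ (C * m.factorial / x ^ (2 * m)) * ((n : ℝ) ^ 2)⁻¹ := by
          have hC0 : 0 ≤ C := by
            by_contra hc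
            push Not at hc
            have : C * (n : ℝ) ^ j < 0 := mul_neg_of_neg_of_pos hc (by positivity)
            linarith
          apply mul_le_mul_of_nonneg_left _ (by positivity)
          rw [div_le_iff₀ (by positivity), inv_mul_eq_div, le_div_iff₀ (by positivity), ← pow_add]
          exact pow_le_pow_right₀ hn1 (by omega)

theorem TS_summable {a : ℕ → ℂ} {C : ℝ} {j : ℕ} (h : PG a C j) (x : ℝ) (hx : 0 < x) :
    Summable (fun n => a n * (ga n x : ℂ)) :=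
  Summable.of_norm_bounded (sum_inv_sq.1.mul_left (C * (j + 1).factorial / x ^ (2 * (j + 1))))
    (term_le h (j + 1) le_rfl x hx)

theorem TS_bound {a : ℕ → ℂ} {C : ℝ} {j : ℕ} (h : PG a C j) (hC : 0 ≤ C) (m : ℕ) (hm : j + 1 ≤ m)
    (x : ℝ) (hx : 0 < x) : ‖TS a x‖ ≤ 2 * (C * m.factorial / x ^ (2 * m)) := by
  have h1 := tsum_of_norm_bounded
    ((sum_inv_sq.1.mul_left (C * m.factorial / x ^ (2 * m))).hasSum) (term_le h m hm x hx)
  rw [tsum_mul_left] at h1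
  refine h1.trans ?_
  rw [mul_comm]
  exact mul_le_mul_of_nonneg_right sum_inv_sq.2 (by positivity)

theorem TS_cont {a : ℕ → ℂ} {C : ℝ} {j : ℕ} (h : PG a C j) (hC : 0 ≤ C) :
    ContinuousOn (TS a) (Ioi 0) := by
  apply continuousOn_of_forall_continuousAt
  intro x hx
  have hx0 : 0 < x := hx
  have h1 : ContinuousOn (TS a) (Ioi (x / 2)) := by
    unfold TS
    apply continuousOn_tsum (u := fun n : ℕ => (C * (j + 1).factorial / (x / 2) ^ (2 * (j + 1))) *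
      ((n : ℝ) ^ 2)⁻¹)
    · intro n
      apply Continuous.continuousOn
      unfold ga
      fun_prop
    · exact sum_inv_sq.1.mul_left _
    · intro n y hy
      have hy0 : x / 2 < y := hy
      refine (term_le h (j + 1) le_rfl y (by linarith) n).trans ?_
      gcongr
  exact h1.continuousAt (Ioi_mem_nhds (by linarith))

theorem TS_scale (a : ℕ → ℂ) (h : ℕ) (hh : 1 ≤ h) (x : ℝ) :
    TS a (h * x) = TS (fun n => if h ∣ n then a (n / h) else 0) x := by
  unfold TS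
  have hinj : Function.Injective (fun m : ℕ => h * m) := by
    intro u v huv
    simp only at huv
    exact Nat.eq_of_mul_eq_mul_left (by omega) huv
  have h1 := hinj.tsum_eq (f := fun n : ℕ => (if h ∣ n then a (n / h) else 0) * (ga n x : ℂ)) (by
    intro n hn
    rw [Function.mem_support] at hn
    by_cases hd : h ∣ n
    · obtain ⟨m, hm⟩ := hd
      exact ⟨m, hm.symm⟩
    · rw [if_neg hd, zero_mul] at hn
      exact absurd rfl hn)
  rw [← h1]
  refine tsum_congr fun m => ?_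
  rw [if_pos (Dvd.intro _ rfl), Nat.mul_div_cancel_left _ (by omega), ga_mul]

theorem PG_scale {a : ℕ → ℂ} {C : ℝ} {j : ℕ} (h : PG a C j) (hC : 0 ≤ C) (d : ℕ) :
    PG (fun n => if d ∣ n then a (n / d) else 0) C j := by
  refine ⟨?_, fun n => ?_⟩
  · rw [if_pos (dvd_zero d), Nat.zero_div, h.zero]
  · split_ifs with hd
    · refine (h.bd _).trans ?_
      have : ((n / d : ℕ) : ℝ) ≤ n := by exact_mod_cast Nat.div_le_self n d
      gcongr
    · rw [norm_zero]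
      positivity

theorem TS_comb {a : ℕ → ℂ} {C : ℝ} {j : ℕ} (h : PG a C j) (hC : 0 ≤ C) (S : Finset ℕ)
    (hS : ∀ d ∈ S, 1 ≤ d) (β : ℕ → ℂ) (x : ℝ) (hx : 0 < x) :
    ∑ d ∈ S, β d * TS a (d * x) =
      TS (fun n => ∑ d ∈ S.filter (fun d => d ∣ n), β d * a (n / d)) x := by
  have h1 : ∀ d ∈ S, β d * TS a (d * x) =
      ∑' n : ℕ, β d * ((if d ∣ n then a (n / d) else 0) * (ga n x : ℂ)) := by
    intro d hd
    rw [TS_scale a d (hS d hd) x, tsum_mul_left]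
    rfl
  rw [Finset.sum_congr rfl h1, ← Summable.tsum_finsetSum]
  · unfold TS
    refine tsum_congr fun n => ?_
    beta_reduce
    rw [Finset.sum_filter, Finset.sum_mul]
    refine Finset.sum_congr rfl fun d _ => ?_
    split_ifs <;> ring
  · intro d _
    exact (TS_summable (PG_scale h hC d) x hx).mul_left _

theorem tail_sum (x : ℝ) (hx : 1 ≤ x) (n : ℕ) (hn : 2 ≤ n) :
    (n : ℝ) * ga n x ≤ Real.exp (-(Real.pi * x ^ 2)) * (1 / 1000 * (1 / 2) ^ n) := by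
  have hn2 : (2 : ℝ) ≤ n := by exact_mod_cast hn
  have h1 : ga n x = Real.exp (-(Real.pi * x ^ 2)) * Real.exp (-(Real.pi * ((n : ℝ) ^ 2 - 1) * x ^ 2)) := by
    unfold ga
    rw [← Real.exp_add]
    congr 1; ring
  have h2 : Real.exp (-(Real.pi * ((n : ℝ) ^ 2 - 1) * x ^ 2)) ≤ Real.exp (-(9 * ((n : ℝ) - 1))) := by
    apply Real.exp_le_exp.mpr
    have h3 := Real.pi_gt_three
    have h4 : 3 * ((n : ℝ) - 1) ≤ (n : ℝ) ^ 2 - 1 := by nlinarith
    have h5 : 1 ≤ x ^ 2 := by nlinarith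
    have h6 : 9 * ((n : ℝ) - 1) ≤ Real.pi * ((n : ℝ) ^ 2 - 1) := by nlinarith
    have h7 : 0 ≤ Real.pi * ((n : ℝ) ^ 2 - 1) := by nlinarith
    nlinarith
  have h3 : (n : ℝ) * Real.exp (-(9 * ((n : ℝ) - 1))) ≤ 1 / 1000 * (1 / 2) ^ n := by
    obtain ⟨m, rfl⟩ : ∃ m, n = m + 2 := ⟨n - 2, by omega⟩
    have e1 : Real.exp (-(9 * (((m + 2 : ℕ) : ℝ) - 1))) = Real.exp (-9) * Real.exp (-9) ^ m := by
      rw [← Real.exp_nat_mul, ← Real.exp_add]
      congr 1; push_cast; ring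
    have e2 : Real.exp (-9) ≤ 1 / 8000 := by
      rw [Real.exp_neg, inv_eq_one_div]
      apply one_div_le_one_div_of_le (by norm_num)
      have : Real.exp 9 = Real.exp 1 ^ 9 := by rw [← Real.exp_nat_mul]; norm_num
      rw [this]
      have h9 : (2.7182 : ℝ) ≤ Real.exp 1 := by
        have := Real.exp_one_gt_d9
        linarith
      calc (8000 : ℝ) ≤ 2.7182 ^ 9 := by norm_num
        _ ≤ _ := pow_le_pow_left₀ (by norm_num) h9 9
    have e3 : (((m + 2 : ℕ) : ℝ)) ≤ 2 * 2 ^ m := by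
      have h4 : m + 1 < 2 ^ (m + 1) := Nat.lt_two_pow_self
      have h5 : m + 2 ≤ 2 * 2 ^ m := by
        rw [pow_succ] at h4
        omega
      exact_mod_cast h5
    have e4 : Real.exp (-9) ^ m ≤ (1 / 4) ^ m :=
      pow_le_pow_left₀ (Real.exp_pos _).le (by linarith) m
    rw [e1]
    calc ((m + 2 : ℕ) : ℝ) * (Real.exp (-9) * Real.exp (-9) ^ m) ≤
          (2 * 2 ^ m) * (1 / 8000 * (1 / 4) ^ m) := by gcongr
      _ = 1 / 4000 * (2 * (1 / 4)) ^ m := by rw [mul_pow]; ring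
      _ = 1 / 1000 * (1 / 2) ^ (m + 2) := by
          rw [pow_add]; norm_num; ring
  calc (n : ℝ) * ga n x = Real.exp (-(Real.pi * x ^ 2)) * ((n : ℝ) *
        Real.exp (-(Real.pi * ((n : ℝ) ^ 2 - 1) * x ^ 2))) := by rw [h1]; ring
    _ ≤ Real.exp (-(Real.pi * x ^ 2)) * ((n : ℝ) * Real.exp (-(9 * ((n : ℝ) - 1)))) := by gcongr
    _ ≤ _ := by gcongr

/-- the first term dominates for `x ≥ 1` -/
theorem TS_first {a : ℕ → ℂ} (h0 : a 0 = 0) (h : ∀ n, ‖a n‖ ≤ n) (x : ℝ) (hx : 1 ≤ x) :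
    ‖TS a x - a 1 * (Real.exp (-(Real.pi * x ^ 2)) : ℂ)‖ ≤ 1 / 1000 * Real.exp (-(Real.pi * x ^ 2)) := by
  have hPG : PG a 1 1 := ⟨h0, fun n => by rw [one_mul, pow_one]; exact h n⟩
  have hs := TS_summable hPG x (by linarith)
  have h1 := hs.sum_add_tsum_nat_add 2
  have h2 : ∑ i ∈ Finset.range 2, a i * (ga i x : ℂ) = a 1 * (Real.exp (-(Real.pi * x ^ 2)) : ℂ) := by
    rw [Finset.sum_range_succ, Finset.sum_range_one, h0, zero_mul, zero_add]
    unfold ga
    norm_num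
  rw [h2] at h1
  have h3 : TS a x - a 1 * (Real.exp (-(Real.pi * x ^ 2)) : ℂ) = ∑' i : ℕ, a (i + 2) * (ga (i + 2) x : ℂ) := by
    unfold TS
    rw [← h1]
    ring
  rw [h3]
  have hg : HasSum (fun i : ℕ => Real.exp (-(Real.pi * x ^ 2)) * (1 / 1000 * (1 / 4)) * (1 / 2 : ℝ) ^ i)
      (Real.exp (-(Real.pi * x ^ 2)) * (1 / 1000 * (1 / 4)) * 2) := by
    apply HasSum.mul_left
    exact hasSum_geometric_two
  have h4 := tsum_of_norm_bounded (f := fun i : ℕ => a (i + 2) * (ga (i + 2) x : ℂ)) hg (fun i => by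
    rw [norm_mul, Complex.norm_real, Real.norm_of_nonneg (ga_pos _ x).le]
    refine (mul_le_mul_of_nonneg_right (h (i + 2)) (ga_pos _ x).le).trans ?_
    refine (tail_sum x hx (i + 2) (by omega)).trans (le_of_eq ?_)
    rw [pow_add]
    ring)
  refine h4.trans ?_
  have := Real.exp_pos (-(Real.pi * x ^ 2))
  nlinarith

end Pool.Agent.D0H44.MW
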