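import Pool.Agent.D0H44.MW.Stm

/-! Closure properties of the class `MC`, Mellin transforms of theta series. -/

set_option autoImplicit false
open Complex Filter Topology MeasureTheory Set Asymptotics
open Pool.Agent.H24R2.DZ (cc rr bb MM)

namespace Pool.Agent.D0H44.MW

theorem MC.zero (σ : ℝ) : MC (fun _ => (0 : ℂ)) σ :=
  ⟨continuousOn_const, 1, 1, one_pos, fun x hx => by rw [norm_zero]; positivity,
    fun x hx => by rw [norm_zero]; positivity⟩

/-- weakening of the exponent -/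
theorem MC.bd_le {F : ℝ → ℂ} {C m m' σ : ℝ} (hm' : 0 < m') (hmm : m' ≤ m)
    (h1 : ∀ x, 0 < x → ‖F x‖ ≤ C * x ^ (-σ + m)) (h2 : ∀ x, 0 < x → ‖F x‖ ≤ C * x ^ (-σ - m)) :
    (∀ x, 0 < x → ‖F x‖ ≤ C * x ^ (-σ + m')) ∧ ∀ x, 0 < x → ‖F x‖ ≤ C * x ^ (-σ - m') := by
  have hC : 0 ≤ C := by
    have := h1 1 one_pos
    rw [Real.one_rpow, mul_one] at this
    exact (norm_nonneg _).trans this
  constructor
  · intro x hx
    rcases le_or_gt x 1 with hx1 | hx1
    · refine (h1 x hx).trans (mul_le_mul_of_nonneg_left ?_ hC)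
      exact Real.rpow_le_rpow_of_exponent_ge hx hx1 (by linarith)
    · refine (h2 x hx).trans (mul_le_mul_of_nonneg_left ?_ hC)
      exact Real.rpow_le_rpow_of_exponent_le hx1.le (by linarith)
  · intro x hx
    rcases le_or_gt x 1 with hx1 | hx1
    · refine (h1 x hx).trans (mul_le_mul_of_nonneg_left ?_ hC)
      exact Real.rpow_le_rpow_of_exponent_ge hx hx1 (by linarith)
    · refine (h2 x hx).trans (mul_le_mul_of_nonneg_left ?_ hC)
      exact Real.rpow_le_rpow_of_exponent_le hx1.le (by linarith)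

theorem MC.add {F G : ℝ → ℂ} {σ : ℝ} (hF : MC F σ) (hG : MC G σ) : MC (fun x => F x + G x) σ := by
  obtain ⟨C, m, hm, h1, h2⟩ := hF.bd
  obtain ⟨C', m', hm', h1', h2'⟩ := hG.bd
  obtain ⟨a1, a2⟩ := MC.bd_le (m' := min m m') (lt_min hm hm') (min_le_left _ _) h1 h2
  obtain ⟨b1, b2⟩ := MC.bd_le (m' := min m m') (lt_min hm hm') (min_le_right _ _) h1' h2'
  refine ⟨hF.cont.add hG.cont, C + C', min m m', lt_min hm hm', fun x hx => ?_, fun x hx => ?_⟩
  · refine (norm_add_le _ _).trans ?_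
    rw [add_mul]; exact add_le_add (a1 x hx) (b1 x hx)
  · refine (norm_add_le _ _).trans ?_
    rw [add_mul]; exact add_le_add (a2 x hx) (b2 x hx)

theorem MC.smul {F : ℝ → ℂ} {σ : ℝ} (hF : MC F σ) (c : ℂ) : MC (fun x => c * F x) σ := by
  obtain ⟨C, m, hm, h1, h2⟩ := hF.bd
  refine ⟨continuousOn_const.mul hF.cont, ‖c‖ * C, m, hm, fun x hx => ?_, fun x hx => ?_⟩
  · rw [norm_mul, mul_assoc]; exact mul_le_mul_of_nonneg_left (h1 x hx) (norm_nonneg _)
  · rw [norm_mul, mul_assoc]; exact mul_le_mul_of_nonneg_left (h2 x hx) (norm_nonneg _)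

theorem MC.sub {F G : ℝ → ℂ} {σ : ℝ} (hF : MC F σ) (hG : MC G σ) : MC (fun x => F x - G x) σ := by
  have h := hF.add (hG.smul (-1))
  refine ⟨h.cont.congr fun x _ => by ring, ?_⟩
  obtain ⟨C, m, hm, h1, h2⟩ := h.bd
  refine ⟨C, m, hm, fun x hx => ?_, fun x hx => ?_⟩
  · have := h1 x hx
    rwa [neg_one_mul, ← sub_eq_add_neg] at this
  · have := h2 x hx
    rwa [neg_one_mul, ← sub_eq_add_neg] at this

theorem MC.scale {F : ℝ → ℂ} {σ : ℝ} (hF : MC F σ) (h : ℝ) (hh : 0 < h) : MC (fun x => F (h * x)) σ := by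
  obtain ⟨C, m, hm, h1, h2⟩ := hF.bd
  have hC : 0 ≤ C := by
    have := h1 1 one_pos
    rw [Real.one_rpow, mul_one] at this
    exact (norm_nonneg _).trans this
  refine ⟨hF.cont.comp (by fun_prop) (fun x hx => mul_pos hh hx),
    C * (h ^ (-σ + m) + h ^ (-σ - m)), m, hm, fun x hx => ?_, fun x hx => ?_⟩
  · refine (h1 (h * x) (mul_pos hh hx)).trans ?_
    rw [Real.mul_rpow hh.le hx.le, mul_assoc]
    refine mul_le_mul_of_nonneg_left ?_ hC
    refine mul_le_mul_of_nonneg_right ?_ (by positivity)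
    have : 0 ≤ h ^ (-σ - m) := by positivity
    linarith
  · refine (h2 (h * x) (mul_pos hh hx)).trans ?_
    rw [Real.mul_rpow hh.le hx.le, mul_assoc]
    refine mul_le_mul_of_nonneg_left ?_ hC
    refine mul_le_mul_of_nonneg_right ?_ (by positivity)
    have : 0 ≤ h ^ (-σ + m) := by positivity
    linarith

theorem MC.sum {ι : Type*} (S : Finset ι) (F : ι → ℝ → ℂ) {σ : ℝ} (h : ∀ i ∈ S, MC (F i) σ) :
    MC (fun x => ∑ i ∈ S, F i x) σ := by
  classical
  induction S using Finset.induction_on with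
  | empty => simpa using MC.zero σ
  | insert a S ha ih =>
    have h1 := (h a (Finset.mem_insert_self _ _)).add (ih fun i hi => h i (Finset.mem_insert_of_mem hi))
    simpa only [Finset.sum_insert ha] using h1

theorem MC.isBigO {F : ℝ → ℂ} {σ : ℝ} (h : MC F σ) : ∃ m : ℝ, 0 < m ∧
    F =O[atTop] (fun x : ℝ => x ^ (-(σ + m))) ∧ F =O[𝓝[>] 0] (fun x : ℝ => x ^ (-(σ - m))) := by
  obtain ⟨C, m, hm, h1, h2⟩ := h.bd
  refine ⟨m, hm, ?_, ?_⟩
  · refine IsBigO.of_bound C ?_
    filter_upwards [eventually_gt_atTop 0] with x hx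
    rw [Real.norm_eq_abs, abs_of_nonneg (Real.rpow_nonneg hx.le _)]
    have := h2 x hx
    rwa [show -(σ + m) = -σ - m by ring]
  · refine IsBigO.of_bound C ?_
    filter_upwards [self_mem_nhdsWithin] with x hx
    have hx0 : 0 < x := hx
    rw [Real.norm_eq_abs, abs_of_nonneg (Real.rpow_nonneg hx0.le _)]
    have := h1 x hx
    rwa [show -(σ - m) = -σ + m by ring]

theorem MC.convergent {F : ℝ → ℂ} {s : ℂ} (h : MC F s.re) : MellinConvergent F s := by
  obtain ⟨m, hm, h1, h2⟩ := h.isBigO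
  exact mellinConvergent_of_isBigO_rpow (h.cont.locallyIntegrableOn measurableSet_Ioi) h1 (by linarith) h2
    (by linarith)

theorem MC.differentiableAt {F : ℝ → ℂ} {s : ℂ} (h : MC F s.re) : DifferentiableAt ℂ (mellin F) s := by
  obtain ⟨m, hm, h1, h2⟩ := h.isBigO
  exact mellin_differentiableAt_of_isBigO_rpow (h.cont.locallyIntegrableOn measurableSet_Ioi) h1
    (by linarith) h2 (by linarith)

theorem MC.hasDerivAt {F : ℝ → ℂ} {s : ℂ} (h : MC F s.re) :
    HasDerivAt (mellin F) (mellin (fun t => (Real.log t : ℂ) * F t) s) s := by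
  obtain ⟨m, hm, h1, h2⟩ := h.isBigO
  have := (mellin_hasDerivAt_of_isBigO_rpow (h.cont.locallyIntegrableOn measurableSet_Ioi) h1
    (by linarith) h2 (by linarith : s.re - m < s.re)).2
  simpa only [Complex.real_smul] using this

theorem mellin_add' {F G : ℝ → ℂ} {s : ℂ} (hF : MC F s.re) (hG : MC G s.re) :
    mellin (fun x => F x + G x) s = mellin F s + mellin G s := by
  have h1 := hF.convergent
  have h2 := hG.convergent
  unfold MellinConvergent at h1 h2
  unfold mellin
  rw [← integral_add h1 h2]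
  refine setIntegral_congr_fun measurableSet_Ioi fun t _ => ?_
  simp only [smul_add]

theorem mellin_smul' (F : ℝ → ℂ) (s c : ℂ) : mellin (fun x => c * F x) s = c * mellin F s := by
  have := mellin_const_smul F s c
  simpa only [smul_eq_mul] using this

theorem mellin_sub' {F G : ℝ → ℂ} {s : ℂ} (hF : MC F s.re) (hG : MC G s.re) :
    mellin (fun x => F x - G x) s = mellin F s - mellin G s := by
  have h1 := mellin_add' hF (hG.smul (-1))
  rw [mellin_smul'] at h1
  have h2 : (fun x => F x - G x) = fun x => F x + -1 * G x := by funext x; ring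
  rw [h2, h1]; ring

theorem mellin_sum' {ι : Type*} (S : Finset ι) (F : ι → ℝ → ℂ) {s : ℂ} (h : ∀ i ∈ S, MC (F i) s.re) :
    mellin (fun x => ∑ i ∈ S, F i x) s = ∑ i ∈ S, mellin (F i) s := by
  classical
  induction S using Finset.induction_on with
  | empty => simp [mellin]
  | insert a S ha ih =>
    have h1 := mellin_add' (h a (Finset.mem_insert_self _ _))
      (MC.sum S F fun i hi => h i (Finset.mem_insert_of_mem hi))
    have h2 : (fun x => ∑ i ∈ insert a S, F i x) = fun x => F a x + ∑ i ∈ S, F i x := by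
      funext x; rw [Finset.sum_insert ha]
    rw [h2, h1, ih fun i hi => h i (Finset.mem_insert_of_mem hi), Finset.sum_insert ha]

theorem mellin_scale' (F : ℝ → ℂ) (s : ℂ) (h : ℝ) (hh : 0 < h) :
    mellin (fun x => F (h * x)) s = (h : ℂ) ^ (-s) * mellin F s := by
  have := mellin_comp_mul_left F s hh
  simpa only [smul_eq_mul] using this

theorem mellin_conj (F : ℝ → ℂ) (s : ℂ) :
    mellin (fun x => (starRingEnd ℂ) (F x)) s = (starRingEnd ℂ) (mellin F ((starRingEnd ℂ) s)) := by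
  unfold mellin
  rw [← integral_conj]
  refine setIntegral_congr_fun measurableSet_Ioi fun t ht => ?_
  have ht0 : 0 < t := ht
  simp only [smul_eq_mul, map_mul]
  congr 1
  have harg : (t : ℂ).arg ≠ Real.pi := by
    rw [Complex.arg_ofReal_of_nonneg ht0.le]; exact Real.pi_pos.ne
  have h1 := Complex.cpow_conj (t : ℂ) (s - 1) harg
  rw [Complex.conj_ofReal, map_sub, map_one] at h1
  rw [h1, Complex.conj_conj]

/-- Mellin transform of `TS a` in the region of absolute convergence -/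
theorem mell_TS {a : ℕ → ℂ} {C : ℝ} {j : ℕ} (h : PG a C j) (s : ℂ) (hs : 0 < s.re) (hL : LSeriesSummable a s) :
    mellin (TS a) s = Gammaℝ s * LSeries a s / 2 := by
  have h1 : HasSum (fun n : ℕ ↦ Gammaℝ s * a n / ((|(n : ℝ)| : ℝ) : ℂ) ^ s)
      (mellin (fun t : ℝ => TS a (t ^ (1 / 2 : ℝ))) (s / 2)) := by
    refine hasSum_mellin_pi_mul_sq (r := fun n : ℕ => (n : ℝ)) hs ?_ ?_
    · intro t ht
      have ht0 : 0 < t := ht
      have h2 := (TS_summable h (t ^ (1 / 2 : ℝ)) (by positivity)).hasSum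
      have h3 : ∑' n : ℕ, a n * (ga n (t ^ (1 / 2 : ℝ)) : ℂ) = TS a (t ^ (1 / 2 : ℝ)) := rfl
      rw [h3] at h2
      refine h2.congr_fun fun n => ?_
      split_ifs with hn
      · have : n = 0 := by exact_mod_cast hn
        rw [this, h.zero, zero_mul]
      · unfold ga
        congr 3
        rw [← Real.sqrt_eq_rpow, Real.sq_sqrt ht0.le]
        ring
    · have h2 := hL.norm
      refine h2.congr fun n => ?_
      rcases Nat.eq_zero_or_pos n with rfl | hn
      · simp [h.zero]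
      · rw [LSeries.norm_term_eq, if_neg hn.ne', abs_of_nonneg (Nat.cast_nonneg n)]
  have h2 := mellin_comp_rpow (TS a) (s / 2) (1 / 2)
  rw [h2] at h1
  have e1 : s / 2 / ((1 / 2 : ℝ) : ℂ) = s := by push_cast; ring
  have e2 : |(1 / 2 : ℝ)|⁻¹ = 2 := by rw [abs_of_pos (by norm_num)]; norm_num
  rw [e1, e2] at h1
  have h3 : HasSum (fun n : ℕ ↦ Gammaℝ s * a n / ((|(n : ℝ)| : ℝ) : ℂ) ^ s) (Gammaℝ s * LSeries a s) := by
    have h4 := hL.hasSum.mul_left (Gammaℝ s)
    refine h4.congr_fun fun n => ?_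
    rcases Nat.eq_zero_or_pos n with rfl | hn
    · simp [h.zero]
    · rw [LSeries.term_of_ne_zero hn.ne', abs_of_nonneg (Nat.cast_nonneg n)]
      push_cast
      ring
  have h4 := h1.unique h3
  rw [← h4, Complex.real_smul]
  push_cast
  ring

end Pool.Agent.D0H44.MW
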