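import Pool.Agent.Helper76.HPlanch

/-! Parseval's formula for the Mellin transform. -/

set_option autoImplicit false
open Complex Filter Topology MeasureTheory Set FourierTransform
open scoped ENNReal

namespace Pool.Agent.D0H44.MW

/-- the conditions on `F` on the line `Re s = σ` -/
structure MC (F : ℝ → ℂ) (σ : ℝ) : Prop where
  cont : ContinuousOn F (Ioi 0)
  bd : ∃ C m : ℝ, 0 < m ∧ (∀ x, 0 < x → ‖F x‖ ≤ C * x ^ (-σ + m)) ∧
    ∀ x, 0 < x → ‖F x‖ ≤ C * x ^ (-σ - m)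

/-- `e^{-σu} F(e^{-u})` -/
noncomputable def gg (F : ℝ → ℂ) (σ u : ℝ) : ℂ := (Real.exp (-σ * u) : ℂ) * F (Real.exp (-u))

theorem gg_cont {F : ℝ → ℂ} {σ : ℝ} (h : MC F σ) : Continuous (gg F σ) := by
  unfold gg
  apply Continuous.mul (by fun_prop)
  exact h.cont.comp_continuous (by fun_prop) (fun u => Real.exp_pos _)

theorem gg_norm (F : ℝ → ℂ) (σ u : ℝ) : ‖gg F σ u‖ = Real.exp (-σ * u) * ‖F (Real.exp (-u))‖ := by
  unfold gg
  rw [norm_mul, Complex.norm_real, Real.norm_eq_abs, Real.abs_exp]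

theorem gg_bd {F : ℝ → ℂ} {σ : ℝ} (h : MC F σ) : ∃ C m : ℝ, 0 ≤ C ∧ 0 < m ∧
    ∀ u, ‖gg F σ u‖ ≤ C * Real.exp (-m * |u|) := by
  obtain ⟨C, m, hm, h1, h2⟩ := h.bd
  have hC : 0 ≤ C := by
    have := h1 1 one_pos
    rw [Real.one_rpow, mul_one] at this
    exact (norm_nonneg _).trans this
  refine ⟨C, m, hC, hm, fun u => ?_⟩
  rw [gg_norm]
  rcases le_or_gt u 0 with hu | hu
  · have h3 := h2 (Real.exp (-u)) (Real.exp_pos _)
    rw [← Real.exp_mul] at h3
    calc Real.exp (-σ * u) * ‖F (Real.exp (-u))‖ ≤ Real.exp (-σ * u) * (C * Real.exp (-u * (-σ - m))) := by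
          gcongr
      _ = C * Real.exp (-m * |u|) := by
          rw [abs_of_nonpos hu, mul_left_comm, ← Real.exp_add]
          congr 2; ring
  · have h3 := h1 (Real.exp (-u)) (Real.exp_pos _)
    rw [← Real.exp_mul] at h3
    calc Real.exp (-σ * u) * ‖F (Real.exp (-u))‖ ≤ Real.exp (-σ * u) * (C * Real.exp (-u * (-σ + m))) := by
          gcongr
      _ = C * Real.exp (-m * |u|) := by
          rw [abs_of_pos hu, mul_left_comm, ← Real.exp_add]
          congr 2; ring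

theorem exp_abs_int {m : ℝ} (hm : 0 < m) : Integrable (fun u : ℝ => Real.exp (-m * |u|)) := by
  have e1 : IntegrableOn (fun u : ℝ => Real.exp (-m * |u|)) (Iic 0) := by
    have h := integrableOn_exp_mul_Iic hm 0
    refine h.congr_fun ?_ measurableSet_Iic
    intro u hu
    simp only
    rw [abs_of_nonpos hu]
    congr 1; ring
  have e2 : IntegrableOn (fun u : ℝ => Real.exp (-m * |u|)) (Ioi 0) := by
    have h := integrableOn_exp_mul_Ioi (neg_lt_zero.mpr hm) 0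
    refine h.congr_fun ?_ measurableSet_Ioi
    intro u hu
    simp only
    rw [abs_of_pos hu]
  rw [← integrableOn_univ, ← Iic_union_Ioi (a := (0:ℝ))]
  exact e1.union e2

theorem gg_int {F : ℝ → ℂ} {σ : ℝ} (h : MC F σ) : Integrable (gg F σ) := by
  obtain ⟨C, m, hC, hm, hb⟩ := gg_bd h
  refine Integrable.mono' ((exp_abs_int hm).const_mul C) (gg_cont h).aestronglyMeasurable ?_
  filter_upwards with u
  exact hb u

theorem gg_sq_int {F : ℝ → ℂ} {σ : ℝ} (h : MC F σ) : Integrable (fun u => ‖gg F σ u‖ ^ 2) := by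
  obtain ⟨C, m, hC, hm, hb⟩ := gg_bd h
  refine Integrable.mono' ((gg_int h).norm.const_mul C) ((gg_cont h).norm.pow 2).aestronglyMeasurable ?_
  filter_upwards with u
  rw [Real.norm_of_nonneg (by positivity), pow_two]
  apply mul_le_mul_of_nonneg_right _ (norm_nonneg _)
  refine (hb u).trans ?_
  have : Real.exp (-m * |u|) ≤ 1 := Real.exp_le_one_iff.mpr (by
    have := abs_nonneg u
    nlinarith)
  nlinarith

theorem mell_eq (F : ℝ → ℂ) (σ t : ℝ) :
    mellin F ((σ : ℂ) + (t : ℂ) * I) = 𝓕 (gg F σ) (t / (2 * Real.pi)) := by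
  have h := mellin_eq_fourier F (s := (σ : ℂ) + t * I)
  have e1 : ((σ : ℂ) + t * I).re = σ := by simp
  have e2 : ((σ : ℂ) + t * I).im = t := by simp
  rw [e1, e2] at h
  rw [h]
  congr 1

theorem mell_cont {F : ℝ → ℂ} {σ : ℝ} (h : MC F σ) :
    Continuous (fun t : ℝ => mellin F ((σ : ℂ) + (t : ℂ) * I)) := by
  simp_rw [mell_eq]
  have hc : Continuous (𝓕 (gg F σ)) :=
    VectorFourier.fourierIntegral_continuous Real.continuous_fourierChar
      (innerSL ℝ).continuous₂ (gg_int h)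
  exact hc.comp (by fun_prop)

theorem mell_L2 {F : ℝ → ℂ} {σ : ℝ} (h : MC F σ) :
    Integrable (fun t : ℝ => ‖mellin F ((σ : ℂ) + (t : ℂ) * I)‖ ^ 2) ∧
    ∫ t : ℝ, ‖mellin F ((σ : ℂ) + (t : ℂ) * I)‖ ^ 2 =
      2 * Real.pi * ∫ x in Ioi (0 : ℝ), ‖F x‖ ^ 2 * x ^ (2 * σ - 1) := by
  have g1 := gg_int h
  have gsq := gg_sq_int h
  have gcont := gg_cont h
  have g2 : MemLp (gg F σ) 2 :=
    (memLp_two_iff_integrable_sq_norm gcont.aestronglyMeasurable).mpr gsq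
  have hpl := Pool.Agent.Helper76.NormalHP.plancherel_lintegral (gg F σ) g1 g2
  have hcont : Continuous (𝓕 (gg F σ)) :=
    VectorFourier.fourierIntegral_continuous Real.continuous_fourierChar
      (innerSL ℝ).continuous₂ g1
  have hfin : ∫⁻ u, ‖gg F σ u‖ₑ ^ 2 = ENNReal.ofReal (∫ u, ‖gg F σ u‖ ^ 2) := by
    rw [ofReal_integral_eq_lintegral_ofReal gsq (by filter_upwards with u; positivity)]
    refine lintegral_congr fun u => ?_
    rw [ENNReal.ofReal_pow (norm_nonneg _), ofReal_norm]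
  have hFint : Integrable (fun ξ => ‖𝓕 (gg F σ) ξ‖ ^ 2) := by
    refine ⟨(hcont.norm.pow 2).aestronglyMeasurable, ?_⟩
    rw [hasFiniteIntegral_iff_ofReal (by filter_upwards with u; positivity)]
    have : ∫⁻ a, ENNReal.ofReal (‖𝓕 (gg F σ) a‖ ^ 2) = ∫⁻ ξ, ‖𝓕 (gg F σ) ξ‖ₑ ^ 2 := by
      refine lintegral_congr fun u => ?_
      rw [ENNReal.ofReal_pow (norm_nonneg _), ofReal_norm]
    rw [this, hpl, hfin]
    exact ENNReal.ofReal_lt_top
  have hFeq : ∫ ξ, ‖𝓕 (gg F σ) ξ‖ ^ 2 = ∫ u, ‖gg F σ u‖ ^ 2 := by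
    have h3 : ∫⁻ ξ, ‖𝓕 (gg F σ) ξ‖ₑ ^ 2 = ENNReal.ofReal (∫ u, ‖𝓕 (gg F σ) u‖ ^ 2) := by
      rw [ofReal_integral_eq_lintegral_ofReal hFint (by filter_upwards with u; positivity)]
      refine lintegral_congr fun u => ?_
      rw [ENNReal.ofReal_pow (norm_nonneg _), ofReal_norm]
    rw [h3, hfin] at hpl
    exact (ENNReal.ofReal_eq_ofReal_iff (integral_nonneg fun _ => by positivity)
      (integral_nonneg fun _ => by positivity)).mp hpl
  have hR : ∫ x in Ioi (0 : ℝ), ‖F x‖ ^ 2 * x ^ (2 * σ - 1) = ∫ u, ‖gg F σ u‖ ^ 2 := by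
    have h := mellin_eq_fourier (fun x => ((‖F x‖ ^ 2 : ℝ) : ℂ)) (s := ((2 * σ : ℝ) : ℂ))
    rw [ofReal_re, ofReal_im, zero_div, mellin, Real.fourier_eq] at h
    simp only [inner_zero_right, neg_zero, AddChar.map_zero_eq_one, one_smul] at h
    have e1 : ∫ t in Ioi (0:ℝ), (t : ℂ) ^ (((2 * σ : ℝ) : ℂ) - 1) • ((‖F t‖ ^ 2 : ℝ) : ℂ) =
        ((∫ x in Ioi (0 : ℝ), ‖F x‖ ^ 2 * x ^ (2 * σ - 1) : ℝ) : ℂ) := by
      rw [← integral_complex_ofReal]
      refine setIntegral_congr_fun measurableSet_Ioi ?_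
      intro x hx
      have hx0 : (0:ℝ) ≤ x := le_of_lt hx
      have h5 : (x : ℂ) ^ (((2 * σ : ℝ) : ℂ) - 1) = ((x ^ (2 * σ - 1) : ℝ) : ℂ) := by
        rw [ofReal_cpow hx0]; push_cast; rfl
      simp only [smul_eq_mul]
      rw [h5]
      push_cast
      ring
    have e2 : ∫ u : ℝ, Real.exp (-(2 * σ) * u) • ((‖F (Real.exp (-u))‖ ^ 2 : ℝ) : ℂ) =
        ((∫ u, ‖gg F σ u‖ ^ 2 : ℝ) : ℂ) := by
      rw [← integral_complex_ofReal]
      refine integral_congr_ae ?_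
      filter_upwards with u
      rw [gg_norm, real_smul, ← ofReal_mul]
      congr 1
      rw [mul_pow, ← Real.exp_nat_mul]
      congr 2
      push_cast; ring
    rw [e1, e2] at h
    exact_mod_cast h
  have hpi : (0:ℝ) < 2 * Real.pi := by positivity
  have hFint' : Integrable (fun t : ℝ => ‖𝓕 (gg F σ) (t / (2 * Real.pi))‖ ^ 2) :=
    hFint.comp_div hpi.ne'
  simp_rw [mell_eq]
  refine ⟨hFint', ?_⟩
  rw [Measure.integral_comp_div (fun ξ => ‖𝓕 (gg F σ) ξ‖ ^ 2) (2 * Real.pi), abs_of_pos hpi,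
          smul_eq_mul, hFeq, hR]

end Pool.Agent.D0H44.MW
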