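import Pool.Agent.D0H44.MW.Sm2

/-! The three mean squares on vertical lines. -/

set_option autoImplicit false
open Complex Filter Topology MeasureTheory Set Asymptotics
open Pool.Agent.H24R2.DZ (cc rr bb MM mo ph)

namespace Pool.Agent.D0H44.MW

theorem MC.sq_int {F : ℝ → ℂ} {σ : ℝ} (h : MC F σ) :
    IntegrableOn (fun x : ℝ => ‖F x‖ ^ 2 * x ^ (2 * σ - 1)) (Ioi 0) := by
  obtain ⟨C, m, hm, h1, h2⟩ := h.bd
  have hcont : ContinuousOn (fun x : ℝ => ‖F x‖ ^ 2 * x ^ (2 * σ - 1)) (Ioi 0) := by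
    refine ContinuousOn.mul (h.cont.norm.pow 2) ?_
    exact ContinuousOn.rpow_const continuousOn_id (fun x hx => Or.inl (ne_of_gt hx))
  have hunion : Ioc 0 1 ∪ Ioi 1 = Ioi (0 : ℝ) := Ioc_union_Ioi_eq_Ioi zero_le_one
  rw [← hunion]
  refine IntegrableOn.union ?_ ?_
  · have hi : IntegrableOn (fun x : ℝ => C ^ 2 * x ^ (2 * m - 1)) (Ioc 0 1) := by
      have : IntervalIntegrable (fun x : ℝ => x ^ (2 * m - 1)) volume 0 1 :=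
        intervalIntegral.intervalIntegrable_rpow' (by linarith)
      exact ((intervalIntegrable_iff_integrableOn_Ioc_of_le zero_le_one).1 this).const_mul _
    refine Integrable.mono' hi ((hcont.mono Ioc_subset_Ioi_self).aestronglyMeasurable measurableSet_Ioc) ?_
    refine (ae_restrict_iff' measurableSet_Ioc).2 (Eventually.of_forall fun x hx => ?_)
    have hx0 : 0 < x := hx.1
    rw [Real.norm_eq_abs, abs_of_nonneg (by positivity)]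
    have h3 := pow_le_pow_left₀ (norm_nonneg _) (h1 x hx0) 2
    calc ‖F x‖ ^ 2 * x ^ (2 * σ - 1) ≤ (C * x ^ (-σ + m)) ^ 2 * x ^ (2 * σ - 1) := by gcongr
      _ = C ^ 2 * x ^ (2 * m - 1) := by
          rw [mul_pow, mul_assoc, ← Real.rpow_natCast (x ^ (-σ + m)) 2, ← Real.rpow_mul hx0.le,
            ← Real.rpow_add hx0]
          congr 2
          push_cast; ring
  · have hi : IntegrableOn (fun x : ℝ => C ^ 2 * x ^ (-(2 * m) - 1)) (Ioi 1) :=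
      (integrableOn_Ioi_rpow_of_lt (by linarith) one_pos).const_mul _
    refine Integrable.mono' hi ((hcont.mono (Ioi_subset_Ioi zero_le_one)).aestronglyMeasurable measurableSet_Ioi) ?_
    refine (ae_restrict_iff' measurableSet_Ioi).2 (Eventually.of_forall fun x hx => ?_)
    have hx0 : 0 < x := lt_trans one_pos hx
    rw [Real.norm_eq_abs, abs_of_nonneg (by positivity)]
    have h3 := pow_le_pow_left₀ (norm_nonneg _) (h2 x hx0) 2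
    calc ‖F x‖ ^ 2 * x ^ (2 * σ - 1) ≤ (C * x ^ (-σ - m)) ^ 2 * x ^ (2 * σ - 1) := by gcongr
      _ = C ^ 2 * x ^ (-(2 * m) - 1) := by
          rw [mul_pow, mul_assoc, ← Real.rpow_natCast (x ^ (-σ - m)) 2, ← Real.rpow_mul hx0.le,
            ← Real.rpow_add hx0]
          congr 2
          push_cast; ring

/-- sum over the characters of Parseval's formula -/
theorem ms_gen {q : ℕ} [NeZero q] (F : DirichletCharacter ℂ q → ℝ → ℂ) (σ : ℝ)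
    (h : ∀ χ ∈ ev q, MC (F χ) σ) :
    ∑ χ ∈ ev q, ∫ t : ℝ, ‖mellin (F χ) ((σ : ℂ) + (t : ℂ) * I)‖ ^ 2 =
      2 * Real.pi * ∫ x in Ioi (0 : ℝ), (∑ χ ∈ ev q, ‖F χ x‖ ^ 2) * x ^ (2 * σ - 1) := by
  have h1 : ∀ χ ∈ ev q, ∫ t : ℝ, ‖mellin (F χ) ((σ : ℂ) + (t : ℂ) * I)‖ ^ 2 =
      2 * Real.pi * ∫ x in Ioi (0 : ℝ), ‖F χ x‖ ^ 2 * x ^ (2 * σ - 1) := fun χ hχ => (mell_L2 (h χ hχ)).2
  rw [Finset.sum_congr rfl h1, ← Finset.mul_sum]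
  congr 1
  rw [← integral_finsetSum _ (fun χ hχ => (h χ hχ).sq_int)]
  refine setIntegral_congr_fun measurableSet_Ioi fun x _ => ?_
  exact (Finset.sum_mul _ _ _).symm

/-- the length of the mollifier -/
noncomputable def ym (ℓ : ℝ) : ℕ := ⌈Real.exp (ℓ / 200)⌉₊

/-- the mollifier -/
noncomputable def MX {q : ℕ} (χ : DirichletCharacter ℂ q) (ℓ : ℝ) (s : ℂ) : ℂ :=
  MM (ym ℓ) (fun h => bb (1 / 200) ℓ 0 h * χ (h : ZMod q)) s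

theorem ym_ge (ℓ : ℝ) : Real.exp (1 / 200 * ℓ) ≤ ym ℓ := by
  rw [show 1 / 200 * ℓ = ℓ / 200 by ring]; exact Nat.le_ceil _

theorem ym_le (ℓ : ℝ) (hℓ : 0 ≤ ℓ) : (ym ℓ : ℝ) ≤ 2 * Real.exp (ℓ / 200) := by
  have h1 := (Nat.ceil_lt_add_one (Real.exp_pos (ℓ / 200)).le).le
  have h2 : 1 ≤ Real.exp (ℓ / 200) := Real.one_le_exp (by positivity)
  unfold ym
  linarith

theorem ym_one (ℓ : ℝ) : 1 ≤ ym ℓ := Nat.one_le_iff_ne_zero.2 (Nat.ceil_pos.2 (Real.exp_pos _)).ne'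

theorem ym_pow {q : ℕ} (hq : 0 < q) (ℓ : ℝ) (hℓ : 150 ≤ ℓ) (hq2 : ℓ ≤ Real.log q) : ym ℓ ^ 100 ≤ q := by
  have hq0 : (0 : ℝ) < q := by exact_mod_cast hq
  have h1 : ((ym ℓ : ℝ)) ^ 100 ≤ q := by
    calc ((ym ℓ : ℝ)) ^ 100 ≤ (2 * Real.exp (ℓ / 200)) ^ 100 :=
          pow_le_pow_left₀ (by positivity) (ym_le ℓ (by linarith)) 100
      _ = 2 ^ 100 * Real.exp (ℓ / 2) := by
          rw [mul_pow, ← Real.exp_nat_mul]; congr 2; push_cast; ring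
      _ ≤ Real.exp (ℓ / 2) * Real.exp (ℓ / 2) := by
          gcongr
          have h2 : (2 : ℝ) ≤ Real.exp (3 / 4) := by
            have := Real.add_one_le_exp (3 / 4 : ℝ)
            have h3 : (2 : ℝ) ≤ Real.exp 0.75 := by
              have h4 : Real.exp 0.75 ^ 4 = Real.exp 1 ^ 3 := by
                rw [← Real.exp_nat_mul, ← Real.exp_nat_mul]; norm_num
              have h5 : (2.7 : ℝ) ≤ Real.exp 1 := by have := Real.exp_one_gt_d9; linarith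
              have h6 : (2.7 : ℝ) ^ 3 ≤ Real.exp 1 ^ 3 := pow_le_pow_left₀ (by norm_num) h5 3
              by_contra hlt
              push Not at hlt
              have h7 : Real.exp 0.75 ^ 4 < 2 ^ 4 := pow_lt_pow_left₀ hlt (Real.exp_pos _).le (by norm_num)
              rw [h4] at h7
              norm_num at h6 h7
              linarith
            rw [show (3 / 4 : ℝ) = 0.75 by norm_num]; exact h3
          calc (2 : ℝ) ^ 100 ≤ Real.exp (3 / 4) ^ 100 := pow_le_pow_left₀ (by norm_num) h2 100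
            _ = Real.exp 75 := by rw [← Real.exp_nat_mul]; norm_num
            _ ≤ Real.exp (ℓ / 2) := Real.exp_le_exp.2 (by linarith)
      _ = Real.exp ℓ := by rw [← Real.exp_add]; congr 1; ring
      _ ≤ q := by rw [← Real.exp_log hq0]; exact Real.exp_le_exp.2 hq2
  exact_mod_cast h1

theorem ym_log (ℓ : ℝ) (hℓ : 150 ≤ ℓ) : Real.log (ym ℓ) ≤ ℓ + 1 := by
  have h1 : (0 : ℝ) < ym ℓ := by exact_mod_cast ym_one ℓ
  have h2 := Real.log_le_log h1 (ym_le ℓ (by linarith))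
  rw [Real.log_mul (by norm_num) (Real.exp_pos _).ne', Real.log_exp] at h2
  have h3 : Real.log 2 ≤ 1 := by have := Real.log_two_lt_d9; linarith
  linarith

theorem log_sq_le (ℓ x : ℝ) (hℓ : 1 ≤ ℓ) (hx : 0 < x) :
    (Real.log x) ^ 2 * x ^ (2 / ℓ) ≤ 4 * ℓ ^ 2 * Wt ℓ x := by
  have hl : 0 < 1 / (2 * ℓ) := by positivity
  unfold Wt
  have e0 : x ^ (2 / ℓ) = x ^ (1 / ℓ) * x ^ (1 / ℓ) := by
    rw [← Real.rpow_add hx]; congr 1; ring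
  have hp : 0 < x ^ (1 / ℓ) := by positivity
  have key : (Real.log x) ^ 2 * x ^ (1 / ℓ) ≤ 4 * ℓ ^ 2 * (1 + x ^ 2) := by
    rcases le_or_gt x 1 with hx1 | hx1
    · have a2 : Real.log x⁻¹ ≤ x⁻¹ ^ (1 / (2 * ℓ)) / (1 / (2 * ℓ)) :=
        Real.log_le_rpow_div (by positivity) hl
      rw [Real.log_inv, Real.inv_rpow hx.le] at a2
      have hlx : 0 ≤ -Real.log x := by have := Real.log_nonpos hx.le hx1; linarith
      have a3 : (-Real.log x) ^ 2 ≤ ((x ^ (1 / (2 * ℓ)))⁻¹ / (1 / (2 * ℓ))) ^ 2 := pow_le_pow_left₀ hlx a2 2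
      have hp2 : 0 < x ^ (1 / (2 * ℓ)) := by positivity
      have e1 : (x ^ (1 / (2 * ℓ))) ^ 2 = x ^ (1 / ℓ) := by
        rw [← Real.rpow_natCast, ← Real.rpow_mul hx.le]; congr 1; push_cast; field_simp
      have e2 : ((x ^ (1 / (2 * ℓ)))⁻¹ / (1 / (2 * ℓ))) ^ 2 = 4 * ℓ ^ 2 * (x ^ (1 / ℓ))⁻¹ := by
        rw [← e1]; field_simp; norm_num
      rw [e2, neg_sq] at a3
      calc (Real.log x) ^ 2 * x ^ (1 / ℓ) ≤ (4 * ℓ ^ 2 * (x ^ (1 / ℓ))⁻¹) * x ^ (1 / ℓ) := by gcongr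
        _ = 4 * ℓ ^ 2 := by field_simp
        _ ≤ _ := by nlinarith [sq_nonneg x, sq_nonneg ℓ, mul_nonneg (sq_nonneg ℓ) (sq_nonneg x)]
    · have a2 : Real.log x ≤ x ^ (1 / (2 * ℓ)) / (1 / (2 * ℓ)) := Real.log_le_rpow_div hx.le hl
      have hlx : 0 ≤ Real.log x := Real.log_nonneg hx1.le
      have a3 := pow_le_pow_left₀ hlx a2 2
      have e1 : (x ^ (1 / (2 * ℓ))) ^ 2 = x ^ (1 / ℓ) := by
        rw [← Real.rpow_natCast, ← Real.rpow_mul hx.le]; congr 1; push_cast; field_simp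
      have e2 : (x ^ (1 / (2 * ℓ)) / (1 / (2 * ℓ))) ^ 2 = 4 * ℓ ^ 2 * x ^ (1 / ℓ) := by
        rw [← e1]; field_simp; norm_num
      rw [e2] at a3
      have e3 : x ^ (1 / ℓ) * x ^ (1 / ℓ) ≤ x ^ 2 := by
        rw [← Real.rpow_add hx, ← Real.rpow_two]
        apply Real.rpow_le_rpow_of_exponent_le hx1.le
        have : 1 / ℓ ≤ 1 := by rw [div_le_one (by linarith)]; exact hℓ
        linarith
      calc (Real.log x) ^ 2 * x ^ (1 / ℓ) ≤ (4 * ℓ ^ 2 * x ^ (1 / ℓ)) * x ^ (1 / ℓ) := by gcongr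
        _ = 4 * ℓ ^ 2 * (x ^ (1 / ℓ) * x ^ (1 / ℓ)) := by ring
        _ ≤ 4 * ℓ ^ 2 * x ^ 2 := by gcongr
        _ ≤ _ := by nlinarith [sq_nonneg ℓ]
  rw [e0]
  calc (Real.log x) ^ 2 * (x ^ (1 / ℓ) * x ^ (1 / ℓ)) = x ^ (1 / ℓ) * ((Real.log x) ^ 2 * x ^ (1 / ℓ)) := by ring
    _ ≤ x ^ (1 / ℓ) * (4 * ℓ ^ 2 * (1 + x ^ 2)) := by gcongr
    _ = _ := by ring

theorem pow_le_Wt (ℓ x : ℝ) (hℓ : 1 ≤ ℓ) (hx : 0 < x) : x ^ (2 / ℓ) ≤ Wt ℓ x := by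
  unfold Wt
  have e0 : x ^ (2 / ℓ) = x ^ (1 / ℓ) * x ^ (1 / ℓ) := by
    rw [← Real.rpow_add hx]; congr 1; ring
  rw [e0]
  refine mul_le_mul_of_nonneg_left ?_ (by positivity)
  rcases le_or_gt x 1 with hx1 | hx1
  · have : x ^ (1 / ℓ) ≤ 1 := Real.rpow_le_one hx.le hx1 (by positivity)
    nlinarith [sq_nonneg x]
  · have : x ^ (1 / ℓ) ≤ x ^ (2 : ℝ) := by
      apply Real.rpow_le_rpow_of_exponent_le hx1.le
      have : 1 / ℓ ≤ 1 := by rw [div_le_one (by linarith)]; exact hℓ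
      linarith
    rw [Real.rpow_two] at this
    linarith

/-- the three mean squares -/
theorem msq (hPB : S_PB) (hPHI : S_PHI) : ∃ C : ℝ, 0 < C ∧ ∀ (q : ℕ) [NeZero q], q.Prime → ∀ ℓ : ℝ,
    150 ≤ ℓ → ℓ ≤ Real.log q →
    (∑ χ ∈ ev q, ∫ t : ℝ, ‖mellin (FF χ (ym ℓ) (bb (1 / 200) ℓ 0))
        (((1 / 2 + 1 / ℓ : ℝ) : ℂ) + (t : ℂ) * I)‖ ^ 2 ≤ C * Nat.totient q) ∧
    (∑ χ ∈ ev q, ∫ t : ℝ, ‖mellin (DD χ (ym ℓ) (bb (1 / 200) ℓ 0))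
        (((1 / 2 + 1 / ℓ : ℝ) : ℂ) + (t : ℂ) * I)‖ ^ 2 ≤ C * ℓ ^ 2 * Nat.totient q) ∧
    (∑ χ ∈ ev q, ∫ t : ℝ, ‖mellin (FF χ (ym ℓ) (bb (1 / 200) ℓ (2 / ℓ : ℝ)))
        (((1 / 2 : ℝ) : ℂ) + (t : ℂ) * I)‖ ^ 2 ≤ C * (q : ℝ) ^ (2 / ℓ) * Nat.totient q) := by
  obtain ⟨C1, hC1, h1⟩ := smw hPB hPHI
  obtain ⟨C2, hC2, h2⟩ := smo1 hPB hPHI
  obtain ⟨K, hK, hk⟩ := coefs (1 / 200) (by norm_num) (by norm_num)
  have hK0 : 0 < K := by linarith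
  have hK1 : K + K ^ 2 + 1 ≤ 3 * K ^ 2 := by nlinarith
  obtain ⟨C, hC⟩ : ∃ C : ℝ, C = 8 * Real.pi * (20 * C1 * (3 * K ^ 2)) + 2 * Real.pi * (C2 * (3 * K ^ 2)) := ⟨_, rfl⟩
  have hpi := Real.pi_pos
  have hc1 : 0 < C1 * (3 * K ^ 2) := by positivity
  have hc2 : 0 < C2 * (3 * K ^ 2) := by positivity
  refine ⟨C, by rw [hC]; positivity, ?_⟩
  intro q _ hq ℓ hℓ hℓq
  have hφ : (0 : ℝ) ≤ Nat.totient q := by positivity
  have hyp := ym_pow hq.pos ℓ hℓ hℓq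
  have hyl := ym_log ℓ hℓ
  have hy1 := ym_one ℓ
  have hℓ1 : 1 ≤ ℓ := by linarith
  have hℓ0 : 0 < ℓ := by linarith
  obtain ⟨hb, hbl⟩ := hk ℓ (ym ℓ) (by linarith) (ym_ge ℓ)
  have hb0 := hb 0 (by rw [norm_zero]; linarith)
  have A1 := h1 q hq (ym ℓ) (bb (1 / 200) ℓ 0) ℓ K K hℓ1 hy1 hyp hyl hK0.le hK0.le hb0
  have A2 := h1 q hq (ym ℓ) (bl (1 / 200) ℓ) ℓ (K * ℓ ^ 2) (K * ℓ) hℓ1 hy1 hyp hyl (by positivity)
    (by positivity) hbl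
  have hβ : ℓ * ‖((2 / ℓ : ℝ) : ℂ)‖ ≤ 3 := by
    rw [Complex.norm_real, Real.norm_eq_abs, abs_of_pos (by positivity)]
    field_simp; norm_num
  have A3 := h2 q hq (ym ℓ) (bb (1 / 200) ℓ (2 / ℓ : ℝ)) ℓ K K hℓ1 hy1 hyp hyl hK0.le hK0.le (hb _ hβ)
  have hexp : (2 * (1 / 2 + 1 / ℓ) - 1 : ℝ) = 2 / ℓ := by ring
  have A1' : ∫ x in Ioi (0 : ℝ), (∑ χ ∈ ev q, ‖FF χ (ym ℓ) (bb (1 / 200) ℓ 0) x‖ ^ 2) * Wt ℓ x ≤
      C1 * (3 * K ^ 2) * Nat.totient q := by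
    refine A1.2.trans ?_
    calc C1 * (Nat.totient q : ℝ) * (K + K ^ 2 + 1) ≤ C1 * (Nat.totient q : ℝ) * (3 * K ^ 2) := by gcongr
      _ = _ := by ring
  have A2' : ∫ x in Ioi (0 : ℝ), (∑ χ ∈ ev q, ‖FF χ (ym ℓ) (bl (1 / 200) ℓ) x‖ ^ 2) * Wt ℓ x ≤
      C1 * (3 * K ^ 2) * ℓ ^ 2 * Nat.totient q := by
    refine A2.2.trans ?_
    have : K * ℓ ^ 2 + (K * ℓ) ^ 2 + 1 ≤ (3 * K ^ 2) * ℓ ^ 2 := by
      have h5 : 1 ≤ ℓ ^ 2 := by nlinarith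
      nlinarith
    calc C1 * (Nat.totient q : ℝ) * (K * ℓ ^ 2 + (K * ℓ) ^ 2 + 1) ≤
          C1 * (Nat.totient q : ℝ) * ((3 * K ^ 2) * ℓ ^ 2) := by gcongr
      _ = _ := by ring
  refine ⟨?_, ?_, ?_⟩
  · -- M2
    rw [ms_gen (fun χ => FF χ (ym ℓ) (bb (1 / 200) ℓ 0)) _
      (fun χ hχ => FF_MC hq χ (ev_mem hχ).1 (ev_mem hχ).2 _ _ _), hexp]
    have e2 : ∫ x in Ioi (0 : ℝ), (∑ χ ∈ ev q, ‖FF χ (ym ℓ) (bb (1 / 200) ℓ 0) x‖ ^ 2) * x ^ (2 / ℓ) ≤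
        ∫ x in Ioi (0 : ℝ), (∑ χ ∈ ev q, ‖FF χ (ym ℓ) (bb (1 / 200) ℓ 0) x‖ ^ 2) * Wt ℓ x := by
      refine integral_mono_of_nonneg ?_ A1.1 ?_
      · refine (ae_restrict_iff' measurableSet_Ioi).2 (Eventually.of_forall fun x hx => ?_)
        have hx0 : (0 : ℝ) < x := hx
        simp only [Pi.zero_apply]
        positivity
      · refine (ae_restrict_iff' measurableSet_Ioi).2 (Eventually.of_forall fun x hx => ?_)
        exact mul_le_mul_of_nonneg_left (pow_le_Wt ℓ x hℓ1 hx) (by positivity)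
    calc 2 * Real.pi * ∫ x in Ioi (0 : ℝ), (∑ χ ∈ ev q, ‖FF χ (ym ℓ) (bb (1 / 200) ℓ 0) x‖ ^ 2) * x ^ (2 / ℓ)
        ≤ 2 * Real.pi * (C1 * (3 * K ^ 2) * Nat.totient q) := by
          gcongr
          exact e2.trans A1'
      _ = (2 * Real.pi * (C1 * (3 * K ^ 2))) * Nat.totient q := by ring
      _ ≤ C * Nat.totient q := by
          gcongr
          rw [hC]
          have : 0 ≤ 2 * Real.pi * (C2 * (3 * K ^ 2)) := by positivity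
          nlinarith [mul_pos hpi hc1]
  · -- M3
    rw [ms_gen (fun χ => DD χ (ym ℓ) (bb (1 / 200) ℓ 0)) _
      (fun χ hχ => DD_MC hq χ (ev_mem hχ).1 (ev_mem hχ).2 _ _ _), hexp]
    have e2 : ∫ x in Ioi (0 : ℝ), (∑ χ ∈ ev q, ‖DD χ (ym ℓ) (bb (1 / 200) ℓ 0) x‖ ^ 2) * x ^ (2 / ℓ) ≤
        ∫ x in Ioi (0 : ℝ), (2 * ((∑ χ ∈ ev q, ‖FF χ (ym ℓ) (bl (1 / 200) ℓ) x‖ ^ 2) * Wt ℓ x) +
          8 * ℓ ^ 2 * ((∑ χ ∈ ev q, ‖FF χ (ym ℓ) (bb (1 / 200) ℓ 0) x‖ ^ 2) * Wt ℓ x)) := by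
      refine integral_mono_of_nonneg ?_ ((A2.1.const_mul _).add (A1.1.const_mul _)) ?_
      · refine (ae_restrict_iff' measurableSet_Ioi).2 (Eventually.of_forall fun x hx => ?_)
        have hx0 : (0 : ℝ) < x := hx
        simp only [Pi.zero_apply]
        positivity
      · refine (ae_restrict_iff' measurableSet_Ioi).2 (Eventually.of_forall fun x hx => ?_)
        have hx0 : (0 : ℝ) < x := hx
        have hw := pow_le_Wt ℓ x hℓ1 hx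
        have hl := log_sq_le ℓ x hℓ1 hx
        have hW0 := Wt_nonneg ℓ x hx
        simp only
        rw [Finset.sum_mul, Finset.sum_mul, Finset.sum_mul, Finset.mul_sum, Finset.mul_sum,
          ← Finset.sum_add_distrib]
        refine Finset.sum_le_sum fun χ _ => ?_
        rw [DD_eq χ (ym ℓ) (1 / 200) ℓ x hx]
        have h6 : ‖FF χ (ym ℓ) (bl (1 / 200) ℓ) x + (Real.log x : ℂ) * FF χ (ym ℓ) (bb (1 / 200) ℓ 0) x‖ ^ 2 ≤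
            2 * ‖FF χ (ym ℓ) (bl (1 / 200) ℓ) x‖ ^ 2 +
            2 * ((Real.log x) ^ 2 * ‖FF χ (ym ℓ) (bb (1 / 200) ℓ 0) x‖ ^ 2) := by
          have h7 := norm_add_le (FF χ (ym ℓ) (bl (1 / 200) ℓ) x) ((Real.log x : ℂ) * FF χ (ym ℓ) (bb (1 / 200) ℓ 0) x)
          have h8 := pow_le_pow_left₀ (norm_nonneg _) h7 2
          have h9 : ‖(Real.log x : ℂ) * FF χ (ym ℓ) (bb (1 / 200) ℓ 0) x‖ ^ 2 =
              (Real.log x) ^ 2 * ‖FF χ (ym ℓ) (bb (1 / 200) ℓ 0) x‖ ^ 2 := by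
            rw [norm_mul, mul_pow, Complex.norm_real, Real.norm_eq_abs, sq_abs]
          rw [← h9]
          nlinarith [sq_nonneg (‖FF χ (ym ℓ) (bl (1 / 200) ℓ) x‖ -
            ‖(Real.log x : ℂ) * FF χ (ym ℓ) (bb (1 / 200) ℓ 0) x‖)]
        have h10 : 0 ≤ x ^ (2 / ℓ) := by positivity
        calc ‖FF χ (ym ℓ) (bl (1 / 200) ℓ) x + (Real.log x : ℂ) * FF χ (ym ℓ) (bb (1 / 200) ℓ 0) x‖ ^ 2 * x ^ (2 / ℓ)
            ≤ (2 * ‖FF χ (ym ℓ) (bl (1 / 200) ℓ) x‖ ^ 2 +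
            2 * ((Real.log x) ^ 2 * ‖FF χ (ym ℓ) (bb (1 / 200) ℓ 0) x‖ ^ 2)) * x ^ (2 / ℓ) := by gcongr
          _ = 2 * (‖FF χ (ym ℓ) (bl (1 / 200) ℓ) x‖ ^ 2 * x ^ (2 / ℓ)) +
            2 * (‖FF χ (ym ℓ) (bb (1 / 200) ℓ 0) x‖ ^ 2 * ((Real.log x) ^ 2 * x ^ (2 / ℓ))) := by ring
          _ ≤ 2 * (‖FF χ (ym ℓ) (bl (1 / 200) ℓ) x‖ ^ 2 * Wt ℓ x) +
            2 * (‖FF χ (ym ℓ) (bb (1 / 200) ℓ 0) x‖ ^ 2 * (4 * ℓ ^ 2 * Wt ℓ x)) := by gcongr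
          _ = _ := by ring
    rw [integral_add (A2.1.const_mul _) (A1.1.const_mul _), integral_const_mul, integral_const_mul] at e2
    calc 2 * Real.pi * ∫ x in Ioi (0 : ℝ), (∑ χ ∈ ev q, ‖DD χ (ym ℓ) (bb (1 / 200) ℓ 0) x‖ ^ 2) * x ^ (2 / ℓ)
        ≤ 2 * Real.pi * (2 * (C1 * (3 * K ^ 2) * ℓ ^ 2 * Nat.totient q) +
          8 * ℓ ^ 2 * (C1 * (3 * K ^ 2) * Nat.totient q)) := by
          gcongr
          refine e2.trans ?_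
          gcongr
      _ = (2 * Real.pi * (10 * (C1 * (3 * K ^ 2)))) * ℓ ^ 2 * Nat.totient q := by ring
      _ ≤ C * ℓ ^ 2 * Nat.totient q := by
          gcongr
          rw [hC]
          have : 0 ≤ 2 * Real.pi * (C2 * (3 * K ^ 2)) := by positivity
          nlinarith [mul_pos hpi hc1]
  · -- M1
    rw [ms_gen (fun χ => FF χ (ym ℓ) (bb (1 / 200) ℓ (2 / ℓ : ℝ))) _
      (fun χ hχ => FF_MC hq χ (ev_mem hχ).1 (ev_mem hχ).2 _ _ _)]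
    have e3 : ∫ x in Ioi (0 : ℝ), (∑ χ ∈ ev q, ‖FF χ (ym ℓ) (bb (1 / 200) ℓ (2 / ℓ : ℝ)) x‖ ^ 2) *
        x ^ ((2 : ℝ) * (1 / 2) - 1) = ∫ x in Ioi (0 : ℝ),
          (∑ χ ∈ ev q, ‖FF χ (ym ℓ) (bb (1 / 200) ℓ (2 / ℓ : ℝ)) x‖ ^ 2) * 1 := by
      rw [show (2 : ℝ) * (1 / 2) - 1 = 0 by norm_num]
      simp_rw [Real.rpow_zero]
    rw [e3]
    have hqp : 0 ≤ (q : ℝ) ^ (2 / ℓ) := by positivity
    calc 2 * Real.pi * ∫ x in Ioi (0 : ℝ), (∑ χ ∈ ev q, ‖FF χ (ym ℓ) (bb (1 / 200) ℓ (2 / ℓ : ℝ)) x‖ ^ 2) * 1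
        ≤ 2 * Real.pi * (C2 * (q : ℝ) ^ (2 / ℓ) * Nat.totient q * (3 * K ^ 2)) := by
          gcongr
          refine A3.2.trans ?_
          gcongr
      _ = (2 * Real.pi * (C2 * (3 * K ^ 2))) * (q : ℝ) ^ (2 / ℓ) * Nat.totient q := by ring
      _ ≤ C * (q : ℝ) ^ (2 / ℓ) * Nat.totient q := by
          gcongr
          rw [hC]
          have : 0 ≤ 8 * Real.pi * (20 * C1 * (3 * K ^ 2)) := by positivity
          linarith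

end Pool.Agent.D0H44.MW
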