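import Pool.Agent.D0H44.MW.Stm2

/-! Pointwise consequences of integral lower bounds. -/

set_option autoImplicit false
open Complex Filter Topology MeasureTheory Set

namespace Pool.Agent.D0H44.MW

/-- If `∫_x^{x q^{1+ε}} G(u)/u² du ≥ c log² q`, then somewhere `G(u) ≥ (c/(1+ε)) u log q`. -/
theorem exists_large (G : ℝ → ℝ) (q : ℕ) (hq : 1 < q) (x ε c : ℝ) (hx : 0 < x) (hε : 0 < ε) (hc : 0 < c)
    (h : c * Real.log q ^ 2 ≤ ∫ u in x..(x * (q : ℝ) ^ (1 + ε)), G u / u ^ 2) :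
    ∃ u : ℝ, x ≤ u ∧ u ≤ x * (q : ℝ) ^ (1 + ε) ∧ c / (1 + ε) * u * Real.log q ≤ G u := by
  have hq0 : (0 : ℝ) < q := by exact_mod_cast (by omega : 0 < q)
  have hq1 : (1 : ℝ) < q := by exact_mod_cast hq
  have hL : 0 < Real.log q := Real.log_pos hq1
  have hQ : 1 ≤ (q : ℝ) ^ (1 + ε) := Real.one_le_rpow hq1.le (by linarith)
  have hxX : x ≤ x * (q : ℝ) ^ (1 + ε) := by nlinarith
  have hQ1 : 1 < (q : ℝ) ^ (1 + ε) := Real.one_lt_rpow hq1 (by linarith)
  have hxX' : x < x * (q : ℝ) ^ (1 + ε) := by nlinarith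
  by_contra hcon
  push Not at hcon
  have hint : IntervalIntegrable (fun u => G u / u ^ 2) volume x (x * (q : ℝ) ^ (1 + ε)) := by
    by_contra hni
    rw [intervalIntegral.integral_undef hni] at h
    have : 0 < c * Real.log q ^ 2 := by positivity
    linarith
  have hone : IntervalIntegrable (fun u : ℝ => c / (1 + ε) * Real.log q * u⁻¹) volume x
      (x * (q : ℝ) ^ (1 + ε)) := by
    apply IntervalIntegrable.const_mul
    apply intervalIntegral.intervalIntegrable_inv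
    · intro u hu
      rw [uIcc_of_le hxX] at hu
      linarith [hu.1]
    · exact continuousOn_id
  have h1 : ∫ u in x..(x * (q : ℝ) ^ (1 + ε)), G u / u ^ 2 <
      ∫ u in x..(x * (q : ℝ) ^ (1 + ε)), c / (1 + ε) * Real.log q * u⁻¹ := by
    refine intervalIntegral.integral_lt_integral_of_ae_le_of_measure_setOf_lt_ne_zero hxX hint hone ?_ ?_
    · refine (ae_restrict_iff' measurableSet_Ioc).2 (Eventually.of_forall fun u hu => ?_)
      have hu0 : 0 < u := hx.trans hu.1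
      have h2 := hcon u hu.1.le hu.2
      simp only
      rw [div_le_iff₀ (by positivity)]
      have : c / (1 + ε) * Real.log q * u⁻¹ * u ^ 2 = c / (1 + ε) * u * Real.log q := by
        field_simp
      rw [this]; exact h2.le
    · have hset : (Ioc x (x * (q : ℝ) ^ (1 + ε))) ⊆ {u : ℝ | G u / u ^ 2 < c / (1 + ε) * Real.log q * u⁻¹} := by
        intro u hu
        have hu0 : 0 < u := hx.trans hu.1
        have h2 := hcon u hu.1.le hu.2
        show G u / u ^ 2 < c / (1 + ε) * Real.log q * u⁻¹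
        rw [div_lt_iff₀ (by positivity)]
        have : c / (1 + ε) * Real.log q * u⁻¹ * u ^ 2 = c / (1 + ε) * u * Real.log q := by
          field_simp
        rw [this]; exact h2
      have h3 : (volume.restrict (Ioc x (x * (q : ℝ) ^ (1 + ε)))) (Ioc x (x * (q : ℝ) ^ (1 + ε))) ≤
          (volume.restrict (Ioc x (x * (q : ℝ) ^ (1 + ε)))) {u : ℝ | G u / u ^ 2 < c / (1 + ε) * Real.log q * u⁻¹} :=
        measure_mono hset
      rw [Measure.restrict_apply measurableSet_Ioc, inter_self, Real.volume_Ioc] at h3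
      intro h0
      rw [h0, le_zero_iff, ENNReal.ofReal_eq_zero] at h3
      linarith
  have h2 : ∫ u in x..(x * (q : ℝ) ^ (1 + ε)), c / (1 + ε) * Real.log q * u⁻¹ = c * Real.log q ^ 2 := by
    rw [intervalIntegral.integral_const_mul, integral_inv_of_pos hx (by positivity),
      mul_div_cancel_left₀ _ hx.ne', Real.log_rpow hq0]
    have : (1 + ε) ≠ 0 := by linarith
    field_simp
  linarith

theorem pt_one (h : T_ONE) : ∀ B ε : ℝ, 2 ≤ B → 0 < ε → ∃ c : ℝ, 0 < c ∧ ∃ q₀ : ℕ, ∀ q : ℕ, q.Prime →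
    q₀ ≤ q → ∀ x : ℝ, (q : ℝ) ^ 2 ≤ x → x ≤ (q : ℝ) ^ B →
    (c * Real.log q ^ 2 ≤ ∫ u in x..(x * (q : ℝ) ^ (1 + ε)),
      (∑ a ∈ (Finset.range q).filter (fun a => a.Coprime q), (psa u q a - u / Nat.totient q) ^ 2) / u ^ 2) ∧
    ∃ u : ℝ, x ≤ u ∧ u ≤ x * (q : ℝ) ^ (1 + ε) ∧ ∃ a : ℕ, a < q ∧ a.Coprime q ∧
      c * Real.sqrt (u * Real.log q / q) ≤ |psa u q a - u / Nat.totient q| := by
  intro B ε hB hε
  obtain ⟨c, hc, q₀, h1⟩ := h B ε hB hε
  obtain ⟨c', hc'⟩ : ∃ c' : ℝ, c' = min c (Real.sqrt (c / (1 + ε))) := ⟨_, rfl⟩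
  have hce : 0 < c / (1 + ε) := by positivity
  have hc'0 : 0 < c' := by rw [hc']; exact lt_min hc (Real.sqrt_pos.2 hce)
  refine ⟨c', hc'0, max q₀ 2, fun q hq hqq x hx1 hx2 => ?_⟩
  have hq0 : (0 : ℝ) < q := by exact_mod_cast hq.pos
  have hx0 : 0 < x := lt_of_lt_of_le (by positivity) hx1
  have h2 := h1 q hq ((le_max_left _ _).trans hqq) x hx1 hx2
  refine ⟨le_trans ?_ h2, ?_⟩
  · have : c' ≤ c := by rw [hc']; exact min_le_left _ _
    gcongr
  · obtain ⟨u, hu1, hu2, hu3⟩ := exists_large _ q hq.one_lt x ε c hx0 hε hc h2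
    have hu0 : 0 < u := hx0.trans_le hu1
    have hL : 0 < Real.log q := Real.log_pos (by exact_mod_cast hq.one_lt)
    refine ⟨u, hu1, hu2, ?_⟩
    by_contra hcon
    push Not at hcon
    have hφ : (Nat.totient q : ℝ) ≤ q := by exact_mod_cast Nat.totient_le q
    have h3 : ∀ a ∈ (Finset.range q).filter (fun a => a.Coprime q),
        (psa u q a - u / Nat.totient q) ^ 2 ≤ c' ^ 2 * (u * Real.log q / q) := by
      intro a ha
      obtain ⟨ha1, ha2⟩ := Finset.mem_filter.1 ha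
      have h4 := hcon a (Finset.mem_range.1 ha1) ha2
      have h5 := pow_le_pow_left₀ (abs_nonneg _) h4.le 2
      rw [sq_abs, mul_pow, Real.sq_sqrt (by positivity)] at h5
      exact h5
    have hcard : ((Finset.range q).filter (fun a => a.Coprime q)).card < q := by
      have h6 : (Finset.range q).filter (fun a => a.Coprime q) ⊆ Finset.Ico 1 q := by
        intro a ha
        obtain ⟨ha1, ha2⟩ := Finset.mem_filter.1 ha
        rw [Finset.mem_Ico]
        refine ⟨?_, Finset.mem_range.1 ha1⟩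
        rcases Nat.eq_zero_or_pos a with rfl | h
        · have := hq.one_lt
          rw [Nat.coprime_zero_left] at ha2
          omega
        · exact h
      have h7 := Finset.card_le_card h6
      rw [Nat.card_Ico] at h7
      have := hq.pos
      omega
    have h8 := Finset.sum_le_card_nsmul _ _ _ h3
    rw [nsmul_eq_mul] at h8
    have h9 := hu3.trans h8
    have h10 : c' ^ 2 ≤ c / (1 + ε) := by
      have : c' ≤ Real.sqrt (c / (1 + ε)) := by rw [hc']; exact min_le_right _ _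
      calc c' ^ 2 ≤ Real.sqrt (c / (1 + ε)) ^ 2 := pow_le_pow_left₀ hc'0.le this 2
        _ = _ := Real.sq_sqrt hce.le
    have hcard' : (((Finset.range q).filter (fun a => a.Coprime q)).card : ℝ) < q := by exact_mod_cast hcard
    have h11 : (((Finset.range q).filter (fun a => a.Coprime q)).card : ℝ) * (c' ^ 2 * (u * Real.log q / q)) <
        q * (c' ^ 2 * (u * Real.log q / q)) := by
      gcongr
    have h12 : (q : ℝ) * (c' ^ 2 * (u * Real.log q / q)) = c' ^ 2 * (u * Real.log q) := by field_simp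
    have h13 : c' ^ 2 * (u * Real.log q) ≤ c / (1 + ε) * (u * Real.log q) := by gcongr
    linarith

theorem pt_two (h : T_TWO) : ∀ B ε δ : ℝ, 2 ≤ B → 0 < ε → 0 < δ → ∃ c : ℝ, 0 < c ∧ ∃ q₀ : ℕ,
    ∀ (q : ℕ) [NeZero q], q.Prime → q₀ ≤ q → ∀ x : ℝ, (q : ℝ) ^ 2 ≤ x → x ≤ (q : ℝ) ^ B →
    ∃ S : Finset (DirichletCharacter ℂ q), (S.card : ℝ) ≤ δ * Nat.totient q ∧
      ∀ χ : DirichletCharacter ℂ q, χ.Even → χ ∉ S →
        (c * Real.log q ^ 2 ≤ ∫ v in x..(x * (q : ℝ) ^ (1 + ε)), ‖ps χ v‖ ^ 2 / v ^ 2) ∧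
        ∃ v : ℝ, x ≤ v ∧ v ≤ x * (q : ℝ) ^ (1 + ε) ∧ c * Real.sqrt (v * Real.log q) ≤ ‖ps χ v‖ := by
  intro B ε δ hB hε hδ
  obtain ⟨c, hc, q₀, h1⟩ := h B ε δ hB hε hδ
  obtain ⟨c', hc'⟩ : ∃ c' : ℝ, c' = min c (Real.sqrt (c / (1 + ε))) := ⟨_, rfl⟩
  have hce : 0 < c / (1 + ε) := by positivity
  have hc'0 : 0 < c' := by rw [hc']; exact lt_min hc (Real.sqrt_pos.2 hce)
  refine ⟨c', hc'0, q₀, fun q _ hq hqq x hx1 hx2 => ?_⟩
  have hq0 : (0 : ℝ) < q := by exact_mod_cast hq.pos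
  have hx0 : 0 < x := lt_of_lt_of_le (by positivity) hx1
  obtain ⟨S, hS, hS2⟩ := h1 q hq hqq x hx1 hx2
  refine ⟨S, hS, fun χ hχ hχS => ?_⟩
  have h2 := hS2 χ hχ hχS
  refine ⟨le_trans ?_ h2, ?_⟩
  · have : c' ≤ c := by rw [hc']; exact min_le_left _ _
    gcongr
  · obtain ⟨u, hu1, hu2, hu3⟩ := exists_large _ q hq.one_lt x ε c hx0 hε hc h2
    have hu0 : 0 < u := hx0.trans_le hu1
    have hL : 0 < Real.log q := Real.log_pos (by exact_mod_cast hq.one_lt)
    refine ⟨u, hu1, hu2, ?_⟩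
    have h10 : c' ^ 2 ≤ c / (1 + ε) := by
      have : c' ≤ Real.sqrt (c / (1 + ε)) := by rw [hc']; exact min_le_right _ _
      calc c' ^ 2 ≤ Real.sqrt (c / (1 + ε)) ^ 2 := pow_le_pow_left₀ hc'0.le this 2
        _ = _ := Real.sq_sqrt hce.le
    refine (sq_le_sq₀ (by positivity) (norm_nonneg _)).1 ?_
    rw [mul_pow, Real.sq_sqrt (by positivity)]
    refine le_trans ?_ hu3
    rw [mul_assoc]
    gcongr

end Pool.Agent.D0H44.MW
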