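import Pool.Agent.D0H44.MW.Fe

/-! Mollified mean squares over the even characters. -/

set_option autoImplicit false
open Complex Filter Topology MeasureTheory Set Asymptotics
open Pool.Agent.H24R2.DZ (cc rr bb MM)

namespace Pool.Agent.D0H44.MW

/-- hypotheses on the coefficients -/
structure CB (y : ℕ) (ℓ : ℝ) (b : ℕ → ℂ) (K₁ K₂ : ℝ) : Prop where
  supp : ∀ h, y < h → b h = 0
  le : ∀ h, ‖b h‖ ≤ h
  c : ∀ N : ℕ, ∑ n ∈ Finset.Icc 1 N, (n : ℝ) ^ (-(1 + 1 / ℓ)) * ‖cc b n‖ ^ 2 ≤ K₁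
  r : ∀ k, 1 ≤ k → ‖rr y b k‖ ≤ K₂ / (ℓ * (Nat.totient k : ℝ))

theorem FF_TS {q : ℕ} (hq : 1 < q) (χ : DirichletCharacter ℂ q) (y : ℕ) (b : ℕ → ℂ)
    (hs : ∀ h, y < h → b h = 0) (x : ℝ) (hx : 0 < x) :
    FF χ y b x = TS (fun n => χ (n : ZMod q) * cc b n) x := by
  have h1 := TS_comb (PG_th hq χ) zero_le_one (Finset.Icc 1 y) (fun d hd => (Finset.mem_Icc.1 hd).1)
    (fun h => b h * χ (h : ZMod q)) x hx
  unfold FF th
  rw [h1]
  congr 1
  funext n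
  rcases Nat.eq_zero_or_pos n with rfl | hn
  · have h0 : χ ((0 : ℕ) : ZMod q) = 0 := (PG_th hq χ).zero
    simp only [Nat.zero_div, h0, zero_mul, mul_zero, Finset.sum_const_zero]
  · have h2 : ∀ d ∈ (Finset.Icc 1 y).filter (fun d => d ∣ n), b d * χ (d : ZMod q) * χ ((n / d : ℕ) : ZMod q) =
        χ (n : ZMod q) * b d := by
      intro d hd
      have hdn : d ∣ n := (Finset.mem_filter.1 hd).2
      rw [mul_assoc, ← map_mul, ← Nat.cast_mul, Nat.mul_div_cancel' hdn, mul_comm]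
    rw [Finset.sum_congr rfl h2, ← Finset.mul_sum]
    congr 1
    unfold cc
    refine Finset.sum_subset ?_ ?_
    · intro d hd
      rw [Finset.mem_filter] at hd
      exact Nat.mem_divisors.2 ⟨hd.2, hn.ne'⟩
    · intro d hd hd2
      apply hs
      by_contra hle
      push Not at hle
      apply hd2
      rw [Finset.mem_filter, Finset.mem_Icc]
      exact ⟨⟨Nat.pos_of_mem_divisors hd, hle⟩, Nat.dvd_of_mem_divisors hd⟩

theorem cc_PG {b : ℕ → ℂ} (hb : ∀ h, ‖b h‖ ≤ h) : PG (cc b) 1 2 := by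
  refine ⟨by simp [cc], fun n => ?_⟩
  unfold cc
  refine (norm_sum_le _ _).trans ?_
  have h1 : ∀ d ∈ n.divisors, ‖b d‖ ≤ n := fun d hd =>
    (hb d).trans (by exact_mod_cast Nat.divisor_le hd)
  refine (Finset.sum_le_card_nsmul _ _ _ h1).trans ?_
  rw [nsmul_eq_mul, one_mul, sq]
  refine mul_le_mul_of_nonneg_right ?_ (Nat.cast_nonneg n)
  exact_mod_cast Nat.card_divisors_le_self n

theorem rangeA {q : ℕ} [NeZero q] (hq : 1 < q) (y : ℕ) (b : ℕ → ℂ) (hs : ∀ h, y < h → b h = 0)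
    (hb : ∀ h, ‖b h‖ ≤ h) (x : ℝ) (hx : 0 < x) (hqx : 1 ≤ (q : ℝ) * x ^ 2) :
    ∑ χ ∈ ev q, ‖FF χ y b x‖ ^ 2 ≤ 2 * Nat.totient q * ∑' n, ‖cc b n‖ ^ 2 * ga n x := by
  have h1 := PA q (cc_PG hb) x hx hqx
  refine le_trans ?_ h1
  have h2 : ∀ χ : DirichletCharacter ℂ q, ‖FF χ y b x‖ ^ 2 = ‖TS (fun n => χ (n : ZMod q) * cc b n) x‖ ^ 2 :=
    fun χ => by rw [FF_TS hq χ y b hs x hx]
  simp_rw [h2]
  exact Finset.sum_le_sum_of_subset_of_nonneg (Finset.subset_univ _) (fun _ _ _ => by positivity)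

/-- the weight -/
noncomputable def Wt (ℓ x : ℝ) : ℝ := x ^ (1 / ℓ) * (1 + x ^ 2)

/-- the constant -/
noncomputable def K0 : ℝ := ∫ v in Ioi (0 : ℝ), Real.exp (-(Real.pi * v ^ 2)) * ((1 + v) * (1 + v ^ 2))

theorem K0_int : IntegrableOn (fun v : ℝ => Real.exp (-(Real.pi * v ^ 2)) * ((1 + v) * (1 + v ^ 2))) (Ioi 0) := by
  have h0 := integrableOn_rpow_mul_exp_neg_mul_sq Real.pi_pos (s := 0) (by norm_num)
  have h1 := integrableOn_rpow_mul_exp_neg_mul_sq Real.pi_pos (s := 1) (by norm_num)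
  have h2 := integrableOn_rpow_mul_exp_neg_mul_sq Real.pi_pos (s := 2) (by norm_num)
  have h3 := integrableOn_rpow_mul_exp_neg_mul_sq Real.pi_pos (s := 3) (by norm_num)
  refine (((h0.add h1).add h2).add h3).congr_fun ?_ measurableSet_Ioi
  intro v hv
  have e3 : v ^ (3 : ℝ) = v ^ 3 := by exact_mod_cast Real.rpow_natCast v 3
  simp only [Pi.add_apply, Real.rpow_zero, Real.rpow_one, Real.rpow_two, e3, one_mul]
  rw [show -Real.pi * v ^ 2 = -(Real.pi * v ^ 2) by ring]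
  ring

theorem K0_nonneg : 0 ≤ K0 := by
  unfold K0
  refine setIntegral_nonneg measurableSet_Ioi fun v hv => ?_
  have : (0 : ℝ) < v := hv
  positivity

theorem Wt_int (ℓ : ℝ) (hℓ : 1 ≤ ℓ) (n : ℕ) (hn : 1 ≤ n) :
    IntegrableOn (fun x : ℝ => ga n x * Wt ℓ x) (Ioi 0) ∧
    ∫ x in Ioi (0 : ℝ), ga n x * Wt ℓ x ≤ K0 * (n : ℝ) ^ (-(1 + 1 / ℓ)) := by
  have hn0 : (0 : ℝ) < n := by exact_mod_cast hn
  have hn1 : (1 : ℝ) ≤ n := by exact_mod_cast hn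
  obtain ⟨g, hg⟩ : ∃ g : ℝ → ℝ, g = fun v : ℝ => Real.exp (-(Real.pi * v ^ 2)) * ((1 + v) * (1 + v ^ 2)) := ⟨_, rfl⟩
  have hgint : IntegrableOn g (Ioi 0) := hg ▸ K0_int
  have h1 : IntegrableOn (fun x : ℝ => g (n * x)) (Ioi 0) := by
    have := (integrableOn_Ioi_comp_mul_left_iff g 0 hn0).2 (by rwa [mul_zero])
    exact this
  have h2 : ∫ x in Ioi (0 : ℝ), g (n * x) = (n : ℝ)⁻¹ * K0 := by
    have := integral_comp_mul_left_Ioi g 0 hn0
    rw [this, mul_zero, smul_eq_mul, K0, hg]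
  have h3 : ∀ x ∈ Ioi (0 : ℝ), ga n x * Wt ℓ x ≤ (n : ℝ) ^ (-(1 / ℓ)) * g (n * x) := by
    intro x hx
    have hx0 : (0 : ℝ) < x := hx
    have e1 : ga n x = Real.exp (-(Real.pi * (n * x) ^ 2)) := by
      unfold ga; congr 1; ring
    have e2 : x ^ (1 / ℓ) = (n : ℝ) ^ (-(1 / ℓ)) * (n * x) ^ (1 / ℓ) := by
      rw [Real.mul_rpow hn0.le hx0.le, ← mul_assoc, ← Real.rpow_add hn0]
      rw [neg_add_cancel, Real.rpow_zero, one_mul]
    have e3 : (n * x) ^ (1 / ℓ) ≤ 1 + n * x := by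
      rcases le_or_gt (n * x) 1 with h | h
      · have : (n * x) ^ (1 / ℓ) ≤ 1 := Real.rpow_le_one (by positivity) h (by positivity)
        nlinarith [mul_pos hn0 hx0]
      · have : (n * x) ^ (1 / ℓ) ≤ (n * x) ^ (1 : ℝ) := by
          apply Real.rpow_le_rpow_of_exponent_le h.le
          rw [div_le_one (by linarith)]; exact hℓ
        rw [Real.rpow_one] at this
        linarith
    have e4 : 1 + x ^ 2 ≤ 1 + (n * x) ^ 2 := by
      have : x ≤ n * x := by nlinarith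
      have : x ^ 2 ≤ (n * x) ^ 2 := pow_le_pow_left₀ hx0.le this 2
      linarith
    unfold Wt
    rw [e1, e2, hg]
    simp only
    have e5 : 0 ≤ (n : ℝ) ^ (-(1 / ℓ)) := by positivity
    have e6 : 0 ≤ Real.exp (-(Real.pi * (n * x) ^ 2)) := (Real.exp_pos _).le
    have e7 : (n * x) ^ (1 / ℓ) * (1 + x ^ 2) ≤ (1 + n * x) * (1 + (n * x) ^ 2) := by gcongr
    calc Real.exp (-(Real.pi * (n * x) ^ 2)) * ((n : ℝ) ^ (-(1 / ℓ)) * (n * x) ^ (1 / ℓ) * (1 + x ^ 2))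
        = (n : ℝ) ^ (-(1 / ℓ)) * (Real.exp (-(Real.pi * (n * x) ^ 2)) * ((n * x) ^ (1 / ℓ) * (1 + x ^ 2))) := by ring
      _ ≤ _ := by gcongr
  have hWn : ∀ x ∈ Ioi (0 : ℝ), 0 ≤ ga n x * Wt ℓ x := by
    intro x hx
    have hx0 : (0 : ℝ) < x := hx
    unfold Wt
    have := ga_pos n x
    positivity
  have hcont : ContinuousOn (fun x : ℝ => ga n x * Wt ℓ x) (Ioi 0) := by
    unfold ga Wt
    refine ContinuousOn.mul (by fun_prop) (ContinuousOn.mul ?_ (by fun_prop))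
    exact ContinuousOn.rpow_const continuousOn_id (fun x hx => Or.inl (ne_of_gt hx))
  have h4 : IntegrableOn (fun x : ℝ => ga n x * Wt ℓ x) (Ioi 0) := by
    refine Integrable.mono' (h1.const_mul ((n : ℝ) ^ (-(1 / ℓ)))) (hcont.aestronglyMeasurable measurableSet_Ioi) ?_
    refine (ae_restrict_iff' measurableSet_Ioi).2 (Eventually.of_forall fun x hx => ?_)
    rw [Real.norm_eq_abs, abs_of_nonneg (hWn x hx)]
    exact h3 x hx
  refine ⟨h4, ?_⟩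
  have h5 := setIntegral_mono_on h4 (h1.const_mul ((n : ℝ) ^ (-(1 / ℓ)))) measurableSet_Ioi h3
  refine h5.trans (le_of_eq ?_)
  rw [integral_const_mul, h2]
  have : (n : ℝ) ^ (-(1 + 1 / ℓ)) = (n : ℝ) ^ (-(1 / ℓ)) * (n : ℝ)⁻¹ := by
    rw [neg_add, Real.rpow_add hn0, Real.rpow_neg_one]; ring
  rw [this]; ring

/-- integration of the bound in the range `x ≥ 1/√q` -/
theorem tsum_int (ℓ : ℝ) (hℓ : 1 ≤ ℓ) (c : ℕ → ℝ) (hc : ∀ n, 0 ≤ c n) (c0 : c 0 = 0) (K₁ : ℝ)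
    (hK : ∀ N : ℕ, ∑ n ∈ Finset.Icc 1 N, (n : ℝ) ^ (-(1 + 1 / ℓ)) * c n ≤ K₁)
    (hm : AEStronglyMeasurable (fun x : ℝ => (∑' n, c n * ga n x) * Wt ℓ x) (volume.restrict (Ioi 0))) :
    IntegrableOn (fun x : ℝ => (∑' n, c n * ga n x) * Wt ℓ x) (Ioi 0) ∧
    ∫ x in Ioi (0 : ℝ), (∑' n, c n * ga n x) * Wt ℓ x ≤ K0 * K₁ := by
  obtain ⟨F, hF⟩ : ∃ F : ℕ → ℝ → ℝ, F = fun n x => c n * (ga n x * Wt ℓ x) := ⟨_, rfl⟩
  have hFn : ∀ n, ∀ x ∈ Ioi (0 : ℝ), 0 ≤ F n x := by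
    intro n x hx
    have hx0 : (0 : ℝ) < x := hx
    rw [hF]
    have h1 := ga_pos n x
    have h2 := hc n
    unfold Wt
    positivity
  have hFint : ∀ n, IntegrableOn (F n) (Ioi 0) := by
    intro n
    rw [hF]
    rcases Nat.eq_zero_or_pos n with rfl | hn
    · simp only [c0, zero_mul]; exact integrableOn_zero
    · exact (Wt_int ℓ hℓ n hn).1.const_mul _
  have hFle : ∀ n, ∫ x in Ioi (0 : ℝ), F n x ≤ K0 * ((n : ℝ) ^ (-(1 + 1 / ℓ)) * c n) := by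
    intro n
    rw [hF]
    rcases Nat.eq_zero_or_pos n with rfl | hn
    · simp only [c0, zero_mul, mul_zero, integral_zero, le_refl]
    · simp only
      rw [integral_const_mul]
      have := mul_le_mul_of_nonneg_left (Wt_int ℓ hℓ n hn).2 (hc n)
      refine this.trans (le_of_eq (by ring))
  have hpart : ∀ N : ℕ, ∑ n ∈ Finset.range N, K0 * ((n : ℝ) ^ (-(1 + 1 / ℓ)) * c n) ≤ K0 * K₁ := by
    intro N
    rw [← Finset.mul_sum]
    refine mul_le_mul_of_nonneg_left ?_ K0_nonneg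
    refine le_trans ?_ (hK N)
    have h1 : ∑ n ∈ Finset.range N, (n : ℝ) ^ (-(1 + 1 / ℓ)) * c n ≤
        ∑ n ∈ Finset.range (N + 1), (n : ℝ) ^ (-(1 + 1 / ℓ)) * c n := by
      refine Finset.sum_le_sum_of_subset_of_nonneg (Finset.range_mono (Nat.le_succ N)) (fun n _ _ => ?_)
      have := hc n
      positivity
    refine h1.trans (le_of_eq ?_)
    rw [Finset.range_eq_Ico, Finset.sum_eq_sum_Ico_succ_bot (by omega)]
    rw [c0, mul_zero, zero_add]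
    rfl
  have hsum1 : Summable (fun n : ℕ => K0 * ((n : ℝ) ^ (-(1 + 1 / ℓ)) * c n)) := by
    refine summable_of_sum_range_le (fun n => ?_) hpart
    have := hc n
    have := K0_nonneg
    positivity
  have hnorm : ∀ n, ∫ x in Ioi (0 : ℝ), ‖F n x‖ = ∫ x in Ioi (0 : ℝ), F n x := by
    intro n
    refine setIntegral_congr_fun measurableSet_Ioi fun x hx => ?_
    exact (Real.norm_eq_abs _).trans (abs_of_nonneg (hFn n x hx))
  have hsum2 : Summable (fun n : ℕ => ∫ x in Ioi (0 : ℝ), ‖F n x‖) := by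
    refine Summable.of_nonneg_of_le (fun n => ?_) (fun n => ?_) hsum1
    · exact integral_nonneg fun x => norm_nonneg _
    · rw [hnorm]; exact hFle n
  have h1 := integral_tsum_of_summable_integral_norm (μ := volume.restrict (Ioi (0 : ℝ))) hFint hsum2
  have e1 : ∀ x : ℝ, ∑' n, F n x = (∑' n, c n * ga n x) * Wt ℓ x := by
    intro x
    rw [← tsum_mul_right, hF]
    refine tsum_congr fun n => ?_
    ring
  simp_rw [e1] at h1
  refine ⟨?_, ?_⟩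
  · refine ⟨hm, ?_⟩
    have h2 : ∀ n, ∫⁻ x, ‖F n x‖ₑ ∂(volume.restrict (Ioi (0 : ℝ))) =
        ENNReal.ofReal (∫ x in Ioi (0 : ℝ), ‖F n x‖) := fun n =>
      (ofReal_integral_norm_eq_lintegral_enorm (hFint n)).symm
    show ∫⁻ x, ‖(∑' n, c n * ga n x) * Wt ℓ x‖ₑ ∂(volume.restrict (Ioi (0 : ℝ))) < ⊤
    calc ∫⁻ x, ‖(∑' n, c n * ga n x) * Wt ℓ x‖ₑ ∂(volume.restrict (Ioi (0 : ℝ)))
        ≤ ∫⁻ x, ∑' n, ‖F n x‖ₑ ∂(volume.restrict (Ioi (0 : ℝ))) := by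
          refine lintegral_mono fun x => ?_
          simp only
          rw [← e1]
          exact enorm_tsum_le_tsum_enorm
      _ = ∑' n, ∫⁻ x, ‖F n x‖ₑ ∂(volume.restrict (Ioi (0 : ℝ))) :=
          lintegral_tsum fun n => (hFint n).1.enorm
      _ = ∑' n, ENNReal.ofReal (∫ x in Ioi (0 : ℝ), ‖F n x‖) := tsum_congr h2
      _ < ⊤ := by
          rw [← ENNReal.ofReal_tsum_of_nonneg (fun n => integral_nonneg fun x => norm_nonneg _) hsum2]
          exact ENNReal.ofReal_lt_top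
  · rw [← h1]
    refine (Summable.tsum_le_tsum hFle ?_ hsum1).trans ?_
    · simp_rw [hnorm] at hsum2; exact hsum2
    · exact Real.tsum_le_of_sum_range_le (fun n => by
        have := hc n
        have := K0_nonneg
        positivity) hpart

theorem FF_MC {q : ℕ} [NeZero q] (hq : q.Prime) (χ : DirichletCharacter ℂ q) (h1 : χ ≠ 1) (hχ : χ.Even)
    (y : ℕ) (b : ℕ → ℂ) (σ : ℝ) : MC (FF χ y b) σ := by
  unfold FF
  refine MC.sum _ (fun h x => b h * χ (h : ZMod q) * th χ (h * x)) fun h hh => ?_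
  have hh0 : (0 : ℝ) < h := by exact_mod_cast (Finset.mem_Icc.1 hh).1
  exact ((th_MC hq χ h1 hχ σ).scale h hh0).smul _

theorem ev_mem {q : ℕ} [NeZero q] {χ : DirichletCharacter ℂ q} (h : χ ∈ ev q) : χ ≠ 1 ∧ χ.Even := by
  classical
  unfold ev at h
  rw [Finset.mem_filter] at h
  exact h.2

theorem rpow_int (ℓ x₀ : ℝ) (hℓ : 1 ≤ ℓ) (h0 : 0 < x₀) (h1 : x₀ ≤ 1) :
    IntegrableOn (fun x : ℝ => x ^ (1 / ℓ - 1)) (Ioc 0 x₀) ∧ ∫ x in Ioc 0 x₀, x ^ (1 / ℓ - 1) ≤ ℓ := by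
  have hl : 0 < 1 / ℓ := by positivity
  have h2 : IntervalIntegrable (fun x : ℝ => x ^ (1 / ℓ - 1)) volume 0 x₀ :=
    intervalIntegral.intervalIntegrable_rpow' (by linarith)
  refine ⟨(intervalIntegrable_iff_integrableOn_Ioc_of_le h0.le).1 h2, ?_⟩
  rw [← intervalIntegral.integral_of_le h0.le, integral_rpow (Or.inl (by linarith))]
  have e1 : 1 / ℓ - 1 + 1 = 1 / ℓ := by ring
  rw [e1, Real.zero_rpow hl.ne', sub_zero, div_div_eq_mul_div, div_one]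
  have : x₀ ^ (1 / ℓ) ≤ 1 := Real.rpow_le_one h0.le h1 hl.le
  nlinarith

theorem smg (hPB : S_PB) (hPHI : S_PHI) : ∃ C : ℝ, 0 < C ∧ ∀ (q : ℕ) [NeZero q], q.Prime →
    ∀ (y : ℕ) (b : ℕ → ℂ) (ℓ K₁ K₂ Q : ℝ) (w : ℝ → ℝ), 1 ≤ ℓ → 1 ≤ y → y ^ 100 ≤ q →
    Real.log y ≤ ℓ + 1 → 0 ≤ K₁ → 0 ≤ K₂ → CB y ℓ b K₁ K₂ → 1 ≤ Q → ContinuousOn w (Ioi 0) →
    (∀ x, 0 < x → 0 ≤ w x) →
    (∀ x : ℝ, 0 < x → (q : ℝ) * x ^ 2 ≤ 1 → w x ≤ Q ∧ ∀ k ∈ Finset.Icc 1 y,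
      w x * (1 / (q * x ^ 2) * min (q * k * x) ((q * k * x) ^ 3)) ≤ Q * k * x ^ (1 / ℓ - 1)) →
    (∀ x : ℝ, 0 < x → 1 ≤ (q : ℝ) * x ^ 2 → w x ≤ Q * Wt ℓ x) →
    IntegrableOn (fun x : ℝ => (∑ χ ∈ ev q, ‖FF χ y b x‖ ^ 2) * w x) (Ioi 0) ∧
    ∫ x in Ioi (0 : ℝ), (∑ χ ∈ ev q, ‖FF χ y b x‖ ^ 2) * w x ≤
      C * Q * Nat.totient q * (K₁ + K₂ ^ 2 + 1) := by
  obtain ⟨Cb, hCb, hb⟩ := hPB
  obtain ⟨Cp, hCp, hp⟩ := hPHI
  have hK0 := K0_nonneg
  refine ⟨3 * Cb * Cp + Cb + 2 * K0 + 1, by positivity, ?_⟩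
  intro q _ hq y b ℓ K₁ K₂ Q w hℓ hy hyq hly hK1 hK2 hCB hQ hwc hw0 hw1 hw2
  have hq0 : (0 : ℝ) < q := by exact_mod_cast NeZero.pos q
  have hq1 : (1 : ℝ) ≤ q := by exact_mod_cast hq.one_lt.le
  have hφ : (0 : ℝ) ≤ Nat.totient q := by positivity
  have hsq : 1 ≤ Real.sqrt q := by rw [Real.one_le_sqrt]; exact hq1
  have hsq0 : 0 < Real.sqrt q := by linarith
  obtain ⟨x₀, hx₀⟩ : ∃ x₀ : ℝ, x₀ = 1 / Real.sqrt q := ⟨_, rfl⟩
  have hx0 : 0 < x₀ := by rw [hx₀]; positivity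
  have hx1 : x₀ ≤ 1 := by rw [hx₀, div_le_one hsq0]; exact hsq
  have hqx : (q : ℝ) * x₀ ^ 2 = 1 := by
    rw [hx₀, div_pow, one_pow, Real.sq_sqrt hq0.le]; field_simp
  obtain ⟨g, hg⟩ : ∃ g : ℝ → ℝ, g = fun x : ℝ => (∑ χ ∈ ev q, ‖FF χ y b x‖ ^ 2) * w x := ⟨_, rfl⟩
  have hgc : ContinuousOn g (Ioi 0) := by
    rw [hg]
    refine ContinuousOn.mul (continuousOn_finsetSum _ fun χ hχ => ?_) hwc
    exact ((FF_MC hq χ (ev_mem hχ).1 (ev_mem hχ).2 y b 0).cont.norm).pow 2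
  have hg0 : ∀ x ∈ Ioi (0 : ℝ), 0 ≤ g x := by
    intro x hx
    rw [hg]
    have := hw0 x hx
    positivity
  -- the first range
  obtain ⟨S, hS⟩ : ∃ S : ℝ, S = ∑ k ∈ Finset.Icc 1 y, ‖rr y b k‖ ^ 2 * k := ⟨_, rfl⟩
  have hS0 : 0 ≤ S := by rw [hS]; positivity
  have hSle : S * ℓ ≤ 3 * Cp * K₂ ^ 2 := by
    have h1 : S ≤ K₂ ^ 2 / ℓ ^ 2 * ∑ k ∈ Finset.Icc 1 y, (k : ℝ) / (Nat.totient k : ℝ) ^ 2 := by
      rw [hS, Finset.mul_sum]
      refine Finset.sum_le_sum fun k hk => ?_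
      have hk1 := (Finset.mem_Icc.1 hk).1
      have hφk : (0 : ℝ) < Nat.totient k := by exact_mod_cast Nat.totient_pos.2 hk1
      have h2 := hCB.r k hk1
      have h3 : ‖rr y b k‖ ^ 2 ≤ (K₂ / (ℓ * (Nat.totient k : ℝ))) ^ 2 :=
        pow_le_pow_left₀ (norm_nonneg _) h2 2
      calc ‖rr y b k‖ ^ 2 * k ≤ (K₂ / (ℓ * (Nat.totient k : ℝ))) ^ 2 * k := by gcongr
        _ = _ := by field_simp
    have h2 := hp y hy
    have h3 : (∑ k ∈ Finset.Icc 1 y, (k : ℝ) / (Nat.totient k : ℝ) ^ 2) ≤ Cp * (3 * ℓ) := by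
      refine h2.trans ?_
      gcongr
      linarith
    calc S * ℓ ≤ (K₂ ^ 2 / ℓ ^ 2 * (Cp * (3 * ℓ))) * ℓ := by
          gcongr
          exact h1.trans (by gcongr)
      _ = 3 * Cp * K₂ ^ 2 := by field_simp
  obtain ⟨G₁, hG₁⟩ : ∃ G₁ : ℝ → ℝ, G₁ = fun x : ℝ => Cb * Nat.totient q * (Q * S) * x ^ (1 / ℓ - 1) +
      Cb * Nat.totient q * Q := ⟨_, rfl⟩
  have hb1 : ∀ x ∈ Ioc (0 : ℝ) x₀, g x ≤ G₁ x := by
    intro x hx
    have hxp : 0 < x := hx.1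
    have hqx' : (q : ℝ) * x ^ 2 ≤ 1 := by
      rw [← hqx]
      have := pow_le_pow_left₀ hxp.le hx.2 2
      gcongr
    have h1 := hb q hq y b hy hyq hCB.le x hxp hqx'
    obtain ⟨h2, h3⟩ := hw1 x hxp hqx'
    have hw := hw0 x hxp
    rw [hg, hG₁]
    simp only
    calc (∑ χ ∈ ev q, ‖FF χ y b x‖ ^ 2) * w x
        ≤ (Cb * Nat.totient q * (1 / (q * x ^ 2) * (∑ k ∈ Finset.Icc 1 y,
            ‖rr y b k‖ ^ 2 * min (q * k * x) ((q * k * x) ^ 3)) + 1 / q)) * w x := by gcongr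
      _ = Cb * Nat.totient q * (∑ k ∈ Finset.Icc 1 y, ‖rr y b k‖ ^ 2 *
            (w x * (1 / (q * x ^ 2) * min (q * k * x) ((q * k * x) ^ 3)))) +
            Cb * Nat.totient q * (w x / q) := by
          have e1 : (∑ k ∈ Finset.Icc 1 y, ‖rr y b k‖ ^ 2 *
            (w x * (1 / (q * x ^ 2) * min (q * k * x) ((q * k * x) ^ 3)))) =
            w x * (1 / (q * x ^ 2) * (∑ k ∈ Finset.Icc 1 y,
            ‖rr y b k‖ ^ 2 * min (q * k * x) ((q * k * x) ^ 3))) := by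
            rw [Finset.mul_sum, Finset.mul_sum]
            exact Finset.sum_congr rfl fun k _ => by ring
          rw [e1]; ring
      _ ≤ Cb * Nat.totient q * (∑ k ∈ Finset.Icc 1 y, ‖rr y b k‖ ^ 2 * (Q * k * x ^ (1 / ℓ - 1))) +
            Cb * Nat.totient q * Q := by
          have e7 : w x / q ≤ Q := by rw [div_le_iff₀ hq0]; nlinarith
          have e8 : (∑ k ∈ Finset.Icc 1 y, ‖rr y b k‖ ^ 2 *
            (w x * (1 / (q * x ^ 2) * min (q * k * x) ((q * k * x) ^ 3)))) ≤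
            ∑ k ∈ Finset.Icc 1 y, ‖rr y b k‖ ^ 2 * (Q * k * x ^ (1 / ℓ - 1)) :=
            Finset.sum_le_sum fun k hk => mul_le_mul_of_nonneg_left (h3 k hk) (by positivity)
          have e9 : 0 ≤ Cb * (Nat.totient q : ℝ) := by positivity
          exact add_le_add (mul_le_mul_of_nonneg_left e8 e9) (mul_le_mul_of_nonneg_left e7 e9)
      _ = _ := by
          congr 1
          rw [hS]
          have e1 : (∑ k ∈ Finset.Icc 1 y, ‖rr y b k‖ ^ 2 * (Q * k * x ^ (1 / ℓ - 1))) =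
            (Q * x ^ (1 / ℓ - 1)) * ∑ k ∈ Finset.Icc 1 y, ‖rr y b k‖ ^ 2 * k := by
            rw [Finset.mul_sum]
            exact Finset.sum_congr rfl fun k _ => by ring
          rw [e1]; ring
  obtain ⟨hri, hrl⟩ := rpow_int ℓ x₀ hℓ hx0 hx1
  have hG1i : IntegrableOn G₁ (Ioc 0 x₀) := by
    rw [hG₁]
    exact (hri.const_mul _).add (integrableOn_const (by simp))
  have hG1l : ∫ x in Ioc 0 x₀, G₁ x ≤ Cb * Nat.totient q * Q * (3 * Cp * K₂ ^ 2 + 1) := by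
    rw [hG₁, integral_add (hri.const_mul _) (integrableOn_const (by simp)), integral_const_mul]
    rw [setIntegral_const]
    have e1 : (volume.real (Ioc 0 x₀)) • (Cb * (Nat.totient q : ℝ) * Q) = x₀ * (Cb * (Nat.totient q : ℝ) * Q) := by
      rw [Real.volume_real_Ioc_of_le hx0.le, sub_zero, smul_eq_mul]
    rw [e1]
    have h5 : Cb * (Nat.totient q : ℝ) * (Q * S) * (∫ x in Ioc 0 x₀, x ^ (1 / ℓ - 1)) ≤
        Cb * (Nat.totient q : ℝ) * (Q * S) * ℓ := by gcongr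
    have h6 : Cb * (Nat.totient q : ℝ) * (Q * S) * ℓ ≤ Cb * (Nat.totient q : ℝ) * Q * (3 * Cp * K₂ ^ 2) := by
      calc Cb * (Nat.totient q : ℝ) * (Q * S) * ℓ = Cb * (Nat.totient q : ℝ) * Q * (S * ℓ) := by ring
        _ ≤ _ := by gcongr
    have h7 : x₀ * (Cb * (Nat.totient q : ℝ) * Q) ≤ 1 * (Cb * (Nat.totient q : ℝ) * Q) := by gcongr
    linarith
  -- the second range
  obtain ⟨G₂, hG₂⟩ : ∃ G₂ : ℝ → ℝ, G₂ = fun x : ℝ => (2 * Nat.totient q * Q) *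
      ((∑' n, ‖cc b n‖ ^ 2 * ga n x) * Wt ℓ x) := ⟨_, rfl⟩
  have hcs := tsum_int ℓ hℓ (fun n => ‖cc b n‖ ^ 2) (fun n => by positivity) (by simp [cc]) K₁ hCB.c ?_
  · have hb2 : ∀ x ∈ Ioi x₀, g x ≤ G₂ x := by
      intro x hx
      have hxx : x₀ < x := hx
      have hxp : 0 < x := hx0.trans hxx
      have hqx' : 1 ≤ (q : ℝ) * x ^ 2 := by
        rw [← hqx]
        have := pow_le_pow_left₀ hx0.le hxx.le 2
        gcongr
      have h1 := rangeA hq.one_lt y b hCB.supp hCB.le x hxp hqx'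
      have h2 := hw2 x hxp hqx'
      have hw := hw0 x hxp
      rw [hg, hG₂]
      simp only
      have h3 : 0 ≤ ∑' n, ‖cc b n‖ ^ 2 * ga n x := tsum_nonneg fun n => by
        have := ga_pos n x
        positivity
      calc (∑ χ ∈ ev q, ‖FF χ y b x‖ ^ 2) * w x ≤ (2 * Nat.totient q * ∑' n, ‖cc b n‖ ^ 2 * ga n x) * (Q * Wt ℓ x) := by
            gcongr
        _ = _ := by ring
    have hG2i : IntegrableOn G₂ (Ioi x₀) := by
      rw [hG₂]
      exact IntegrableOn.mono_set (hcs.1.const_mul _) (Ioi_subset_Ioi hx0.le)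
    have hG20 : ∀ x ∈ Ioi (0 : ℝ), 0 ≤ G₂ x := by
      intro x hx
      have hx' : (0 : ℝ) < x := hx
      rw [hG₂]
      have h3 : 0 ≤ ∑' n, ‖cc b n‖ ^ 2 * ga n x := tsum_nonneg fun n => by
        have := ga_pos n x
        positivity
      unfold Wt
      positivity
    have hG2l : ∫ x in Ioi x₀, G₂ x ≤ (2 * Nat.totient q * Q) * (K0 * K₁) := by
      have h1 : ∫ x in Ioi x₀, G₂ x ≤ ∫ x in Ioi (0 : ℝ), G₂ x := by
        refine setIntegral_mono_set (by rw [hG₂]; exact hcs.1.const_mul _) ?_ (Ioi_subset_Ioi hx0.le).eventuallyLE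
        exact (ae_restrict_iff' measurableSet_Ioi).2 (Eventually.of_forall fun x hx => hG20 x hx)
      refine h1.trans ?_
      rw [hG₂, integral_const_mul]
      exact mul_le_mul_of_nonneg_left hcs.2 (by positivity)
    have hunion : Ioc 0 x₀ ∪ Ioi x₀ = Ioi (0 : ℝ) := Ioc_union_Ioi_eq_Ioi hx0.le
    have hgi1 : IntegrableOn g (Ioc 0 x₀) := by
      refine Integrable.mono' hG1i ((hgc.mono Ioc_subset_Ioi_self).aestronglyMeasurable measurableSet_Ioc) ?_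
      refine (ae_restrict_iff' measurableSet_Ioc).2 (Eventually.of_forall fun x hx => ?_)
      rw [Real.norm_eq_abs, abs_of_nonneg (hg0 x hx.1)]
      exact hb1 x hx
    have hgi2 : IntegrableOn g (Ioi x₀) := by
      refine Integrable.mono' hG2i ((hgc.mono (Ioi_subset_Ioi hx0.le)).aestronglyMeasurable measurableSet_Ioi) ?_
      refine (ae_restrict_iff' measurableSet_Ioi).2 (Eventually.of_forall fun x hx => ?_)
      have hx' : x₀ < x := hx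
      rw [Real.norm_eq_abs, abs_of_nonneg (hg0 x (hx0.trans hx'))]
      exact hb2 x hx
    have hgi : IntegrableOn g (Ioi 0) := by rw [← hunion]; exact hgi1.union hgi2
    rw [← hg]
    refine ⟨hgi, ?_⟩
    have h8 : ∫ x in Ioi (0 : ℝ), g x = (∫ x in Ioc 0 x₀, g x) + ∫ x in Ioi x₀, g x := by
      rw [← hunion, setIntegral_union Ioc_disjoint_Ioi_same measurableSet_Ioi hgi1 hgi2]
    have h9 := setIntegral_mono_on hgi1 hG1i measurableSet_Ioc hb1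
    have h10 := setIntegral_mono_on hgi2 hG2i measurableSet_Ioi hb2
    rw [h8]
    have h11 : 0 ≤ K₂ ^ 2 := by positivity
    calc (∫ x in Ioc 0 x₀, g x) + ∫ x in Ioi x₀, g x
        ≤ Cb * Nat.totient q * Q * (3 * Cp * K₂ ^ 2 + 1) + (2 * Nat.totient q * Q) * (K0 * K₁) := by linarith
      _ = Q * Nat.totient q * (3 * Cb * Cp * K₂ ^ 2 + Cb + 2 * K0 * K₁) := by ring
      _ ≤ Q * Nat.totient q * ((3 * Cb * Cp + Cb + 2 * K0 + 1) * (K₁ + K₂ ^ 2 + 1)) := by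
          gcongr
          have a1 : 0 ≤ 3 * Cb * Cp := by positivity
          have a2 : 0 ≤ 3 * Cb * Cp * K₁ := by positivity
          have a3 : 0 ≤ Cb * (K₁ + K₂ ^ 2) := by positivity
          have a4 : 0 ≤ 2 * K0 * (K₂ ^ 2 + 1) := by positivity
          nlinarith
      _ = _ := by ring
  · -- measurability
    have hPG := PG_sq (cc_PG hCB.le)
    have hc1 : ContinuousOn (TS (fun n => ((‖cc b n‖ ^ 2 : ℝ) : ℂ))) (Ioi 0) := TS_cont hPG (by norm_num)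
    have hc2 : ContinuousOn (fun x : ℝ => ∑' n, ‖cc b n‖ ^ 2 * ga n x) (Ioi 0) := by
      refine (Complex.continuous_re.comp_continuousOn hc1).congr fun x hx => ?_
      show ∑' n, ‖cc b n‖ ^ 2 * ga n x = (∑' n, ((‖cc b n‖ ^ 2 : ℝ) : ℂ) * (ga n x : ℂ)).re
      rw [← Complex.ofReal_re (∑' n, ‖cc b n‖ ^ 2 * ga n x), Complex.ofReal_tsum]
      congr 1
      refine tsum_congr fun n => ?_
      push_cast; rfl
    refine ContinuousOn.aestronglyMeasurable (ContinuousOn.mul hc2 ?_) measurableSet_Ioi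
    unfold Wt
    refine ContinuousOn.mul ?_ (by fun_prop)
    exact ContinuousOn.rpow_const continuousOn_id (fun x hx => Or.inl (ne_of_gt hx))

end Pool.Agent.D0H44.MW
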