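import Pool.Agent.D0H44.MW.Sm
import Pool.Agent.W186.SD.MainD
import Pool.Agent.Y857.VP.U2

/-! The three mean squares. -/

set_option autoImplicit false
open Complex Filter Topology MeasureTheory Set Asymptotics
open Pool.Agent.H24R2.DZ (cc rr bb MM mo ph)

namespace Pool.Agent.D0H44.MW

theorem Wt_cont (ℓ : ℝ) : ContinuousOn (Wt ℓ) (Ioi 0) := by
  unfold Wt
  refine ContinuousOn.mul ?_ (by fun_prop)
  exact ContinuousOn.rpow_const continuousOn_id (fun x hx => Or.inl (ne_of_gt hx))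

theorem Wt_nonneg (ℓ x : ℝ) (hx : 0 < x) : 0 ≤ Wt ℓ x := by unfold Wt; positivity

theorem small_of {q : ℕ} [NeZero q] {x : ℝ} (hx : 0 < x) (h : (q : ℝ) * x ^ 2 ≤ 1) : x ≤ 1 := by
  have hq1 : (1 : ℝ) ≤ q := by exact_mod_cast NeZero.one_le
  nlinarith

/-- weight `Wt` -/
theorem smw (hPB : S_PB) (hPHI : S_PHI) : ∃ C : ℝ, 0 < C ∧ ∀ (q : ℕ) [NeZero q], q.Prime →
    ∀ (y : ℕ) (b : ℕ → ℂ) (ℓ K₁ K₂ : ℝ), 1 ≤ ℓ → 1 ≤ y → y ^ 100 ≤ q →
    Real.log y ≤ ℓ + 1 → 0 ≤ K₁ → 0 ≤ K₂ → CB y ℓ b K₁ K₂ →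
    IntegrableOn (fun x : ℝ => (∑ χ ∈ ev q, ‖FF χ y b x‖ ^ 2) * Wt ℓ x) (Ioi 0) ∧
    ∫ x in Ioi (0 : ℝ), (∑ χ ∈ ev q, ‖FF χ y b x‖ ^ 2) * Wt ℓ x ≤
      C * Nat.totient q * (K₁ + K₂ ^ 2 + 1) := by
  obtain ⟨C, hC, h⟩ := smg hPB hPHI
  refine ⟨C * 2, by positivity, ?_⟩
  intro q _ hq y b ℓ K₁ K₂ hℓ hy hyq hly hK1 hK2 hCB
  have hq0 : (0 : ℝ) < q := by exact_mod_cast NeZero.pos q
  refine h q hq y b ℓ K₁ K₂ 2 (Wt ℓ) hℓ hy hyq hly hK1 hK2 hCB (by norm_num) (Wt_cont ℓ)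
    (fun x hx => Wt_nonneg ℓ x hx) ?_ ?_
  · intro x hx hqx
    have hx1 := small_of hx hqx
    have e1 : x ^ (1 / ℓ) ≤ 1 := Real.rpow_le_one hx.le hx1 (by positivity)
    have e2 : 1 + x ^ 2 ≤ 2 := by nlinarith
    have e0 : 0 ≤ x ^ (1 / ℓ) := by positivity
    refine ⟨?_, fun k hk => ?_⟩
    · unfold Wt
      nlinarith
    · have e3 : 1 / (q * x ^ 2) * min (q * k * x) ((q * k * x) ^ 3) ≤ k / x := by
        calc 1 / (q * x ^ 2) * min (q * k * x) ((q * k * x) ^ 3) ≤ 1 / (q * x ^ 2) * (q * k * x) := by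
              gcongr; exact min_le_left _ _
          _ = k / x := by field_simp
      have e4 : Wt ℓ x ≤ 2 * x ^ (1 / ℓ) := by unfold Wt; nlinarith
      have e5 : 0 ≤ (k : ℝ) / x := by positivity
      calc Wt ℓ x * (1 / (q * x ^ 2) * min (q * k * x) ((q * k * x) ^ 3)) ≤ (2 * x ^ (1 / ℓ)) * (k / x) := by
            have := Wt_nonneg ℓ x hx
            gcongr
        _ = 2 * k * x ^ (1 / ℓ - 1) := by
            rw [Real.rpow_sub hx, Real.rpow_one]; ring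
  · intro x hx _
    have := Wt_nonneg ℓ x hx
    linarith

/-- weight `1` -/
theorem smo1 (hPB : S_PB) (hPHI : S_PHI) : ∃ C : ℝ, 0 < C ∧ ∀ (q : ℕ) [NeZero q], q.Prime →
    ∀ (y : ℕ) (b : ℕ → ℂ) (ℓ K₁ K₂ : ℝ), 1 ≤ ℓ → 1 ≤ y → y ^ 100 ≤ q →
    Real.log y ≤ ℓ + 1 → 0 ≤ K₁ → 0 ≤ K₂ → CB y ℓ b K₁ K₂ →
    IntegrableOn (fun x : ℝ => (∑ χ ∈ ev q, ‖FF χ y b x‖ ^ 2) * 1) (Ioi 0) ∧
    ∫ x in Ioi (0 : ℝ), (∑ χ ∈ ev q, ‖FF χ y b x‖ ^ 2) * 1 ≤
      C * (q : ℝ) ^ (2 / ℓ) * Nat.totient q * (K₁ + K₂ ^ 2 + 1) := by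
  obtain ⟨C, hC, h⟩ := smg hPB hPHI
  refine ⟨C, hC, ?_⟩
  intro q _ hq y b ℓ K₁ K₂ hℓ hy hyq hly hK1 hK2 hCB
  have hq0 : (0 : ℝ) < q := by exact_mod_cast NeZero.pos q
  have hq1 : (1 : ℝ) ≤ q := by exact_mod_cast NeZero.one_le
  have hl0 : 0 < 1 / ℓ := by positivity
  have hQ : 1 ≤ (q : ℝ) ^ (2 / ℓ) := Real.one_le_rpow hq1 (by positivity)
  have hyq' : y ≤ q := (Nat.le_self_pow (by norm_num) y).trans hyq
  refine h q hq y b ℓ K₁ K₂ ((q : ℝ) ^ (2 / ℓ)) (fun _ => 1) hℓ hy hyq hly hK1 hK2 hCB hQ continuousOn_const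
    (fun x hx => zero_le_one) ?_ ?_
  · intro x hx hqx
    refine ⟨hQ, fun k hk => ?_⟩
    obtain ⟨hk1, hk2⟩ := Finset.mem_Icc.1 hk
    have hk0 : (0 : ℝ) < k := by exact_mod_cast hk1
    have hkq : (k : ℝ) ≤ q := by exact_mod_cast hk2.trans hyq'
    have hu : 0 < q * k * x := by positivity
    have e1 : min (q * k * x) ((q * k * x) ^ 3) ≤ (q * k * x) * (q * k * x) ^ (1 / ℓ) := by
      rcases le_or_gt 1 (q * k * x) with h1 | h1
      · refine (min_le_left _ _).trans ?_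
        have := Real.one_le_rpow h1 hl0.le
        nlinarith
      · refine (min_le_right _ _).trans ?_
        have h2 : (q * k * x) ^ 2 ≤ (q * k * x) ^ (1 / ℓ) := by
          rw [← Real.rpow_two]
          apply Real.rpow_le_rpow_of_exponent_ge hu h1.le
          have : 1 / ℓ ≤ 1 := by rw [div_le_one (by linarith)]; exact hℓ
          linarith
        calc (q * k * x) ^ 3 = (q * k * x) * (q * k * x) ^ 2 := by ring
          _ ≤ _ := by gcongr
    have e2 : (q * k * x) ^ (1 / ℓ) ≤ (q : ℝ) ^ (2 / ℓ) * x ^ (1 / ℓ) := by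
      rw [Real.mul_rpow (by positivity) hx.le]
      have : ((q : ℝ) * k) ^ (1 / ℓ) ≤ ((q : ℝ) ^ 2) ^ (1 / ℓ) := by
        apply Real.rpow_le_rpow (by positivity) _ hl0.le
        nlinarith
      have h3 : ((q : ℝ) ^ 2) ^ (1 / ℓ) = (q : ℝ) ^ (2 / ℓ) := by
        rw [← Real.rpow_two, ← Real.rpow_mul hq0.le]; congr 1; ring
      rw [h3] at this
      gcongr
    calc (1 : ℝ) * (1 / (q * x ^ 2) * min (q * k * x) ((q * k * x) ^ 3))
        ≤ 1 * (1 / (q * x ^ 2) * ((q * k * x) * ((q : ℝ) ^ (2 / ℓ) * x ^ (1 / ℓ)))) := by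
          gcongr
          exact e1.trans (by gcongr)
      _ = (q : ℝ) ^ (2 / ℓ) * k * x ^ (1 / ℓ - 1) := by
          rw [Real.rpow_sub hx, Real.rpow_one]
          field_simp
  · intro x hx hqx
    have h1 : 1 ≤ (q : ℝ) * x := by
      rcases le_or_gt 1 x with h | h
      · nlinarith
      · nlinarith
    have h2 : 1 ≤ ((q : ℝ) * x) ^ (1 / ℓ) := Real.one_le_rpow h1 hl0.le
    rw [Real.mul_rpow hq0.le hx.le] at h2
    have h3 : (q : ℝ) ^ (1 / ℓ) ≤ (q : ℝ) ^ (2 / ℓ) := by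
      apply Real.rpow_le_rpow_of_exponent_le hq1
      gcongr; norm_num
    have h4 : 0 ≤ x ^ (1 / ℓ) := by positivity
    have h5 : 1 ≤ (q : ℝ) ^ (2 / ℓ) * x ^ (1 / ℓ) := by nlinarith
    unfold Wt
    have h6 : 0 ≤ (q : ℝ) ^ (2 / ℓ) * x ^ (1 / ℓ) * x ^ 2 := by positivity
    calc (1 : ℝ) ≤ (q : ℝ) ^ (2 / ℓ) * x ^ (1 / ℓ) + (q : ℝ) ^ (2 / ℓ) * x ^ (1 / ℓ) * x ^ 2 := by linarith
      _ = _ := by ring

/-! ## the coefficients -/

theorem ph_le_one (u : ℝ) : ph u ≤ 1 := Real.smoothTransition.le_one _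
theorem ph_nonneg (u : ℝ) : 0 ≤ ph u := Real.smoothTransition.nonneg _

theorem mo_abs (θ L : ℝ) (h : ℕ) : |mo θ L h| ≤ 1 := by
  unfold mo
  rw [abs_mul, abs_of_nonneg (ph_nonneg _)]
  have h1 : |((ArithmeticFunction.moebius h : ℤ) : ℝ)| ≤ 1 := by
    exact_mod_cast ArithmeticFunction.abs_moebius_le_one
  have h2 := ph_le_one (Real.log h / (θ * L))
  have h3 := ph_nonneg (Real.log h / (θ * L))
  have h4 := abs_nonneg ((ArithmeticFunction.moebius h : ℤ) : ℝ)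
  nlinarith

theorem mo_zero_of (θ L : ℝ) (hθL : 0 < θ * L) (y h : ℕ) (hy : Real.exp (θ * L) ≤ y) (hh : y < h) :
    mo θ L h = 0 := by
  unfold mo ph
  have h1 : θ * L ≤ Real.log h := by
    rw [← Real.log_exp (θ * L)]
    apply Real.log_le_log (Real.exp_pos _)
    exact hy.trans (by exact_mod_cast hh.le)
  have h2 : 1 ≤ Real.log h / (θ * L) := by rw [le_div_iff₀ hθL]; linarith
  rw [Real.smoothTransition.zero_of_nonpos (by linarith), mul_zero]

theorem bb_norm (θ L : ℝ) (β : ℂ) (hβ : ‖β‖ ≤ 1) (h : ℕ) : ‖bb θ L β h‖ ≤ h := by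
  unfold bb
  rcases Nat.eq_zero_or_pos h with rfl | hh
  · have : mo θ L 0 = 0 := by unfold mo; simp
    rw [this]; simp
  · have hh0 : (0 : ℝ) < h := by exact_mod_cast hh
    have hh1 : (1 : ℝ) ≤ h := by exact_mod_cast hh
    rw [norm_mul, Complex.norm_real, Complex.norm_natCast_cpow_of_pos hh, Real.norm_eq_abs]
    have h1 := mo_abs θ L h
    have h2 : (h : ℝ) ^ (-β).re ≤ (h : ℝ) ^ (1 : ℝ) := by
      apply Real.rpow_le_rpow_of_exponent_le hh1
      have := Complex.abs_re_le_norm β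
      rw [Complex.neg_re]
      have := neg_abs_le β.re
      linarith
    rw [Real.rpow_one] at h2
    have h3 : 0 ≤ (h : ℝ) ^ (-β).re := by positivity
    nlinarith [abs_nonneg (mo θ L h)]

/-- the coefficients `b_h log h` -/
noncomputable def bl (θ L : ℝ) (h : ℕ) : ℂ := bb θ L 0 h * (Real.log h : ℂ)

theorem bb_deriv (θ L : ℝ) (h : ℕ) : HasDerivAt (fun z : ℂ => bb θ L z h) (-(bl θ L h)) 0 := by
  rcases Nat.eq_zero_or_pos h with rfl | hh
  · have : mo θ L 0 = 0 := by unfold mo; simp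
    have h1 : (fun z : ℂ => bb θ L z 0) = fun _ => 0 := by funext z; unfold bb; rw [this]; simp
    rw [h1]
    have h2 : bl θ L 0 = 0 := by unfold bl bb; rw [this]; simp
    rw [h2, neg_zero]
    exact hasDerivAt_const _ _
  · have hh0 : (h : ℂ) ≠ 0 := by exact_mod_cast hh.ne'
    unfold bl bb
    have h1 : HasDerivAt (fun z : ℂ => (h : ℂ) ^ (-z)) ((h : ℂ) ^ (-(0 : ℂ)) * Complex.log h * (-1)) 0 :=
      (hasDerivAt_neg (0 : ℂ)).const_cpow (Or.inl hh0)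
    have h2 := h1.const_mul (mo θ L h : ℂ)
    refine h2.congr_deriv ?_
    rw [← Complex.natCast_log]
    ring

theorem bb_diff (θ L : ℝ) (h : ℕ) : Differentiable ℂ (fun z : ℂ => bb θ L z h) := by
  rcases Nat.eq_zero_or_pos h with rfl | hh
  · have : mo θ L 0 = 0 := by unfold mo; simp
    have h1 : (fun z : ℂ => bb θ L z 0) = fun _ => 0 := by funext z; unfold bb; rw [this]; simp
    rw [h1]; exact differentiable_const _
  · have hh0 : (h : ℂ) ≠ 0 := by exact_mod_cast hh.ne'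
    unfold bb
    refine Differentiable.const_mul ?_ _
    exact fun z => (differentiableAt_id.neg).const_cpow (Or.inl hh0)

theorem cc_deriv (θ L : ℝ) (n : ℕ) : HasDerivAt (fun z : ℂ => cc (bb θ L z) n) (-(cc (bl θ L) n)) 0 := by
  unfold cc
  rw [← Finset.sum_neg_distrib]
  exact HasDerivAt.fun_sum fun h _ => bb_deriv θ L h

theorem cc_diff (θ L : ℝ) (n : ℕ) : Differentiable ℂ (fun z : ℂ => cc (bb θ L z) n) := by
  unfold cc
  exact Differentiable.fun_sum fun h _ => bb_diff θ L h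

theorem rr_deriv (θ L : ℝ) (y k : ℕ) :
    HasDerivAt (fun z : ℂ => rr y (bb θ L z) k) (-(rr y (bl θ L) k)) 0 := by
  unfold rr
  rw [← Finset.sum_neg_distrib]
  refine HasDerivAt.fun_sum fun h _ => ?_
  have := (bb_deriv θ L h).div_const (h : ℂ)
  rwa [neg_div] at this

theorem rr_diff (θ L : ℝ) (y k : ℕ) : Differentiable ℂ (fun z : ℂ => rr y (bb θ L z) k) := by
  unfold rr
  exact Differentiable.fun_sum fun h _ => (bb_diff θ L h).div_const _

theorem coefs (θ : ℝ) (hθ : 0 < θ) (hθ1 : θ ≤ 1) : ∃ C : ℝ, 1 ≤ C ∧ ∀ (ℓ : ℝ) (y : ℕ), 3 ≤ ℓ →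
    Real.exp (θ * ℓ) ≤ y →
    (∀ β : ℂ, ℓ * ‖β‖ ≤ 3 → CB y ℓ (bb θ ℓ β) C C) ∧ CB y ℓ (bl θ ℓ) (C * ℓ ^ 2) (C * ℓ) := by
  obtain ⟨C0, hC0, h0⟩ := Pool.Agent.W186.SD.smo θ hθ hθ1
  obtain ⟨C, hC⟩ : ∃ C : ℝ, C = C0 * 4 ^ 20 * Real.exp 6 + 1 := ⟨_, rfl⟩
  have hC1 : 1 ≤ C := by rw [hC]; have : 0 < C0 * 4 ^ 20 * Real.exp 6 := by positivity
                         linarith
  have key : ∀ (ℓ : ℝ) (y : ℕ), 3 ≤ ℓ → Real.exp (θ * ℓ) ≤ y → ∀ β : ℂ, ℓ * ‖β‖ ≤ 3 →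
      CB y ℓ (bb θ ℓ β) C C := by
    intro ℓ y hℓ hy β hβ
    have hℓ0 : 0 < ℓ := by linarith
    have hβ1 : ‖β‖ ≤ 1 := by
      by_contra h
      push Not at h
      nlinarith
    obtain ⟨h1, h2⟩ := h0 ℓ β (by linarith)
    have hn := norm_nonneg β
    have e1 : (1 + ℓ * ‖β‖) ^ 20 ≤ 4 ^ 20 := pow_le_pow_left₀ (by positivity) (by linarith) 20
    have e2 : (1 + ℓ * ‖β‖) ^ 10 ≤ 4 ^ 20 := by
      have : (1 + ℓ * ‖β‖) ^ 10 ≤ 4 ^ 10 := pow_le_pow_left₀ (by positivity) (by linarith) 10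
      refine this.trans (by norm_num)
    have e3 : Real.exp (2 * θ * ℓ * ‖β‖) ≤ Real.exp 6 := by
      apply Real.exp_le_exp.2
      have : θ * (ℓ * ‖β‖) ≤ 1 * 3 := by gcongr
      nlinarith
    have e4 : Real.exp (θ * ℓ * ‖β‖) ≤ Real.exp 6 := by
      apply Real.exp_le_exp.2
      have : θ * (ℓ * ‖β‖) ≤ 1 * 3 := by gcongr
      nlinarith
    refine ⟨?_, bb_norm θ ℓ β hβ1, fun N => ?_, fun k hk => ?_⟩
    · intro h hh
      unfold bb
      rw [mo_zero_of θ ℓ (by positivity) y h hy hh]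
      simp
    · refine (h1 N).trans ?_
      calc C0 * (1 + ℓ * ‖β‖) ^ 20 * Real.exp (2 * θ * ℓ * ‖β‖) ≤ C0 * 4 ^ 20 * Real.exp 6 := by gcongr
        _ ≤ C := by rw [hC]; linarith
    · refine (h2 y k hy hk).trans ?_
      have hφk : (0 : ℝ) < Nat.totient k := by exact_mod_cast Nat.totient_pos.2 hk
      gcongr
      calc C0 * (1 + ℓ * ‖β‖) ^ 10 * Real.exp (θ * ℓ * ‖β‖) ≤ C0 * 4 ^ 20 * Real.exp 6 := by gcongr
        _ ≤ C := by rw [hC]; linarith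
  refine ⟨C, hC1, fun ℓ y hℓ hy => ⟨key ℓ y hℓ hy, ?_⟩⟩
  have hℓ0 : 0 < ℓ := by linarith
  have hρ : 0 < 1 / ℓ := by positivity
  have hcirc : ∀ z : ℂ, ‖z‖ = 1 / ℓ → CB y ℓ (bb θ ℓ z) C C := by
    intro z hz
    apply key ℓ y hℓ hy
    rw [hz]; field_simp; norm_num
  refine ⟨?_, ?_, ?_, ?_⟩
  · intro h hh
    unfold bl bb
    rw [mo_zero_of θ ℓ (by positivity) y h hy hh]
    simp
  · intro h
    unfold bl bb
    rcases Nat.eq_zero_or_pos h with rfl | hh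
    · simp
    · have hh0 : (0 : ℝ) < h := by exact_mod_cast hh
      have hh1 : (1 : ℝ) ≤ h := by exact_mod_cast hh
      rw [neg_zero, Complex.cpow_zero, mul_one, norm_mul, Complex.norm_real, Complex.norm_real,
        Real.norm_eq_abs, Real.norm_eq_abs, abs_of_nonneg (Real.log_nonneg hh1)]
      have h1 := mo_abs θ ℓ h
      have h2 := Real.log_le_self hh0.le
      have h3 := Real.log_nonneg hh1
      nlinarith [abs_nonneg (mo θ ℓ h)]
  · intro N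
    have h1 : ∀ n : ℕ, ‖cc (bl θ ℓ) n‖ ^ 2 ≤ 1 / (2 * Real.pi * (1 / ℓ) ^ 2) *
        ∫ φ in (0 : ℝ)..(2 * Real.pi), ‖cc (bb θ ℓ (circleMap 0 (1 / ℓ) φ)) n‖ ^ 2 := by
      intro n
      have := Pool.Agent.Y857.VP.cauchy_sq (fun z : ℂ => cc (bb θ ℓ z) n) 0 (1 / ℓ) hρ
        (fun z _ => (cc_diff θ ℓ n) z)
      rw [(cc_deriv θ ℓ n).deriv, norm_neg] at this
      exact this
    have hcont : ∀ n : ℕ, Continuous (fun φ : ℝ => ‖cc (bb θ ℓ (circleMap 0 (1 / ℓ) φ)) n‖ ^ 2) := fun n =>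
      (((cc_diff θ ℓ n).continuous.comp (continuous_circleMap 0 (1 / ℓ))).norm).pow 2
    calc ∑ n ∈ Finset.Icc 1 N, (n : ℝ) ^ (-(1 + 1 / ℓ)) * ‖cc (bl θ ℓ) n‖ ^ 2
        ≤ ∑ n ∈ Finset.Icc 1 N, (n : ℝ) ^ (-(1 + 1 / ℓ)) * (1 / (2 * Real.pi * (1 / ℓ) ^ 2) *
        ∫ φ in (0 : ℝ)..(2 * Real.pi), ‖cc (bb θ ℓ (circleMap 0 (1 / ℓ) φ)) n‖ ^ 2) :=
          Finset.sum_le_sum fun n _ => mul_le_mul_of_nonneg_left (h1 n) (by positivity)
      _ = 1 / (2 * Real.pi * (1 / ℓ) ^ 2) * ∫ φ in (0 : ℝ)..(2 * Real.pi),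
          ∑ n ∈ Finset.Icc 1 N, (n : ℝ) ^ (-(1 + 1 / ℓ)) * ‖cc (bb θ ℓ (circleMap 0 (1 / ℓ) φ)) n‖ ^ 2 := by
          rw [intervalIntegral.integral_finsetSum (fun n _ => ((hcont n).const_mul _).intervalIntegrable _ _),
            Finset.mul_sum]
          refine Finset.sum_congr rfl fun n _ => ?_
          rw [intervalIntegral.integral_const_mul]
          ring
      _ ≤ 1 / (2 * Real.pi * (1 / ℓ) ^ 2) * ∫ φ in (0 : ℝ)..(2 * Real.pi), C := by
          refine mul_le_mul_of_nonneg_left ?_ (by positivity)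
          refine intervalIntegral.integral_mono_on (by positivity) ?_ (by simp) fun φ _ => ?_
          · exact (continuous_finsetSum _ fun n _ => (hcont n).const_mul _).intervalIntegrable _ _
          · exact (hcirc _ (by rw [norm_circleMap_zero, abs_of_pos hρ])).c N
      _ = C * ℓ ^ 2 := by
          rw [intervalIntegral.integral_const, sub_zero, smul_eq_mul]
          field_simp
  · intro k hk
    have hφk : (0 : ℝ) < Nat.totient k := by exact_mod_cast Nat.totient_pos.2 hk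
    have h1 := Complex.norm_deriv_le_of_forall_mem_sphere_norm_le (f := fun z : ℂ => rr y (bb θ ℓ z) k)
      (c := 0) (R := 1 / ℓ) (C := C / (ℓ * (Nat.totient k : ℝ))) hρ (rr_diff θ ℓ y k).diffContOnCl ?_
    · rw [(rr_deriv θ ℓ y k).deriv, norm_neg] at h1
      refine h1.trans (le_of_eq ?_)
      field_simp
    · intro z hz
      have hz' : ‖z‖ = 1 / ℓ := by simpa using hz
      exact (hcirc z hz').r k hk

/-! ## Mellin side -/

/-- `∑ b_h χ(h) log(h x) θ(h x)` -/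
noncomputable def DD {q : ℕ} (χ : DirichletCharacter ℂ q) (y : ℕ) (b : ℕ → ℂ) (x : ℝ) : ℂ :=
  ∑ h ∈ Finset.Icc 1 y, b h * χ (h : ZMod q) * ((Real.log (h * x) : ℂ) * th χ (h * x))

theorem FF_mellin {q : ℕ} [NeZero q] (hq : q.Prime) (χ : DirichletCharacter ℂ q) (h1 : χ ≠ 1) (hχ : χ.Even)
    (y : ℕ) (b : ℕ → ℂ) (s : ℂ) :
    mellin (FF χ y b) s = DirichletCharacter.completedLFunction χ s / 2 *
      MM y (fun h => b h * χ (h : ZMod q)) s := by
  have e1 : mellin (FF χ y b) s = ∑ h ∈ Finset.Icc 1 y, mellin (fun x : ℝ => b h * χ (h : ZMod q) * th χ (h * x)) s := by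
    refine mellin_sum' _ (fun h (x : ℝ) => b h * χ (h : ZMod q) * th χ (h * x)) fun h hh => ?_
    have hh0 : (0 : ℝ) < h := by exact_mod_cast (Finset.mem_Icc.1 hh).1
    exact ((th_MC hq χ h1 hχ s.re).scale h hh0).smul _
  rw [e1]
  unfold MM
  rw [Finset.mul_sum]
  refine Finset.sum_congr rfl fun h hh => ?_
  have hh0 : (0 : ℝ) < h := by exact_mod_cast (Finset.mem_Icc.1 hh).1
  rw [mellin_smul', mellin_scale' (th χ) s h hh0, th_mellin hq χ h1 hχ]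
  push_cast
  ring

/-- `log x · F(x)` is in the class again -/
theorem MC.log {F : ℝ → ℂ} {σ : ℝ} (h : MC F σ) : MC (fun x => (Real.log x : ℂ) * F x) σ := by
  obtain ⟨C, m, hm, h1, h2⟩ := h.bd
  have hC : 0 ≤ C := by
    have := h1 1 one_pos
    rw [Real.one_rpow, mul_one] at this
    exact (norm_nonneg _).trans this
  have hlog : ∀ x : ℝ, 0 < x → |Real.log x| ≤ (2 / m) * (x ^ (m / 2) + x ^ (-(m / 2))) := by
    intro x hx
    have hp1 : 0 < x ^ (m / 2) := by positivity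
    have hp2 : 0 < x ^ (-(m / 2)) := by positivity
    have a1 : Real.log x ≤ x ^ (m / 2) / (m / 2) := Real.log_le_rpow_div hx.le (by positivity)
    have a2 : Real.log x⁻¹ ≤ x⁻¹ ^ (m / 2) / (m / 2) := Real.log_le_rpow_div (by positivity) (by positivity)
    rw [Real.log_inv, Real.inv_rpow hx.le, ← Real.rpow_neg hx.le] at a2
    have e1 : x ^ (m / 2) / (m / 2) = (2 / m) * x ^ (m / 2) := by field_simp
    have e2 : x ^ (-(m / 2)) / (m / 2) = (2 / m) * x ^ (-(m / 2)) := by field_simp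
    rw [e1] at a1
    rw [e2] at a2
    have hm2 : 0 < 2 / m := by positivity
    rw [abs_le]
    constructor
    · have := mul_pos hm2 hp1
      nlinarith
    · have := mul_pos hm2 hp2
      nlinarith
  refine ⟨?_, 2 * (2 / m * C), m / 2, by positivity, fun x hx => ?_, fun x hx => ?_⟩
  · refine ContinuousOn.mul ?_ h.cont
    refine Complex.continuous_ofReal.comp_continuousOn ?_
    exact Real.continuousOn_log.mono fun x hx => ne_of_gt hx
  · rw [norm_mul, Complex.norm_real, Real.norm_eq_abs]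
    have hb := hlog x hx
    have e1 : x ^ (m / 2) * x ^ (-σ + m) ≤ x ^ (-σ + m / 2) ∨ x ^ (m / 2) * x ^ (-σ - m) ≤ x ^ (-σ + m / 2) := by
      rcases le_or_gt x 1 with hx1 | hx1
      · left
        rw [← Real.rpow_add hx]
        exact Real.rpow_le_rpow_of_exponent_ge hx hx1 (by linarith)
      · right
        rw [← Real.rpow_add hx]
        exact Real.rpow_le_rpow_of_exponent_le hx1.le (by linarith)
    have e2 : x ^ (-(m / 2)) * x ^ (-σ + m) = x ^ (-σ + m / 2) := by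
      rw [← Real.rpow_add hx]; congr 1; ring
    have hF : x ^ (m / 2) * ‖F x‖ ≤ C * x ^ (-σ + m / 2) := by
      rcases e1 with e | e
      · calc x ^ (m / 2) * ‖F x‖ ≤ x ^ (m / 2) * (C * x ^ (-σ + m)) := by
              have := h1 x hx; gcongr
          _ = C * (x ^ (m / 2) * x ^ (-σ + m)) := by ring
          _ ≤ _ := by gcongr
      · calc x ^ (m / 2) * ‖F x‖ ≤ x ^ (m / 2) * (C * x ^ (-σ - m)) := by
              have := h2 x hx; gcongr
          _ = C * (x ^ (m / 2) * x ^ (-σ - m)) := by ring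
          _ ≤ _ := by gcongr
    have hF2 : x ^ (-(m / 2)) * ‖F x‖ ≤ C * x ^ (-σ + m / 2) := by
      calc x ^ (-(m / 2)) * ‖F x‖ ≤ x ^ (-(m / 2)) * (C * x ^ (-σ + m)) := by
            have := h1 x hx; gcongr
        _ = C * (x ^ (-(m / 2)) * x ^ (-σ + m)) := by ring
        _ = _ := by rw [e2]
    calc |Real.log x| * ‖F x‖ ≤ ((2 / m) * (x ^ (m / 2) + x ^ (-(m / 2)))) * ‖F x‖ := by gcongr
      _ = (2 / m) * (x ^ (m / 2) * ‖F x‖ + x ^ (-(m / 2)) * ‖F x‖) := by ring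
      _ ≤ (2 / m) * (C * x ^ (-σ + m / 2) + C * x ^ (-σ + m / 2)) := by gcongr
      _ = _ := by ring
  · rw [norm_mul, Complex.norm_real, Real.norm_eq_abs]
    have hb := hlog x hx
    have e1 : x ^ (-(m / 2)) * x ^ (-σ - m) ≤ x ^ (-σ - m / 2) ∨ x ^ (-(m / 2)) * x ^ (-σ + m) ≤ x ^ (-σ - m / 2) := by
      rcases le_or_gt x 1 with hx1 | hx1
      · right
        rw [← Real.rpow_add hx]
        exact Real.rpow_le_rpow_of_exponent_ge hx hx1 (by linarith)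
      · left
        rw [← Real.rpow_add hx]
        exact Real.rpow_le_rpow_of_exponent_le hx1.le (by linarith)
    have e2 : x ^ (m / 2) * x ^ (-σ - m) = x ^ (-σ - m / 2) := by
      rw [← Real.rpow_add hx]; congr 1; ring
    have hF : x ^ (-(m / 2)) * ‖F x‖ ≤ C * x ^ (-σ - m / 2) := by
      rcases e1 with e | e
      · calc x ^ (-(m / 2)) * ‖F x‖ ≤ x ^ (-(m / 2)) * (C * x ^ (-σ - m)) := by
              have := h2 x hx; gcongr
          _ = C * (x ^ (-(m / 2)) * x ^ (-σ - m)) := by ring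
          _ ≤ _ := by gcongr
      · calc x ^ (-(m / 2)) * ‖F x‖ ≤ x ^ (-(m / 2)) * (C * x ^ (-σ + m)) := by
              have := h1 x hx; gcongr
          _ = C * (x ^ (-(m / 2)) * x ^ (-σ + m)) := by ring
          _ ≤ _ := by gcongr
    have hF2 : x ^ (m / 2) * ‖F x‖ ≤ C * x ^ (-σ - m / 2) := by
      calc x ^ (m / 2) * ‖F x‖ ≤ x ^ (m / 2) * (C * x ^ (-σ - m)) := by
            have := h2 x hx; gcongr
        _ = C * (x ^ (m / 2) * x ^ (-σ - m)) := by ring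
        _ = _ := by rw [e2]
    calc |Real.log x| * ‖F x‖ ≤ ((2 / m) * (x ^ (m / 2) + x ^ (-(m / 2)))) * ‖F x‖ := by gcongr
      _ = (2 / m) * (x ^ (m / 2) * ‖F x‖ + x ^ (-(m / 2)) * ‖F x‖) := by ring
      _ ≤ (2 / m) * (C * x ^ (-σ - m / 2) + C * x ^ (-σ - m / 2)) := by gcongr
      _ = _ := by ring

theorem DD_MC {q : ℕ} [NeZero q] (hq : q.Prime) (χ : DirichletCharacter ℂ q) (h1 : χ ≠ 1) (hχ : χ.Even)
    (y : ℕ) (b : ℕ → ℂ) (σ : ℝ) : MC (DD χ y b) σ := by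
  unfold DD
  refine MC.sum _ (fun h (x : ℝ) => b h * χ (h : ZMod q) * ((Real.log (h * x) : ℂ) * th χ (h * x))) fun h hh => ?_
  have hh0 : (0 : ℝ) < h := by exact_mod_cast (Finset.mem_Icc.1 hh).1
  exact ((th_MC hq χ h1 hχ σ).log.scale h hh0).smul _

theorem DD_mellin {q : ℕ} [NeZero q] (hq : q.Prime) (χ : DirichletCharacter ℂ q) (h1 : χ ≠ 1) (hχ : χ.Even)
    (y : ℕ) (b : ℕ → ℂ) (s : ℂ) :
    mellin (DD χ y b) s = deriv (DirichletCharacter.completedLFunction χ) s / 2 *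
      MM y (fun h => b h * χ (h : ZMod q)) s := by
  have e1 : mellin (DD χ y b) s = ∑ h ∈ Finset.Icc 1 y,
      mellin (fun x : ℝ => b h * χ (h : ZMod q) * ((Real.log (h * x) : ℂ) * th χ (h * x))) s := by
    refine mellin_sum' _ (fun h (x : ℝ) => b h * χ (h : ZMod q) * ((Real.log (h * x) : ℂ) * th χ (h * x))) fun h hh => ?_
    have hh0 : (0 : ℝ) < h := by exact_mod_cast (Finset.mem_Icc.1 hh).1
    exact ((th_MC hq χ h1 hχ s.re).log.scale h hh0).smul _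
  have e2 : mellin (fun x : ℝ => (Real.log x : ℂ) * th χ x) s =
      deriv (DirichletCharacter.completedLFunction χ) s / 2 := by
    have h2 := (th_MC hq χ h1 hχ s.re).hasDerivAt
    have h3 : mellin (th χ) = fun s => DirichletCharacter.completedLFunction χ s / 2 :=
      funext fun s => th_mellin hq χ h1 hχ s
    rw [h3] at h2
    rw [← h2.deriv, deriv_div_const]
  rw [e1]
  unfold MM
  rw [Finset.mul_sum]
  refine Finset.sum_congr rfl fun h hh => ?_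
  have hh0 : (0 : ℝ) < h := by exact_mod_cast (Finset.mem_Icc.1 hh).1
  rw [mellin_smul', mellin_scale' (fun x : ℝ => (Real.log x : ℂ) * th χ x) s h hh0, e2]
  push_cast
  ring

theorem DD_eq {q : ℕ} (χ : DirichletCharacter ℂ q) (y : ℕ) (θ ℓ : ℝ) (x : ℝ) (hx : 0 < x) :
    DD χ y (bb θ ℓ 0) x = FF χ y (bl θ ℓ) x + (Real.log x : ℂ) * FF χ y (bb θ ℓ 0) x := by
  unfold DD FF bl
  rw [Finset.mul_sum, ← Finset.sum_add_distrib]
  refine Finset.sum_congr rfl fun h hh => ?_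
  have hh0 : (0 : ℝ) < h := by exact_mod_cast (Finset.mem_Icc.1 hh).1
  rw [Real.log_mul hh0.ne' hx.ne']
  push_cast
  ring

end Pool.Agent.D0H44.MW
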